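import Mathlib

set_option autoImplicit false

namespace Pool.Agent.Helper838.BSW

open Finset

/-- there is a sunflower in `H` with `m` petals of size at least `b`. -/
def HasSun {α : Type} [DecidableEq α] (b m : ℕ) (H : Finset (Finset α)) : Prop :=
  ∃ (K : Finset α) (P : Fin m → Finset α), (∀ i, b ≤ (P i).card) ∧ (∀ i, Disjoint K (P i)) ∧
    (∀ i j, i ≠ j → Disjoint (P i) (P j)) ∧ ∀ i, K ∪ P i ∈ H

lemma greedy {α : Type} [DecidableEq α] (H : Finset (Finset α)) (k : ℕ)
    (hk : ∀ A ∈ H, A.card ≤ k) (m : ℕ) :
    (∃ P : Fin m → Finset α, (∀ i, P i ∈ H) ∧ ∀ i j, i ≠ j → Disjoint (P i) (P j)) ∨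
      ∃ W : Finset α, W.card ≤ m * k ∧ ∀ A ∈ H, ¬ Disjoint A W := by
  induction m with
  | zero => left; exact ⟨fun i => i.elim0, fun i => i.elim0, fun i => i.elim0⟩
  | succ m ih =>
    rcases ih with ⟨P, hP, hd⟩ | ⟨W, hW, h⟩
    · by_cases hex : ∃ A ∈ H, Disjoint A (univ.biUnion P)
      · obtain ⟨A, hA, hAd⟩ := hex
        left
        refine ⟨Fin.cons A P, ?_, ?_⟩
        · intro i
          refine Fin.cases ?_ (fun i => ?_) i
          · simpa using hA
          · simpa using hP i
        · have hAi : ∀ i, Disjoint A (P i) := fun i =>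
            (Finset.disjoint_biUnion_right _ _ _).mp hAd i (mem_univ i)
          intro i j
          refine Fin.cases ?_ (fun i => ?_) i
          · refine Fin.cases ?_ (fun j => ?_) j
            · intro h; exact absurd rfl h
            · intro _; simpa using hAi j
          · refine Fin.cases ?_ (fun j => ?_) j
            · intro _; simpa using (hAi i).symm
            · intro h
              have : i ≠ j := fun h2 => h (by rw [h2])
              simpa using hd i j this
      · push Not at hex
        right
        refine ⟨univ.biUnion P, ?_, hex⟩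
        calc _ ≤ ∑ i : Fin m, (P i).card := Finset.card_biUnion_le
          _ ≤ ∑ _i : Fin m, k := Finset.sum_le_sum fun i _ => hk _ (hP i)
          _ = m * k := by simp
          _ ≤ (m + 1) * k := Nat.mul_le_mul_right _ (Nat.le_succ m)
    · right
      exact ⟨W, hW.trans (Nat.mul_le_mul_right _ (Nat.le_succ m)), h⟩

lemma small_count {α : Type} [DecidableEq α] [Fintype α] (b : ℕ) (H : Finset (Finset α))
    (hH : ∀ A ∈ H, A.card ≤ b) : H.card ≤ (b + 1) * (Fintype.card α + 1) ^ b := by
  have h1 : H ⊆ (Finset.range (b + 1)).biUnion (fun k => powersetCard k (univ : Finset α)) := by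
    intro A hA
    rw [Finset.mem_biUnion]
    exact ⟨A.card, Finset.mem_range.mpr (Nat.lt_succ_of_le (hH A hA)), by simp⟩
  calc _ ≤ _ := Finset.card_le_card h1
    _ ≤ ∑ k ∈ Finset.range (b + 1), (powersetCard k (univ : Finset α)).card := Finset.card_biUnion_le
    _ ≤ ∑ k ∈ Finset.range (b + 1), (Fintype.card α + 1) ^ b := by
        refine Finset.sum_le_sum fun k hk => ?_
        rw [Finset.card_powersetCard, Finset.card_univ]
        have hk' : k ≤ b := Nat.lt_succ_iff.mp (Finset.mem_range.mp hk)
        calc _ ≤ (Fintype.card α) ^ k := Nat.choose_le_pow _ _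
          _ ≤ (Fintype.card α + 1) ^ k := Nat.pow_le_pow_left (Nat.le_succ _) _
          _ ≤ _ := Nat.pow_le_pow_right (Nat.succ_pos _) hk'
    _ = _ := by simp

theorem sun_bound (b m : ℕ) : ∀ r : ℕ, ∃ C : ℕ, ∀ (α : Type) [DecidableEq α] [Fintype α]
    (H : Finset (Finset α)), (∀ A ∈ H, A.card ≤ b + r) → ¬ HasSun (b + 1) m H →
      H.card ≤ C * (Fintype.card α + 1) ^ b := by
  intro r
  induction r with
  | zero =>
    refine ⟨b + 1, fun α _ _ H hH _ => small_count b H (by simpa using hH)⟩
  | succ r ih =>
    obtain ⟨C, hC⟩ := ih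
    refine ⟨(b + 1) + m * (b + (r + 1)) * C, ?_⟩
    intro α _ _ H hH hno
    have hsplit : H.card = (H.filter (fun A => A.card ≤ b)).card +
        (H.filter (fun A => ¬ A.card ≤ b)).card :=
      (Finset.card_filter_add_card_filter_not (s := H) (p := fun A => A.card ≤ b)).symm
    have h1 : (H.filter (fun A => A.card ≤ b)).card ≤ (b + 1) * (Fintype.card α + 1) ^ b :=
      small_count b _ (fun A hA => (Finset.mem_filter.mp hA).2)
    have h2 : (H.filter (fun A => ¬ A.card ≤ b)).card ≤
        m * (b + (r + 1)) * C * (Fintype.card α + 1) ^ b := by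
      rcases greedy (H.filter (fun A => ¬ A.card ≤ b)) (b + (r + 1))
        (fun A hA => hH A (Finset.mem_filter.mp hA).1) m with ⟨P, hP, hd⟩ | ⟨W, hW, hW2⟩
      · exfalso
        refine hno ⟨∅, P, ?_, fun i => Finset.disjoint_empty_left _, hd, ?_⟩
        · intro i
          have := (Finset.mem_filter.mp (hP i)).2
          omega
        · intro i
          rw [Finset.empty_union]
          exact (Finset.mem_filter.mp (hP i)).1
      · have hsub : H.filter (fun A => ¬ A.card ≤ b) ⊆
            W.biUnion (fun w => H.filter (fun A => w ∈ A)) := by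
          intro A hA
          obtain ⟨w, hw1, hw2⟩ := Finset.not_disjoint_iff.mp (hW2 A hA)
          rw [Finset.mem_biUnion]
          exact ⟨w, hw2, Finset.mem_filter.mpr ⟨(Finset.mem_filter.mp hA).1, hw1⟩⟩
        have hw : ∀ w, (H.filter (fun A => w ∈ A)).card ≤ C * (Fintype.card α + 1) ^ b := by
          intro w
          have hinj : Set.InjOn (fun A : Finset α => A.erase w) (H.filter (fun A => w ∈ A)) := by
            intro A hA B hB hAB
            have hA' := (Finset.mem_filter.mp hA).2
            have hB' := (Finset.mem_filter.mp hB).2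
            simp only at hAB
            rw [← Finset.insert_erase hA', hAB, Finset.insert_erase hB']
          rw [← Finset.card_image_of_injOn hinj]
          refine hC α _ ?_ ?_
          · intro A hA
            obtain ⟨B, hB, rfl⟩ := Finset.mem_image.mp hA
            have h3 := hH B (Finset.mem_filter.mp hB).1
            rw [Finset.card_erase_of_mem (Finset.mem_filter.mp hB).2]
            omega
          · rintro ⟨K, P, hP1, hP2, hP3, hP4⟩
            by_cases hm : m = 0
            · subst hm
              exact hno ⟨∅, fun i => i.elim0, fun i => i.elim0, fun i => i.elim0,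
                fun i => i.elim0, fun i => i.elim0⟩
            have hwK : ∀ i, w ∉ K ∪ P i := by
              intro i hi
              obtain ⟨B, hB, hBe⟩ := Finset.mem_image.mp (hP4 i)
              rw [← hBe] at hi
              exact Finset.notMem_erase w B hi
            refine hno ⟨insert w K, P, hP1, ?_, hP3, ?_⟩
            · intro i
              rw [Finset.disjoint_insert_left]
              exact ⟨fun h => hwK i (Finset.mem_union_right _ h), hP2 i⟩
            · intro i
              obtain ⟨B, hB, hBe⟩ := Finset.mem_image.mp (hP4 i)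
              have : insert w K ∪ P i = B := by
                rw [Finset.insert_union, ← hBe, Finset.insert_erase (Finset.mem_filter.mp hB).2]
              rw [this]
              exact (Finset.mem_filter.mp hB).1
        calc _ ≤ _ := Finset.card_le_card hsub
          _ ≤ ∑ w ∈ W, (H.filter (fun A => w ∈ A)).card := Finset.card_biUnion_le
          _ ≤ ∑ w ∈ W, C * (Fintype.card α + 1) ^ b := Finset.sum_le_sum fun w _ => hw w
          _ = W.card * (C * (Fintype.card α + 1) ^ b) := by simp
          _ ≤ (m * (b + (r + 1))) * (C * (Fintype.card α + 1) ^ b) := Nat.mul_le_mul_right _ hW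
          _ = _ := by ring
    rw [hsplit]
    calc _ ≤ _ := Nat.add_le_add h1 h2
      _ = _ := by ring

end Pool.Agent.Helper838.BSW
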