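import Mathlib
import Pool.Agent.Helper838.BSWSun

set_option autoImplicit false

namespace Pool.Agent.Helper838.BSW

open Finset
open scoped symmDiff

variable {n : ℕ}

lemma inter_symm (M P Q : Finset (Fin n)) (h : Disjoint P Q) :
    (M ∆ P) ∩ (M ∆ Q) = M \ (P ∪ Q) := by
  ext x
  have hh : x ∈ P → x ∉ Q := fun hx => Finset.disjoint_left.mp h hx
  simp only [mem_inter, mem_symmDiff, mem_sdiff, mem_union]
  tauto

lemma union_symm (M P Q : Finset (Fin n)) (h : Disjoint P Q) :
    (M ∆ P) ∪ (M ∆ Q) = M ∪ (P ∪ Q) := by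
  ext x
  have hh : x ∈ P → x ∉ Q := fun hx => Finset.disjoint_left.mp h hx
  simp only [mem_union, mem_symmDiff]
  tauto

lemma card_inter_symm (M P Q : Finset (Fin n)) (h : Disjoint P Q) :
    ((M ∆ P) ∩ (M ∆ Q)).card + (M ∩ P).card + (M ∩ Q).card = M.card := by
  rw [inter_symm M P Q h]
  have h1 : M = (M \ (P ∪ Q)) ∪ ((M ∩ P) ∪ (M ∩ Q)) := by
    ext x; simp only [mem_inter, mem_sdiff, mem_union]; tauto
  have h2 : Disjoint (M \ (P ∪ Q)) ((M ∩ P) ∪ (M ∩ Q)) := by
    rw [Finset.disjoint_left]; intro x; simp only [mem_inter, mem_sdiff, mem_union]; tauto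
  have h3 : Disjoint (M ∩ P) (M ∩ Q) := by
    rw [Finset.disjoint_left]; intro x
    have hh : x ∈ P → x ∉ Q := fun hx => Finset.disjoint_left.mp h hx
    simp only [mem_inter]; tauto
  conv_rhs => rw [h1, Finset.card_union_of_disjoint h2, Finset.card_union_of_disjoint h3]
  ring

lemma card_union_symm (M P Q : Finset (Fin n)) (h : Disjoint P Q) :
    ((M ∆ P) ∪ (M ∆ Q)).card = M.card + (P \ M).card + (Q \ M).card := by
  rw [union_symm M P Q h]
  have h1 : M ∪ (P ∪ Q) = M ∪ ((P \ M) ∪ (Q \ M)) := by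
    ext x; simp only [mem_sdiff, mem_union]; tauto
  have h2 : Disjoint M ((P \ M) ∪ (Q \ M)) := by
    rw [Finset.disjoint_left]; intro x; simp only [mem_sdiff, mem_union]; tauto
  have h3 : Disjoint (P \ M) (Q \ M) := by
    rw [Finset.disjoint_left]; intro x
    have hh : x ∈ P → x ∉ Q := fun hx => Finset.disjoint_left.mp h hx
    simp only [mem_sdiff]; tauto
  rw [h1, Finset.card_union_of_disjoint h2, Finset.card_union_of_disjoint h3]
  ring

lemma card_symm_split (A B : Finset (Fin n)) : (A ∆ B).card + (A ∩ B).card = (A ∪ B).card := by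
  have h1 : A ∪ B = (A ∆ B) ∪ (A ∩ B) := by
    ext x; simp only [mem_symmDiff, mem_inter, mem_union]; tauto
  have h2 : Disjoint (A ∆ B) (A ∩ B) := by
    rw [Finset.disjoint_left]; intro x; simp only [mem_symmDiff, mem_inter]; tauto
  rw [h1, Finset.card_union_of_disjoint h2]

lemma card_symm_triangle (A B C : Finset (Fin n)) :
    (A ∆ C).card ≤ (A ∆ B).card + (B ∆ C).card := by
  refine (Finset.card_le_card ?_).trans (Finset.card_union_le _ _)
  intro x; simp only [mem_symmDiff, mem_union]; tauto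

/-- structure: a large family lies in a product family. -/
theorem struct (b t s : ℕ) (hb1 : 1 ≤ b) (F : Finset (Finset (Fin n)))
    (hF : ∀ A ∈ F, ∀ B ∈ F, t ≤ (A ∩ B).card ∧ (A ∪ B).card + s ≤ n)
    (hn : t + s + 2 * b = n) (A0 : Finset (Fin n)) 
    (hsun : HasSun b (3 * b + 1) (F.image (fun A => A ∆ A0))) :
    ∃ (M : Finset (Fin n)) (j : ℕ), M.card = t + 2 * j ∧ j ≤ b ∧
      ∀ B ∈ F, (M \ B).card ≤ j ∧ (B \ M).card ≤ b - j := by
  obtain ⟨K, P, hP1, hP2, hP3, hP4⟩ := hsun
  set M := K ∆ A0 with hM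
  have hdiam : ∀ A ∈ F, ∀ B ∈ F, (A ∆ B).card ≤ 2 * b := by
    intro A hA B hB
    have h1 := hF A hA B hB
    have h2 := card_symm_split A B
    omega
  have hAi : ∀ i, M ∆ P i ∈ F := by
    intro i
    obtain ⟨B, hB, hBe⟩ := Finset.mem_image.mp (hP4 i)
    have h1 : K ∪ P i = K ∆ P i := by
      ext x
      have hh : x ∈ K → x ∉ P i := fun hx => Finset.disjoint_left.mp (hP2 i) hx
      simp only [mem_symmDiff, mem_union]; tauto
    have h2 : M ∆ P i = B := by
      have h3 : (K ∆ P i) ∆ A0 = B := by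
        rw [← h1, ← hBe, symmDiff_assoc, symmDiff_self, symmDiff_bot]
      rw [← h3, hM, symmDiff_assoc, symmDiff_assoc, symmDiff_comm A0]
    rw [h2]; exact hB
  have hsplitP : ∀ Q : Finset (Fin n), (M ∩ Q).card + (Q \ M).card = Q.card := by
    intro Q
    rw [Finset.inter_comm, Finset.card_inter_add_card_sdiff]
  have hpair : ∀ i k, i ≠ k → (M ∩ P i).card + (M ∩ P k).card + t = M.card ∧
      (P i).card = b ∧ (P k).card = b := by
    intro i k hik
    have h1 := hF _ (hAi i) _ (hAi k)
    have h2 := card_inter_symm M (P i) (P k) (hP3 i k hik)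
    have h3 := card_union_symm M (P i) (P k) (hP3 i k hik)
    have h4 := hsplitP (P i)
    have h5 := hsplitP (P k)
    have h6 := hP1 i
    have h7 := hP1 k
    omega
  let i0 : Fin (3 * b + 1) := ⟨0, by omega⟩
  let i1 : Fin (3 * b + 1) := ⟨1, by omega⟩
  let i2 : Fin (3 * b + 1) := ⟨2, by omega⟩
  have h01 : i0 ≠ i1 := by intro h; have := congrArg Fin.val h; simp [i0, i1] at this
  have h02 : i0 ≠ i2 := by intro h; have := congrArg Fin.val h; simp [i0, i2] at this
  have h12 : i1 ≠ i2 := by intro h; have := congrArg Fin.val h; simp [i1, i2] at this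
  set j := (M ∩ P i0).card with hj
  have e01 := hpair i0 i1 h01
  have e02 := hpair i0 i2 h02
  have e12 := hpair i1 i2 h12
  have hMcard : M.card = t + 2 * j := by omega
  have hall : ∀ i, (M ∩ P i).card = j ∧ (P i).card = b := by
    intro i
    by_cases hi : i = i0
    · subst hi; exact ⟨rfl, e01.2.1⟩
    · have := hpair i i0 hi
      constructor
      · omega
      · exact this.2.1
  have hjb : j ≤ b := by
    have h4 := hsplitP (P i0)
    have := (hall i0).2
    omega
  refine ⟨M, j, hMcard, hjb, ?_⟩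
  intro B hB
  -- find a petal disjoint from `B ∆ M`
  set Y := M ∆ B with hY
  have hYcard : Y.card ≤ 3 * b := by
    have h1 := card_symm_triangle M (M ∆ P i0) B
    have h2 : M ∆ (M ∆ P i0) = P i0 := by rw [symmDiff_symmDiff_cancel_left]
    rw [h2, (hall i0).2, ← hY] at h1
    have h3 := hdiam _ (hAi i0) B hB
    omega
  have hex : ∃ i, Disjoint Y (P i) := by
    by_contra hcon
    push Not at hcon
    have h1 : ∑ i : Fin (3 * b + 1), 1 ≤ ∑ i : Fin (3 * b + 1), (Y ∩ P i).card := by
      refine Finset.sum_le_sum fun i _ => ?_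
      have := hcon i
      rw [Finset.disjoint_iff_inter_eq_empty] at this
      exact Finset.one_le_card.mpr (Finset.nonempty_iff_ne_empty.mpr this)
    have h2 : ∑ i : Fin (3 * b + 1), (Y ∩ P i).card = (univ.biUnion (fun i => Y ∩ P i)).card := by
      rw [Finset.card_biUnion]
      intro i _ k _ hik
      exact (hP3 i k hik).mono Finset.inter_subset_right Finset.inter_subset_right
    have h3 : (univ.biUnion (fun i => Y ∩ P i)).card ≤ Y.card := by
      refine Finset.card_le_card ?_
      intro x hx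
      obtain ⟨i, _, hi⟩ := Finset.mem_biUnion.mp hx
      exact Finset.mem_of_mem_inter_left hi
    simp at h1
    omega
  obtain ⟨i, hi⟩ := hex
  have hB' : M ∆ Y = B := by rw [hY, symmDiff_symmDiff_cancel_left]
  have h1 := hF _ hB _ (hAi i)
  have h2 := card_inter_symm M Y (P i) hi
  have h3 := card_union_symm M Y (P i) hi
  rw [hB'] at h2 h3
  have h4 := hsplitP (P i)
  have h5 := hall i
  have h6 : M ∩ Y = M \ B := by
    ext x; rw [hY]; simp only [mem_symmDiff, mem_inter, mem_sdiff]; tauto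
  have h7 : Y \ M = B \ M := by
    ext x; rw [hY]; simp only [mem_symmDiff, mem_sdiff]; tauto
  rw [h6] at h2
  rw [h7] at h3
  omega

end Pool.Agent.Helper838.BSW
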