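import Mathlib
import Pool.Agent.Helper838.BSWStruct

set_option autoImplicit false

namespace Pool.Agent.Helper838.BSW

open Finset
open scoped symmDiff Nat

/-- the conclusion of the Bang–Sharp–Winkler conjecture for one family size. -/
def Concl (n t s N : ℕ) : Prop :=
  ∃ q : ℕ, q ≤ n ∧
    ∃ G : Finset (Finset (Fin q)),
      (∀ A ∈ G, ∀ B ∈ G, t ≤ (A ∩ B).card) ∧
      ∃ H : Finset (Finset (Fin (n - q))),
        (∀ A ∈ H, ∀ B ∈ H, (A ∪ B).card + s ≤ n - q) ∧
        N ≤ G.card * H.card

/-- pull back a set along an equivalence of `Fin q` with the subtype of `M`. -/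
lemma pull_card {n q : ℕ} (M B : Finset (Fin n)) (e : Fin q ≃ {x // x ∈ M}) :
    (univ.filter (fun x : Fin q => (e x : Fin n) ∈ B)).card = (B ∩ M).card := by
  refine Finset.card_bij (fun x _ => (e x : Fin n)) ?_ ?_ ?_
  · intro x hx
    rw [Finset.mem_inter]
    exact ⟨(Finset.mem_filter.mp hx).2, (e x).2⟩
  · intro x _ y _ h
    exact e.injective (Subtype.ext h)
  · intro y hy
    obtain ⟨h1, h2⟩ := Finset.mem_inter.mp hy
    refine ⟨e.symm ⟨y, h2⟩, ?_, ?_⟩
    · rw [Finset.mem_filter]; simp [h1]
    · simp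

lemma pull_eq {n q : ℕ} (M B B' : Finset (Fin n)) (e : Fin q ≃ {x // x ∈ M})
    (h : (univ.filter (fun x : Fin q => (e x : Fin n) ∈ B)) =
      (univ.filter (fun x : Fin q => (e x : Fin n) ∈ B'))) : ∀ x ∈ M, (x ∈ B ↔ x ∈ B') := by
  intro x hx
  have h1 := Finset.ext_iff.mp h (e.symm ⟨x, hx⟩)
  simpa using h1

theorem concl_of_struct {n t s b j : ℕ} (F : Finset (Finset (Fin n))) (M : Finset (Fin n))
    (hn : t + s + 2 * b = n) (hM : M.card = t + 2 * j) (hj : j ≤ b)
    (h : ∀ B ∈ F, (M \ B).card ≤ j ∧ (B \ M).card ≤ b - j) : Concl n t s F.card := by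
  have hMn : M.card ≤ n := by simpa using Finset.card_le_univ M
  let e1 : Fin M.card ≃ {x // x ∈ M} := M.equivFin.symm
  have hMc : (Mᶜ).card = n - M.card := by rw [Finset.card_compl, Fintype.card_fin]
  let e2 : Fin (n - M.card) ≃ {x // x ∈ Mᶜ} := (Mᶜ.equivFinOfCardEq hMc).symm
  refine ⟨M.card, hMn, univ.filter (fun A : Finset (Fin M.card) => t + j ≤ A.card), ?_,
    univ.filter (fun A : Finset (Fin (n - M.card)) => A.card ≤ b - j), ?_, ?_⟩
  · intro A hA B hB
    have h1 := (Finset.mem_filter.mp hA).2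
    have h2 := (Finset.mem_filter.mp hB).2
    have h3 := Finset.card_union_add_card_inter A B
    have h4 : (A ∪ B).card ≤ M.card := by simpa using Finset.card_le_univ (A ∪ B)
    omega
  · intro A hA B hB
    have h1 := (Finset.mem_filter.mp hA).2
    have h2 := (Finset.mem_filter.mp hB).2
    have h3 := Finset.card_union_le A B
    omega
  · rw [← Finset.card_product]
    refine Finset.card_le_card_of_injOn
      (fun B => (univ.filter (fun x : Fin M.card => (e1 x : Fin n) ∈ B),
        univ.filter (fun x : Fin (n - M.card) => (e2 x : Fin n) ∈ B))) ?_ ?_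
    · intro B hB
      have hB' := h B hB
      have h5 : (M \ B).card + (B ∩ M).card = M.card := by
        rw [Finset.inter_comm, Finset.card_sdiff_add_card_inter]
      have h6 : B ∩ Mᶜ = B \ M := by
        ext x; simp only [mem_inter, mem_compl, mem_sdiff]
      simp only [Finset.coe_product, Set.mem_prod, Finset.mem_coe, Finset.mem_filter,
        Finset.mem_univ, true_and]
      rw [pull_card M B e1, pull_card Mᶜ B e2, h6]
      constructor
      · omega
      · exact hB'.2
    · intro B _ B' _ hBB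
      have h1 := pull_eq M B B' e1 (congrArg Prod.fst hBB)
      have h2 := pull_eq Mᶜ B B' e2 (congrArg Prod.snd hBB)
      ext x
      by_cases hx : x ∈ M
      · exact h1 x hx
      · exact h2 x (Finset.mem_compl.mpr hx)

lemma choose_big (b n L : ℕ) (hL : n + 2 * b ≤ 2 * L) :
    (n + 1) ^ b ≤ (L.choose b) * (b ! * 2 ^ b) := by
  have h1 : (L + 1 - b) ^ b ≤ b ! * L.choose b := by
    have h := Nat.pow_le_choose (α := ℚ) b L
    have hb : (0 : ℚ) < (b ! : ℚ) := by exact_mod_cast Nat.factorial_pos b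
    rw [div_le_iff₀ hb] at h
    have h2 : ((L + 1 - b : ℕ) : ℚ) ^ b ≤ (b ! : ℚ) * (L.choose b : ℚ) := by linarith
    exact_mod_cast h2
  have h3 : n + 1 ≤ 2 * (L + 1 - b) := by omega
  calc (n + 1) ^ b ≤ (2 * (L + 1 - b)) ^ b := Nat.pow_le_pow_left h3 b
    _ = 2 ^ b * (L + 1 - b) ^ b := by rw [Nat.mul_pow]
    _ ≤ 2 ^ b * (b ! * L.choose b) := Nat.mul_le_mul_left _ h1
    _ = _ := by ring

lemma concl_s (n t s b : ℕ) (hn : t + s + 2 * b = n) : Concl n t s ((n - t).choose b) := by
  refine ⟨t, by omega, {univ}, ?_, univ.filter (fun A : Finset (Fin (n - t)) => A.card ≤ b), ?_, ?_⟩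
  · intro A hA B hB
    rw [Finset.mem_singleton] at hA hB
    subst hA; subst hB; simp
  · intro A hA B hB
    have h1 := (Finset.mem_filter.mp hA).2
    have h2 := (Finset.mem_filter.mp hB).2
    have h3 := Finset.card_union_le A B
    omega
  · rw [Finset.card_singleton, one_mul]
    have : (powersetCard b (univ : Finset (Fin (n - t)))).card = (n - t).choose b := by
      rw [Finset.card_powersetCard, Finset.card_univ, Fintype.card_fin]
    rw [← this]
    refine Finset.card_le_card ?_
    intro A hA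
    rw [Finset.mem_filter]
    exact ⟨mem_univ _, (Finset.mem_powersetCard.mp hA).2.le⟩

lemma concl_t (n t s b : ℕ) (hn : t + s + 2 * b = n) : Concl n t s ((t + 2 * b).choose b) := by
  refine ⟨t + 2 * b, by omega, univ.filter (fun A : Finset (Fin (t + 2 * b)) => t + b ≤ A.card), ?_,
    {∅}, ?_, ?_⟩
  · intro A hA B hB
    have h1 := (Finset.mem_filter.mp hA).2
    have h2 := (Finset.mem_filter.mp hB).2
    have h3 := Finset.card_union_add_card_inter A B
    have h4 : (A ∪ B).card ≤ t + 2 * b := by simpa using Finset.card_le_univ (A ∪ B)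
    omega
  · intro A hA B hB
    rw [Finset.mem_singleton] at hA hB
    subst hA; subst hB; simp; omega
  · rw [Finset.card_singleton, mul_one]
    have : (powersetCard (t + b) (univ : Finset (Fin (t + 2 * b)))).card = (t + 2 * b).choose b := by
      rw [Finset.card_powersetCard, Finset.card_univ, Fintype.card_fin]
      have h1 : t + b ≤ t + 2 * b := by omega
      rw [← Nat.choose_symm h1]
      congr 1
      omega
    rw [← this]
    refine Finset.card_le_card ?_
    intro A hA
    rw [Finset.mem_filter]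
    exact ⟨mem_univ _, (Finset.mem_powersetCard.mp hA).2.ge⟩

lemma Concl.mono {n t s N N' : ℕ} (h : Concl n t s N) (hN : N' ≤ N) : Concl n t s N' := by
  obtain ⟨q, hq, G, hG, H, hH, hc⟩ := h
  exact ⟨q, hq, G, hG, H, hH, hN.trans hc⟩

theorem main (b : ℕ) : ∃ n₀ : ℕ, ∀ n t s : ℕ, n₀ ≤ n → t + s + 2 * b = n →
    ∀ F : Finset (Finset (Fin n)),
      (∀ A ∈ F, ∀ B ∈ F, t ≤ (A ∩ B).card ∧ (A ∪ B).card + s ≤ n) → Concl n t s F.card := by
  rcases Nat.eq_zero_or_pos b with hb | hb
  · subst hb
    refine ⟨0, fun n t s _ hn F hF => ?_⟩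
    refine (concl_s n t s 0 hn).mono ?_
    rw [Nat.choose_zero_right, Finset.card_le_one]
    intro A hA B hB
    have h1 := hF A hA B hB
    have h2 := card_symm_split A B
    have h3 : (A ∆ B).card = 0 := by omega
    rw [Finset.card_eq_zero] at h3
    exact symmDiff_eq_bot.mp h3
  · obtain ⟨b', rfl⟩ : ∃ b', b = b' + 1 := ⟨b - 1, by omega⟩
    obtain ⟨C, hC⟩ := sun_bound b' (3 * (b' + 1) + 1) (b' + 2)
    refine ⟨C * ((b' + 1)! * 2 ^ (b' + 1)), fun n t s hn0 hn F hF => ?_⟩
    rcases F.eq_empty_or_nonempty with rfl | ⟨A0, hA0⟩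
    · exact (concl_s n t s (b' + 1) hn).mono (by simp)
    by_cases hsun : HasSun (b' + 1) (3 * (b' + 1) + 1) (F.image (fun A => A ∆ A0))
    · obtain ⟨M, j, hM, hj, h⟩ := struct (b' + 1) t s hb F hF hn A0 hsun
      exact concl_of_struct F M hn hM hj h
    · have h1 : F.card = (F.image (fun A => A ∆ A0)).card := by
        rw [Finset.card_image_of_injective]
        exact symmDiff_left_injective A0
      have h2 := hC (Fin n) (F.image (fun A => A ∆ A0)) (by
        intro X hX
        obtain ⟨A, hA, rfl⟩ := Finset.mem_image.mp hX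
        have h1 := hF A hA A0 hA0
        have h2 := card_symm_split A A0
        omega) hsun
      rw [← h1, Fintype.card_fin] at h2
      -- compare with a product family
      have key : ∀ L, n + 2 * (b' + 1) ≤ 2 * L → F.card ≤ L.choose (b' + 1) := by
        intro L hL
        have h3 := choose_big (b' + 1) n L hL
        have h4 : 0 < (b' + 1)! * 2 ^ (b' + 1) := by positivity
        have h5 : F.card * ((b' + 1)! * 2 ^ (b' + 1)) ≤
            L.choose (b' + 1) * ((b' + 1)! * 2 ^ (b' + 1)) := by
          calc _ ≤ (C * (n + 1) ^ b') * ((b' + 1)! * 2 ^ (b' + 1)) := Nat.mul_le_mul_right _ h2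
            _ = (C * ((b' + 1)! * 2 ^ (b' + 1))) * (n + 1) ^ b' := by ring
            _ ≤ (n + 1) * (n + 1) ^ b' := Nat.mul_le_mul_right _ (by omega)
            _ = (n + 1) ^ (b' + 1) := by ring
            _ ≤ _ := h3
        exact Nat.le_of_mul_le_mul_right h5 h4
      rcases le_total t s with hts | hts
      · exact (concl_s n t s (b' + 1) hn).mono (key _ (by omega))
      · exact (concl_t n t s (b' + 1) hn).mono (key _ (by omega))

end Pool.Agent.Helper838.BSW
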