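import Mathlib

set_option autoImplicit false

namespace Pool.Agent.Helper838.BSW

open Finset

/-- partial sums of binomial coefficients. -/
def T (m i : ℕ) : ℕ := ∑ l ∈ range (i + 1), m.choose l

lemma T_zero (m : ℕ) : T m 0 = 1 := by simp [T]

lemma T_succ (m i : ℕ) : T m (i + 1) = T m i + m.choose (i + 1) := by
  unfold T; rw [Finset.sum_range_succ]

lemma T_pascal (m i : ℕ) : T (m + 1) (i + 1) = T m (i + 1) + T m i := by
  induction i with
  | zero => simp [T, Finset.sum_range_succ]; ring
  | succ i ih =>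
    rw [T_succ (m + 1) (i + 1), ih, T_succ m (i + 1), Nat.choose_succ_succ' m (i + 1)]
    rw [T_succ m i]; ring

lemma T_double (m i : ℕ) : 2 * T m i = T (m + 1) i + m.choose i := by
  cases i with
  | zero => simp [T_zero]
  | succ i => rw [T_pascal, T_succ]; ring

lemma T_pos (m i : ℕ) : 0 < T m i := by
  unfold T
  rw [Finset.sum_range_succ']
  simp

/-- the key inequality `(m - 2(r+1)) T_r(m) ≤ (r+1) C(m,r+1)`. -/
lemma T_key (m r : ℕ) : m * T m r ≤ (r + 1) * m.choose (r + 1) + 2 * (r + 1) * T m r := by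
  induction r with
  | zero => simp [T_zero]
  | succ r ih =>
    rw [T_succ]
    have h1 := Nat.choose_succ_right_eq m (r + 1)
    by_cases hm : r + 1 ≤ m
    · obtain ⟨d, rfl⟩ : ∃ d, m = r + 1 + d := ⟨m - (r + 1), by omega⟩
      rw [Nat.add_sub_cancel_left] at h1
      nlinarith [ih, h1, Nat.zero_le (T (r + 1 + d) r), Nat.zero_le ((r + 1 + d).choose (r + 1))]
    · have h2 : m.choose (r + 1) = 0 := Nat.choose_eq_zero_of_lt (by omega)
      have h3 : m.choose (r + 1 + 1) = 0 := Nat.choose_eq_zero_of_lt (by omega)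
      rw [h2] at ih ⊢
      rw [h3]
      nlinarith [ih, Nat.zero_le (T m r)]

lemma choose_mono_half (m k : ℕ) (hk : 2 * k ≤ m) : ∀ d, m.choose (k - d) ≤ m.choose k := by
  intro d
  induction d with
  | zero => simp
  | succ d ih =>
    by_cases hd : d < k
    · refine le_trans ?_ ih
      have h1 : k - d = (k - (d + 1)) + 1 := by omega
      rw [h1]
      exact Nat.choose_le_succ_of_lt_half_left (by omega)
    · have : k - (d + 1) = k - d := by omega
      rw [this]; exact ih

lemma T_le (m k : ℕ) (hk : 2 * k ≤ m) : T m k ≤ (k + 1) * m.choose k := by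
  unfold T
  calc _ ≤ ∑ _l ∈ range (k + 1), m.choose k := by
        refine Finset.sum_le_sum fun l hl => ?_
        have hl' : l ≤ k := Nat.lt_succ_iff.mp (Finset.mem_range.mp hl)
        have h := choose_mono_half m k hk (k - l)
        rwa [show k - (k - l) = l by omega] at h
    _ = _ := by simp

/-- comparison of the mixed family with the two neighbouring products; `μ = a + 1`, `w = z + 1`. -/
theorem mix (a z j k : ℕ) (ha : 1 ≤ a) :
    T (a + 1) (j + 1) * T (z + 1) k + T a j * (z + 1).choose (k + 1) ≤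
        T (a + 1) (j + 1) * (T (z + 1) k + z.choose k) ∨
    T (a + 1) (j + 1) * T (z + 1) k + T a j * (z + 1).choose (k + 1) ≤
        T (a - 1) j * (T (z + 1 + 2) (k + 1) + (z + 1 + 1).choose (k + 1)) := by
  set w := z + 1 with hw
  obtain ⟨a', rfl⟩ : ∃ a', a = a' + 1 := ⟨a - 1, by omega⟩
  rw [Nat.add_sub_cancel]
  have hα : T (a' + 1 + 1) (j + 1) = (a' + 1).choose (j + 1) + 2 * T (a' + 1) j := by
    rw [T_pascal, T_succ]; ring
  have hA' : 2 * T a' j = T (a' + 1) j + a'.choose j := T_double a' j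
  have hP : T (w + 2) (k + 1) + (w + 1).choose (k + 1) = 2 * (w.choose (k + 1) + 2 * T w k) := by
    rw [← T_double (w + 1) (k + 1), T_pascal, T_succ]; ring
  have hch1 : (a' + 1) * a'.choose j = (a' + 1).choose (j + 1) * (j + 1) :=
    Nat.add_one_mul_choose_eq a' j
  have hch2 : (z + 1) * z.choose k = (z + 1).choose (k + 1) * (k + 1) :=
    Nat.add_one_mul_choose_eq z k
  rcases le_total (w * (j + 1)) ((a' + 1) * (k + 1)) with h | h
  · left
    -- w γ ≤ l C(a,j) + 2 l γ
    have hk1 := T_key (a' + 1) j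
    set γ := T (a' + 1) j
    set c := (a' + 1).choose (j + 1)
    have h1 : (j + 1) * (w * γ) ≤ (j + 1) * ((k + 1) * c + 2 * (k + 1) * γ) := by
      calc (j + 1) * (w * γ) = (w * (j + 1)) * γ := by ring
        _ ≤ ((a' + 1) * (k + 1)) * γ := Nat.mul_le_mul_right _ h
        _ = (k + 1) * ((a' + 1) * γ) := by ring
        _ ≤ (k + 1) * ((j + 1) * c + 2 * (j + 1) * γ) := Nat.mul_le_mul_left _ hk1
        _ = _ := by ring
    have h2 : w * γ ≤ (k + 1) * c + 2 * (k + 1) * γ := Nat.le_of_mul_le_mul_left h1 (Nat.succ_pos j)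
    have h3 : (k + 1) * (γ * w.choose (k + 1)) ≤ (k + 1) * ((c + 2 * γ) * z.choose k) := by
      calc (k + 1) * (γ * w.choose (k + 1)) = γ * ((z + 1).choose (k + 1) * (k + 1)) := by
            rw [hw]; ring
        _ = γ * ((z + 1) * z.choose k) := by rw [hch2]
        _ = (w * γ) * z.choose k := by rw [hw]; ring
        _ ≤ ((k + 1) * c + 2 * (k + 1) * γ) * z.choose k := Nat.mul_le_mul_right _ h2
        _ = _ := by ring
    have h4 := Nat.le_of_mul_le_mul_left h3 (Nat.succ_pos k)
    rw [hα, Nat.mul_add]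
    exact Nat.add_le_add_left h4 _
  · right
    have hk2 := T_key w k
    set τ := T w k
    set c := w.choose (k + 1)
    have h1 : (k + 1) * ((a' + 1) * τ) ≤ (k + 1) * ((j + 1) * c + 2 * (j + 1) * τ) := by
      calc (k + 1) * ((a' + 1) * τ) = ((a' + 1) * (k + 1)) * τ := by ring
        _ ≤ (w * (j + 1)) * τ := Nat.mul_le_mul_right _ h
        _ = (j + 1) * (w * τ) := by ring
        _ ≤ (j + 1) * ((k + 1) * c + 2 * (k + 1) * τ) := Nat.mul_le_mul_left _ hk2
        _ = _ := by ring
    have h2 := Nat.le_of_mul_le_mul_left h1 (Nat.succ_pos k)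
    have h3 : (j + 1) * ((a' + 1).choose (j + 1) * τ) ≤
        (j + 1) * (a'.choose j * (c + 2 * τ)) := by
      calc (j + 1) * ((a' + 1).choose (j + 1) * τ) =
            ((a' + 1).choose (j + 1) * (j + 1)) * τ := by ring
        _ = ((a' + 1) * a'.choose j) * τ := by rw [hch1]
        _ = a'.choose j * ((a' + 1) * τ) := by ring
        _ ≤ a'.choose j * ((j + 1) * c + 2 * (j + 1) * τ) := Nat.mul_le_mul_left _ h2
        _ = _ := by ring
    have h4 := Nat.le_of_mul_le_mul_left h3 (Nat.succ_pos j)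
    rw [hα, hP]
    calc ((a' + 1).choose (j + 1) + 2 * T (a' + 1) j) * τ + T (a' + 1) j * c
        = (a' + 1).choose (j + 1) * τ + T (a' + 1) j * (c + 2 * τ) := by ring
      _ ≤ a'.choose j * (c + 2 * τ) + T (a' + 1) j * (c + 2 * τ) := Nat.add_le_add_right h4 _
      _ = (2 * T a' j) * (c + 2 * τ) := by rw [hA']; ring
      _ = _ := by ring

end Pool.Agent.Helper838.BSW
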