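import Mathlib
import Pool.Agent.Helper838.BSWMain
import Pool.Agent.Helper838.BSWNum

set_option autoImplicit false

namespace Pool.Agent.Helper838.BSW

open Finset
open scoped symmDiff Nat

lemma card_small {α : Type} [DecidableEq α] (S : Finset α) (j : ℕ) :
    (S.powerset.filter (fun A => A.card ≤ j)).card = T S.card j := by
  unfold T
  rw [Finset.card_eq_sum_card_fiberwise (f := Finset.card) (t := range (j + 1))]
  · refine Finset.sum_congr rfl fun l hl => ?_
    rw [← Finset.card_powersetCard]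
    congr 1
    ext A
    have hl' : l ≤ j := Nat.lt_succ_iff.mp (Finset.mem_range.mp hl)
    simp only [mem_filter, mem_powerset, mem_powersetCard]
    constructor
    · rintro ⟨⟨h1, _⟩, h3⟩; exact ⟨h1, h3⟩
    · rintro ⟨h1, h3⟩; exact ⟨⟨h1, by omega⟩, h3⟩
  · intro A hA
    have := (Finset.mem_filter.mp hA).2
    simp only [Finset.coe_range, Set.mem_Iio]
    omega

theorem concl_of_M {n t s : ℕ} (F : Finset (Finset (Fin n))) (M : Finset (Fin n))
    (h : ∀ B ∈ F, ∀ B' ∈ F, t ≤ ((B ∩ B') ∩ M).card ∧ ((B ∪ B') ∩ Mᶜ).card + s ≤ n - M.card) :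
    Concl n t s F.card := by
  have hMn : M.card ≤ n := by simpa using Finset.card_le_univ M
  let e1 : Fin M.card ≃ {x // x ∈ M} := M.equivFin.symm
  have hMc : (Mᶜ).card = n - M.card := by rw [Finset.card_compl, Fintype.card_fin]
  let e2 : Fin (n - M.card) ≃ {x // x ∈ Mᶜ} := (Mᶜ.equivFinOfCardEq hMc).symm
  refine ⟨M.card, hMn, F.image (fun B => univ.filter (fun x : Fin M.card => (e1 x : Fin n) ∈ B)), ?_,
    F.image (fun B => univ.filter (fun x : Fin (n - M.card) => (e2 x : Fin n) ∈ B)), ?_, ?_⟩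
  · intro A hA A' hA'
    obtain ⟨B, hB, rfl⟩ := Finset.mem_image.mp hA
    obtain ⟨B', hB', rfl⟩ := Finset.mem_image.mp hA'
    have h1 := (h B hB B' hB').1
    rw [← pull_card M (B ∩ B') e1] at h1
    have h2 : (univ.filter (fun x : Fin M.card => (e1 x : Fin n) ∈ B)) ∩
        (univ.filter (fun x : Fin M.card => (e1 x : Fin n) ∈ B')) =
        univ.filter (fun x : Fin M.card => (e1 x : Fin n) ∈ B ∩ B') := by
      ext x; simp
    rw [h2]; exact h1
  · intro A hA A' hA'
    obtain ⟨B, hB, rfl⟩ := Finset.mem_image.mp hA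
    obtain ⟨B', hB', rfl⟩ := Finset.mem_image.mp hA'
    have h1 := (h B hB B' hB').2
    rw [← pull_card Mᶜ (B ∪ B') e2] at h1
    have h2 : (univ.filter (fun x : Fin (n - M.card) => (e2 x : Fin n) ∈ B)) ∪
        (univ.filter (fun x : Fin (n - M.card) => (e2 x : Fin n) ∈ B')) =
        univ.filter (fun x : Fin (n - M.card) => (e2 x : Fin n) ∈ B ∪ B') := by
      ext x; simp
    rw [h2]; exact h1
  · rw [← Finset.card_product]
    refine Finset.card_le_card_of_injOn
      (fun B => (univ.filter (fun x : Fin M.card => (e1 x : Fin n) ∈ B),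
        univ.filter (fun x : Fin (n - M.card) => (e2 x : Fin n) ∈ B))) ?_ ?_
    · intro B hB
      simp only [Finset.coe_product, Set.mem_prod, Finset.mem_coe]
      exact ⟨Finset.mem_image_of_mem _ hB, Finset.mem_image_of_mem _ hB⟩
    · intro B _ B' _ hBB
      have h1 := pull_eq M B B' e1 (congrArg Prod.fst hBB)
      have h2 := pull_eq Mᶜ B B' e2 (congrArg Prod.snd hBB)
      ext x
      by_cases hx : x ∈ M
      · exact h1 x hx
      · exact h2 x (Finset.mem_compl.mpr hx)

theorem concl_prod (n t s j k : ℕ) (hn : t + s + 2 * (j + k) + 1 = n) :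
    Concl n t s (T (t + 2 * j) j * (T (s + 2 * k + 1) k + (s + 2 * k).choose k)) := by
  have hw : n - (t + 2 * j) = s + 2 * k + 1 := by omega
  have hpos : 0 < n - (t + 2 * j) := by omega
  let x0 : Fin (n - (t + 2 * j)) := ⟨0, hpos⟩
  refine ⟨t + 2 * j, by omega,
    ((univ : Finset (Fin (t + 2 * j))).powerset.filter (fun A => A.card ≤ j)).image compl, ?_,
    ((univ : Finset (Fin (n - (t + 2 * j)))).powerset.filter (fun A => A.card ≤ k)) ∪
      (powersetCard k ((univ : Finset (Fin (n - (t + 2 * j)))).erase x0)).image (insert x0), ?_, ?_⟩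
  · intro A hA B hB
    obtain ⟨A', hA', rfl⟩ := Finset.mem_image.mp hA
    obtain ⟨B', hB', rfl⟩ := Finset.mem_image.mp hB
    have h1 := (Finset.mem_filter.mp hA').2
    have h2 := (Finset.mem_filter.mp hB').2
    rw [← Finset.compl_union, Finset.card_compl, Fintype.card_fin]
    have := Finset.card_union_le A' B'
    omega
  · have hH : ∀ A ∈ ((univ : Finset (Fin (n - (t + 2 * j)))).powerset.filter (fun A => A.card ≤ k)) ∪
      (powersetCard k ((univ : Finset (Fin (n - (t + 2 * j)))).erase x0)).image (insert x0),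
        A.card ≤ k ∨ (A.card ≤ k + 1 ∧ x0 ∈ A) := by
      intro A hA
      rcases Finset.mem_union.mp hA with h | h
      · left; exact (Finset.mem_filter.mp h).2
      · right
        obtain ⟨A', hA', rfl⟩ := Finset.mem_image.mp h
        have h1 := (Finset.mem_powersetCard.mp hA').2
        refine ⟨?_, Finset.mem_insert_self _ _⟩
        have := Finset.card_insert_le x0 A'
        omega
    intro A hA B hB
    have h1 := hH A hA
    have h2 := hH B hB
    have h3 := Finset.card_union_add_card_inter A B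
    rcases h1 with h1 | h1
    · rcases h2 with h2 | h2 <;> omega
    · rcases h2 with h2 | h2
      · omega
      · have h4 : 1 ≤ (A ∩ B).card :=
          Finset.card_pos.mpr ⟨x0, Finset.mem_inter.mpr ⟨h1.2, h2.2⟩⟩
        omega
  · have hG : (((univ : Finset (Fin (t + 2 * j))).powerset.filter (fun A => A.card ≤ j)).image
        compl).card = T (t + 2 * j) j := by
      rw [Finset.card_image_of_injective _ compl_injective, card_small, Finset.card_univ,
        Fintype.card_fin]
    have hd : Disjoint ((univ : Finset (Fin (n - (t + 2 * j)))).powerset.filter (fun A => A.card ≤ k))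
      ((powersetCard k ((univ : Finset (Fin (n - (t + 2 * j)))).erase x0)).image (insert x0)) := by
      rw [Finset.disjoint_left]
      intro A hA hA2
      obtain ⟨A', hA', rfl⟩ := Finset.mem_image.mp hA2
      have h1 := (Finset.mem_filter.mp hA).2
      obtain ⟨h2, h3⟩ := Finset.mem_powersetCard.mp hA'
      have h4 : x0 ∉ A' := fun h => Finset.notMem_erase x0 univ (h2 h)
      rw [Finset.card_insert_of_notMem h4] at h1
      omega
    have hinj : Set.InjOn (insert x0 : Finset (Fin (n - (t + 2 * j))) → _)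
        (powersetCard k ((univ : Finset (Fin (n - (t + 2 * j)))).erase x0)) := by
      intro A hA B hB hAB
      have h1 : x0 ∉ A := fun h =>
        Finset.notMem_erase x0 univ ((Finset.mem_powersetCard.mp hA).1 h)
      have h2 : x0 ∉ B := fun h =>
        Finset.notMem_erase x0 univ ((Finset.mem_powersetCard.mp hB).1 h)
      rw [← Finset.erase_insert h1, hAB, Finset.erase_insert h2]
    rw [hG, Finset.card_union_of_disjoint hd, card_small, Finset.card_image_of_injOn hinj,
      Finset.card_powersetCard, Finset.card_erase_of_mem (mem_univ _), Finset.card_univ,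
      Fintype.card_fin, hw]
    simp

/-- intersecting families without a common point are small. -/
theorem inter_dich {α : Type} [DecidableEq α] [Fintype α] (b : ℕ) (Y : Finset (Finset α))
    (hcard : ∀ A ∈ Y, A.card ≤ b + 2) (hint : ∀ A ∈ Y, ∀ B ∈ Y, ¬ Disjoint A B) :
    (∃ x, ∀ A ∈ Y, x ∈ A) ∨ Y = ∅ ∨
      Y.card ≤ (b + 2) * ((b + 2) * ((b + 1) * (Fintype.card α + 1) ^ b)) := by
  by_cases hx : ∃ x, ∀ A ∈ Y, x ∈ A
  · left; exact hx
  right
  rcases Y.eq_empty_or_nonempty with h0 | ⟨Y0, hY0⟩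
  · left; exact h0
  right
  push Not at hx
  choose Z hZ1 hZ2 using hx
  have hsub : Y ⊆ Y0.biUnion (fun x => (Z x).biUnion (fun x' =>
      Y.filter (fun A => x ∈ A ∧ x' ∈ A ∧ x ≠ x'))) := by
    intro A hA
    obtain ⟨x, hx1, hx2⟩ := Finset.not_disjoint_iff.mp (hint Y0 hY0 A hA)
    obtain ⟨x', hx3, hx4⟩ := Finset.not_disjoint_iff.mp (hint (Z x) (hZ1 x) A hA)
    rw [Finset.mem_biUnion]
    refine ⟨x, hx1, ?_⟩
    rw [Finset.mem_biUnion]
    refine ⟨x', hx3, ?_⟩
    rw [Finset.mem_filter]
    refine ⟨hA, hx2, hx4, ?_⟩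
    rintro rfl
    exact hZ2 _ hx3
  have hfib : ∀ x x' : α, (Y.filter (fun A => x ∈ A ∧ x' ∈ A ∧ x ≠ x')).card ≤
      (b + 1) * (Fintype.card α + 1) ^ b := by
    intro x x'
    have hinj : Set.InjOn (fun A : Finset α => (A.erase x).erase x')
        (Y.filter (fun A => x ∈ A ∧ x' ∈ A ∧ x ≠ x')) := by
      intro A hA B hB hAB
      obtain ⟨_, hA1, hA2, hne⟩ := Finset.mem_filter.mp hA
      obtain ⟨_, hB1, hB2, _⟩ := Finset.mem_filter.mp hB
      simp only at hAB
      have h1 : x' ∈ A.erase x := Finset.mem_erase.mpr ⟨hne.symm, hA2⟩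
      have h2 : x' ∈ B.erase x := Finset.mem_erase.mpr ⟨hne.symm, hB2⟩
      have h3 : A.erase x = B.erase x := by
        rw [← Finset.insert_erase h1, hAB, Finset.insert_erase h2]
      rw [← Finset.insert_erase hA1, h3, Finset.insert_erase hB1]
    rw [← Finset.card_image_of_injOn hinj]
    refine small_count b _ ?_
    intro A hA
    obtain ⟨B, hB, rfl⟩ := Finset.mem_image.mp hA
    obtain ⟨hBY, hB1, hB2, hne⟩ := Finset.mem_filter.mp hB
    have h1 : x' ∈ B.erase x := Finset.mem_erase.mpr ⟨hne.symm, hB2⟩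
    rw [Finset.card_erase_of_mem h1, Finset.card_erase_of_mem hB1]
    have := hcard B hBY
    omega
  calc Y.card ≤ _ := Finset.card_le_card hsub
    _ ≤ ∑ x ∈ Y0, ((Z x).biUnion (fun x' =>
      Y.filter (fun A => x ∈ A ∧ x' ∈ A ∧ x ≠ x'))).card := Finset.card_biUnion_le
    _ ≤ ∑ x ∈ Y0, (b + 2) * ((b + 1) * (Fintype.card α + 1) ^ b) := by
        refine Finset.sum_le_sum fun x _ => ?_
        calc _ ≤ ∑ x' ∈ Z x, (Y.filter (fun A => x ∈ A ∧ x' ∈ A ∧ x ≠ x')).card :=
              Finset.card_biUnion_le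
          _ ≤ ∑ x' ∈ Z x, (b + 1) * (Fintype.card α + 1) ^ b := Finset.sum_le_sum fun x' _ => hfib x x'
          _ = (Z x).card * ((b + 1) * (Fintype.card α + 1) ^ b) := by simp
          _ ≤ _ := Nat.mul_le_mul_right _ (hcard _ (hZ1 x))
    _ = Y0.card * ((b + 2) * ((b + 1) * (Fintype.card α + 1) ^ b)) := by simp
    _ ≤ _ := Nat.mul_le_mul_right _ (hcard _ hY0)

end Pool.Agent.Helper838.BSW
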