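import Mathlib
import Pool.Agent.Helper838.BSWOddA

set_option autoImplicit false

namespace Pool.Agent.Helper838.BSW

open Finset
open scoped symmDiff Nat

variable {n : ℕ}

/-- structure in odd codimension. -/
theorem structOdd (b t s : ℕ) (F : Finset (Finset (Fin n)))
    (hF : ∀ A ∈ F, ∀ B ∈ F, t ≤ (A ∩ B).card ∧ (A ∪ B).card + s ≤ n)
    (hn : t + s + 2 * b + 1 = n) (A0 : Finset (Fin n))
    (hsun : HasSun b ((b + 2) * (b + 2) * (3 * b + 2) + 1) (F.image (fun A => A ∆ A0))) :
    ∃ (M : Finset (Fin n)) (j : ℕ), j ≤ b ∧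
      ((M.card = t + 2 * j ∧ ∀ B ∈ F, (M \ B).card ≤ j ∧ (B \ M).card ≤ (b - j) + 1) ∨
       (M.card = t + 2 * j + 1 ∧ ∀ B ∈ F, (M \ B).card ≤ j + 1 ∧ (B \ M).card ≤ b - j)) := by
  obtain ⟨K, P, hP1, hP2, hP3, hP4⟩ := hsun
  set M := K ∆ A0 with hM
  have hdiam : ∀ A ∈ F, ∀ B ∈ F, (A ∆ B).card ≤ 2 * b + 1 := by
    intro A hA B hB
    have h1 := hF A hA B hB
    have h2 := card_symm_split A B
    omega
  have hAi : ∀ i, M ∆ P i ∈ F := by
    intro i
    obtain ⟨B, hB, hBe⟩ := Finset.mem_image.mp (hP4 i)
    have h1 : K ∪ P i = K ∆ P i := by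
      ext x
      have hh : x ∈ K → x ∉ P i := fun hx => Finset.disjoint_left.mp (hP2 i) hx
      simp only [mem_symmDiff, mem_union]; tauto
    have h2 : M ∆ P i = B := by
      have h3 : (K ∆ P i) ∆ A0 = B := by
        rw [← h1, ← hBe, symmDiff_assoc, symmDiff_self, symmDiff_bot]
      rw [← h3, hM, symmDiff_assoc, symmDiff_assoc, symmDiff_comm A0]
    rw [h2]; exact hB
  have hsplitP : ∀ Q : Finset (Fin n), (M ∩ Q).card + (Q \ M).card = Q.card := by
    intro Q
    rw [Finset.inter_comm, Finset.card_inter_add_card_sdiff]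
  have hpair : ∀ i k, i ≠ k → (M ∩ P i).card + (M ∩ P k).card + t ≤ M.card ∧
      M.card ≤ (M ∩ P i).card + (M ∩ P k).card + t + 1 + 2 * b - (P i).card - (P k).card ∧
      (P i).card + (P k).card ≤ 2 * b + 1 := by
    intro i k hik
    have h1 := hF _ (hAi i) _ (hAi k)
    have h2 := card_inter_symm M (P i) (P k) (hP3 i k hik)
    have h3 := card_union_symm M (P i) (P k) (hP3 i k hik)
    have h4 := hsplitP (P i)
    have h5 := hsplitP (P k)
    have h6 := hP1 i
    have h7 := hP1 k
    omega
  have hm2 : 1 < (b + 2) * (b + 2) * (3 * b + 2) + 1 := by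
    have : 0 < (b + 2) * (b + 2) * (3 * b + 2) := by positivity
    omega
  have hPle : ∀ i, (P i).card ≤ b + 1 := by
    intro i
    have hex : ∃ k, i ≠ k := by
      by_cases h0 : i = ⟨0, by omega⟩
      · refine ⟨⟨1, hm2⟩, ?_⟩
        rw [h0]; intro h; have := congrArg Fin.val h; simp at this
      · exact ⟨_, h0⟩
    obtain ⟨k, hk⟩ := hex
    have h1 := hpair i k hk
    have h2 := hP1 k
    omega
  -- pigeonhole
  obtain ⟨y, _, hy⟩ := Finset.exists_lt_card_fiber_of_mul_lt_card_of_maps_to
    (s := (univ : Finset (Fin ((b + 2) * (b + 2) * (3 * b + 2) + 1))))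
    (t := (range (b + 2)) ×ˢ (range (b + 2)))
    (f := fun i => ((P i).card, (M ∩ P i).card)) (n := 3 * b + 2)
    (by
      intro i _
      rw [Finset.mem_product, Finset.mem_range, Finset.mem_range]
      have h1 := hPle i
      have h2 := hsplitP (P i)
      constructor
      · simp only; omega
      · simp only; omega)
    (by
      rw [Finset.card_product, Finset.card_range, Finset.card_univ, Fintype.card_fin]
      omega)
  obtain ⟨β, j⟩ := y
  set I := univ.filter (fun i => ((P i).card, (M ∩ P i).card) = (β, j)) with hI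
  have hI2 : ∀ i ∈ I, (P i).card = β ∧ (M ∩ P i).card = j := by
    intro i hi
    have := (Finset.mem_filter.mp hi).2
    exact ⟨congrArg Prod.fst this, congrArg Prod.snd this⟩
  obtain ⟨i0, hi0, i1, hi1, h01⟩ := Finset.one_lt_card.mp (show 1 < I.card by omega)
  have e0 := hI2 i0 hi0
  have e1 := hI2 i1 hi1
  have e01 := hpair i0 i1 h01
  have g0 := hP1 i0
  have hβ : β = b := by omega
  subst hβ
  have hs0 := hsplitP (P i0)
  have hj : j ≤ β := by omega
  have hB : ∀ B ∈ F, (M \ B).card + t + j ≤ M.card ∧
      M.card + (B \ M).card ≤ t + β + j + 1 := by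
    intro B hB
    set Y := M ∆ B with hY
    have hYcard : Y.card ≤ 3 * β + 1 := by
      have h1 := card_symm_triangle M (M ∆ P i0) B
      have h2 : M ∆ (M ∆ P i0) = P i0 := by rw [symmDiff_symmDiff_cancel_left]
      rw [h2, e0.1, ← hY] at h1
      have h3 := hdiam _ (hAi i0) B hB
      omega
    have hex : ∃ i ∈ I, Disjoint Y (P i) := by
      by_contra hcon
      push Not at hcon
      have h1 : ∑ i ∈ I, 1 ≤ ∑ i ∈ I, (Y ∩ P i).card := by
        refine Finset.sum_le_sum fun i hi => ?_
        have := hcon i hi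
        rw [Finset.disjoint_iff_inter_eq_empty] at this
        exact Finset.one_le_card.mpr (Finset.nonempty_iff_ne_empty.mpr this)
      have h2 : ∑ i ∈ I, (Y ∩ P i).card = (I.biUnion (fun i => Y ∩ P i)).card := by
        rw [Finset.card_biUnion]
        intro i _ k _ hik
        exact (hP3 i k hik).mono Finset.inter_subset_right Finset.inter_subset_right
      have h3 : (I.biUnion (fun i => Y ∩ P i)).card ≤ Y.card := by
        refine Finset.card_le_card ?_
        intro x hx
        obtain ⟨i, _, hi⟩ := Finset.mem_biUnion.mp hx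
        exact Finset.mem_of_mem_inter_left hi
      rw [Finset.sum_const, smul_eq_mul, mul_one] at h1
      omega
    obtain ⟨i, hiI, hi⟩ := hex
    have hB' : M ∆ Y = B := by rw [hY, symmDiff_symmDiff_cancel_left]
    have h1 := hF _ hB _ (hAi i)
    have h2 := card_inter_symm M Y (P i) hi
    have h3 := card_union_symm M Y (P i) hi
    rw [hB'] at h2 h3
    have h4 := hsplitP (P i)
    have h5 := hI2 i hiI
    have h6 : M ∩ Y = M \ B := by
      ext x; rw [hY]; simp only [mem_symmDiff, mem_inter, mem_sdiff]; tauto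
    have h7 : Y \ M = B \ M := by
      ext x; rw [hY]; simp only [mem_symmDiff, mem_sdiff]; tauto
    rw [h6] at h2
    rw [h7] at h3
    omega
  refine ⟨M, j, hj, ?_⟩
  have hcase : M.card = t + 2 * j ∨ M.card = t + 2 * j + 1 := by omega
  rcases hcase with hc | hc
  · left
    refine ⟨hc, fun B hB' => ?_⟩
    have := hB B hB'
    omega
  · right
    refine ⟨hc, fun B hB' => ?_⟩
    have := hB B hB'
    omega

lemma concl_s' (n t s b : ℕ) (hn : t + s + 2 * b ≤ n) : Concl n t s ((n - t).choose b) := by
  refine ⟨t, by omega, {univ}, ?_, univ.filter (fun A : Finset (Fin (n - t)) => A.card ≤ b), ?_, ?_⟩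
  · intro A hA B hB
    rw [Finset.mem_singleton] at hA hB
    subst hA; subst hB; simp
  · intro A hA B hB
    have h1 := (Finset.mem_filter.mp hA).2
    have h2 := (Finset.mem_filter.mp hB).2
    have h3 := Finset.card_union_le A B
    omega
  · rw [Finset.card_singleton, one_mul]
    have : (powersetCard b (univ : Finset (Fin (n - t)))).card = (n - t).choose b := by
      rw [Finset.card_powersetCard, Finset.card_univ, Fintype.card_fin]
    rw [← this]
    refine Finset.card_le_card ?_
    intro A hA
    rw [Finset.mem_filter]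
    exact ⟨mem_univ _, (Finset.mem_powersetCard.mp hA).2.le⟩

/-- exchanging the two conditions by complementation. -/
theorem concl_compl {n t s N : ℕ} (h : Concl n s t N) : Concl n t s N := by
  obtain ⟨q, hq, G, hG, H, hH, hc⟩ := h
  have key : ∀ r : ℕ, r = q → ∃ H' : Finset (Finset (Fin r)),
      (∀ A ∈ H', ∀ B ∈ H', (A ∪ B).card + s ≤ r) ∧ H'.card = G.card := by
    rintro r rfl
    refine ⟨G.image compl, ?_, Finset.card_image_of_injective _ compl_injective⟩
    intro A hA B hB
    obtain ⟨A', hA', rfl⟩ := Finset.mem_image.mp hA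
    obtain ⟨B', hB', rfl⟩ := Finset.mem_image.mp hB
    have h1 := hG A' hA' B' hB'
    rw [← Finset.compl_inter, Finset.card_compl, Fintype.card_fin]
    have h2 : (A' ∩ B').card ≤ r := by simpa using Finset.card_le_univ (A' ∩ B')
    omega
  obtain ⟨H', hH', hc'⟩ := key (n - (n - q)) (by omega)
  refine ⟨n - q, by omega, H.image compl, ?_, H', hH', ?_⟩
  · intro A hA B hB
    obtain ⟨A', hA', rfl⟩ := Finset.mem_image.mp hA
    obtain ⟨B', hB', rfl⟩ := Finset.mem_image.mp hB
    have h1 := hH A' hA' B' hB'
    rw [← Finset.compl_union, Finset.card_compl, Fintype.card_fin]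
    omega
  · rw [hc', Finset.card_image_of_injective _ compl_injective]
    rw [mul_comm]; exact hc

theorem card_compl_fam {n t s : ℕ} (F : Finset (Finset (Fin n)))
    (hF : ∀ A ∈ F, ∀ B ∈ F, t ≤ (A ∩ B).card ∧ (A ∪ B).card + s ≤ n) :
    ∀ A ∈ F.image compl, ∀ B ∈ F.image compl, s ≤ (A ∩ B).card ∧ (A ∪ B).card + t ≤ n := by
  intro A hA B hB
  obtain ⟨A', hA', rfl⟩ := Finset.mem_image.mp hA
  obtain ⟨B', hB', rfl⟩ := Finset.mem_image.mp hB
  have h1 := hF A' hA' B' hB'
  rw [← Finset.compl_union, ← Finset.compl_inter, Finset.card_compl, Finset.card_compl,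
    Fintype.card_fin]
  have h2 : (A' ∩ B').card ≤ n := by simpa using Finset.card_le_univ (A' ∩ B')
  omega

/-- the constant of the non-structured cases. -/
def C3 (b : ℕ) : ℕ := (2 * b + 5) * ((b + 2) * ((b + 2) * (b + 1)))

theorem case1 (b t s j k : ℕ) (hb : j + k = b + 1) (hn : t + s + 2 * (b + 1) + 1 = n)
    (F : Finset (Finset (Fin n)))
    (hF : ∀ A ∈ F, ∀ B ∈ F, t ≤ (A ∩ B).card ∧ (A ∪ B).card + s ≤ n)
    (M : Finset (Fin n)) (hM : M.card = t + 2 * j)
    (h : ∀ B ∈ F, (M \ B).card ≤ j ∧ (B \ M).card ≤ k + 1)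
    (hlarge : ∀ N, N ≤ C3 b * (n + 1) ^ b → Concl n t s N) : Concl n t s F.card := by
  have hW : (Mᶜ).card = s + 2 * k + 1 := by
    rw [Finset.card_compl, Fintype.card_fin]; omega
  set F1 := F.filter (fun B => (B \ M).card = k + 1) with hF1
  set F0 := F.filter (fun B => ¬ (B \ M).card = k + 1) with hF0
  have hsplit : F.card = F1.card + F0.card :=
    (Finset.card_filter_add_card_filter_not (s := F) (p := fun B => (B \ M).card = k + 1)).symm
  have hsdiff : ∀ B : Finset (Fin n), (M ∆ B) \ M = B \ M := by
    intro B; ext x; simp only [mem_symmDiff, mem_sdiff]; tauto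
  have hsymmcard : ∀ B : Finset (Fin n), (M ∆ B).card = (M \ B).card + (B \ M).card := by
    intro B
    rw [← Finset.card_union_of_disjoint]
    · rfl
    · rw [Finset.disjoint_left]; intro x; simp only [mem_sdiff]; tauto
  have hY : (F1.image (fun B => M ∆ B)).card = F1.card :=
    Finset.card_image_of_injective _ (symmDiff_right_injective M)
  -- product bound for F0
  have hF0card : F0.card ≤ T (t + 2 * j) j * T (s + 2 * k + 1) k := by
    rw [← hM, ← hW, ← card_small M j, ← card_small Mᶜ k, ← Finset.card_product]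
    refine Finset.card_le_card_of_injOn (fun B => (M \ B, B \ M)) ?_ ?_
    · intro B hB
      obtain ⟨hB1, hB2⟩ := Finset.mem_filter.mp hB
      have h1 := h B hB1
      simp only [Finset.coe_product, Set.mem_prod, Finset.mem_coe, Finset.mem_filter,
        Finset.mem_powerset]
      refine ⟨⟨Finset.sdiff_subset, h1.1⟩, ⟨?_, by omega⟩⟩
      intro x hx
      exact Finset.mem_compl.mpr (Finset.mem_sdiff.mp hx).2
    · intro B _ B' _ hBB
      have h1 : M \ B = M \ B' := congrArg Prod.fst hBB
      have h2 : B \ M = B' \ M := congrArg Prod.snd hBB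
      have h3 : M ∆ B = M ∆ B' := by
        show (M \ B) ∪ (B \ M) = (M \ B') ∪ (B' \ M)
        rw [h1, h2]
      exact symmDiff_right_injective M h3
  have hdich := inter_dich b (F1.image (fun B => M ∆ B)) (by
      intro A hA
      obtain ⟨B, hB, rfl⟩ := Finset.mem_image.mp hA
      have h1 := h B (Finset.mem_filter.mp hB).1
      rw [hsymmcard]; omega) (by
      intro A hA A' hA' hdis
      obtain ⟨B, hB, rfl⟩ := Finset.mem_image.mp hA
      obtain ⟨B', hB', rfl⟩ := Finset.mem_image.mp hA'
      have h1 := card_union_symm M _ _ hdis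
      rw [symmDiff_symmDiff_cancel_left, symmDiff_symmDiff_cancel_left, hsdiff, hsdiff,
        (Finset.mem_filter.mp hB).2, (Finset.mem_filter.mp hB').2, hM] at h1
      have h2 := (hF B (Finset.mem_filter.mp hB).1 B' (Finset.mem_filter.mp hB').1).2
      omega)
  -- the case of a common point outside `M`
  have hout : ∀ x, x ∉ M → (∀ B ∈ F1, x ∈ B) → Concl n t s F.card := by
    intro x hx hxB
    refine concl_of_M F M ?_
    intro B hB B' hB'
    have h1 := h B hB
    have h2 := h B' hB'
    constructor
    · have e1 : M \ ((B ∩ B') ∩ M) ⊆ (M \ B) ∪ (M \ B') := by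
        intro y; simp only [mem_sdiff, mem_inter, mem_union]; tauto
      have e2 := (Finset.card_le_card e1).trans (Finset.card_union_le _ _)
      have e3 := Finset.card_sdiff_add_card_inter M ((B ∩ B') ∩ M)
      have e4 : M ∩ ((B ∩ B') ∩ M) = (B ∩ B') ∩ M := by
        ext y; simp only [mem_inter]; tauto
      rw [e4] at e3
      omega
    · have e1 : (B ∪ B') ∩ Mᶜ = (B \ M) ∪ (B' \ M) := by
        ext y; simp only [mem_sdiff, mem_inter, mem_union, mem_compl]; tauto
      rw [e1]
      have e2 := Finset.card_union_add_card_inter (B \ M) (B' \ M)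
      by_cases hk1 : (B \ M).card = k + 1
      · by_cases hk2 : (B' \ M).card = k + 1
        · have m1 : x ∈ B := hxB B (Finset.mem_filter.mpr ⟨hB, hk1⟩)
          have m2 : x ∈ B' := hxB B' (Finset.mem_filter.mpr ⟨hB', hk2⟩)
          have : 1 ≤ ((B \ M) ∩ (B' \ M)).card := by
            refine Finset.card_pos.mpr ⟨x, ?_⟩
            simp only [mem_inter, mem_sdiff]
            exact ⟨⟨m1, hx⟩, ⟨m2, hx⟩⟩
          omega
        · omega
      · omega
  rcases hdich with ⟨x, hx⟩ | h0 | hsmall
  · by_cases hxM : x ∈ M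
    · -- common point in `M`
      have hxB : ∀ B ∈ F1, x ∉ B := by
        intro B hB hxB
        have := hx _ (Finset.mem_image_of_mem _ hB)
        rw [Finset.mem_symmDiff] at this
        tauto
      rcases F1.eq_empty_or_nonempty with he | ⟨B1, hB1⟩
      · have hpos : (Mᶜ).Nonempty := by
          rw [← Finset.card_pos]; omega
        obtain ⟨y, hy⟩ := hpos
        exact hout y (Finset.mem_compl.mp hy) (by rw [he]; simp)
      · have hj1 : 1 ≤ j := by
          have h1 := (h B1 (Finset.mem_filter.mp hB1).1).1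
          have h2 : 0 < (M \ B1).card :=
            Finset.card_pos.mpr ⟨x, Finset.mem_sdiff.mpr ⟨hxM, hxB B1 hB1⟩⟩
          omega
        obtain ⟨j', rfl⟩ : ∃ j', j = j' + 1 := ⟨j - 1, by omega⟩
        have hF1card : F1.card ≤ T (t + 2 * j' + 1) j' * (s + 2 * k + 1).choose (k + 1) := by
          have hMe : (M.erase x).card = t + 2 * j' + 1 := by
            rw [Finset.card_erase_of_mem hxM, hM]; omega
          rw [← hMe, ← hW, ← card_small (M.erase x) j', ← Finset.card_powersetCard,
            ← Finset.card_product]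
          refine Finset.card_le_card_of_injOn (fun B => ((M.erase x) \ B, B \ M)) ?_ ?_
          · intro B hB
            obtain ⟨hB1, hB2⟩ := Finset.mem_filter.mp hB
            have h1 := h B hB1
            have h2 : (M.erase x) \ B = (M \ B).erase x := by
              ext y; simp only [mem_sdiff, mem_erase]; tauto
            simp only [Finset.coe_product, Set.mem_prod, Finset.mem_coe, Finset.mem_filter,
              Finset.mem_powerset, Finset.mem_powersetCard]
            refine ⟨⟨Finset.sdiff_subset, ?_⟩, ⟨?_, hB2⟩⟩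
            · rw [h2, Finset.card_erase_of_mem (Finset.mem_sdiff.mpr ⟨hxM, hxB B hB⟩)]
              omega
            · intro y hy
              exact Finset.mem_compl.mpr (Finset.mem_sdiff.mp hy).2
          · intro B hB B' hB' hBB
            have h1 : (M.erase x) \ B = (M.erase x) \ B' := congrArg Prod.fst hBB
            have h2 : B \ M = B' \ M := congrArg Prod.snd hBB
            ext y
            have h1y := Finset.ext_iff.mp h1 y
            have h2y := Finset.ext_iff.mp h2 y
            simp only [mem_sdiff, mem_erase] at h1y h2y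
            by_cases hyx : y = x
            · subst hyx
              have := hxB B hB
              have := hxB B' hB'
              tauto
            · tauto
        have hF : F.card ≤ T (t + 2 * j' + 1 + 1) (j' + 1) * T (s + 2 * k + 1) k +
            T (t + 2 * j' + 1) j' * (s + 2 * k + 1).choose (k + 1) := by
          have e : t + 2 * (j' + 1) = t + 2 * j' + 1 + 1 := by ring
          rw [e] at hF0card
          omega
        rcases mix (t + 2 * j' + 1) (s + 2 * k) j' k (by omega) with hm | hm
        · have hc := concl_prod n t s (j' + 1) k (by omega)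
          have e : t + 2 * (j' + 1) = t + 2 * j' + 1 + 1 := by ring
          rw [e] at hc
          exact hc.mono (hF.trans hm)
        · have hc := concl_prod n t s j' (k + 1) (by omega)
          have e1 : s + 2 * (k + 1) + 1 = s + 2 * k + 1 + 2 := by ring
          have e2 : s + 2 * (k + 1) = s + 2 * k + 1 + 1 := by ring
          rw [e1, e2] at hc
          exact hc.mono (hF.trans hm)
    · refine hout x hxM ?_
      intro B hB
      have := hx _ (Finset.mem_image_of_mem _ hB)
      rw [Finset.mem_symmDiff] at this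
      tauto
  · have he : F1 = ∅ := Finset.image_eq_empty.mp h0
    have hpos : (Mᶜ).Nonempty := by
      rw [← Finset.card_pos]; omega
    obtain ⟨y, hy⟩ := hpos
    exact hout y (Finset.mem_compl.mp hy) (by rw [he]; simp)
  · rw [hY, Fintype.card_fin] at hsmall
    set D := (b + 2) * ((b + 2) * ((b + 1) * (n + 1) ^ b)) with hD
    rcases le_total D (T (t + 2 * j) j * (s + 2 * k).choose k) with hle | hle
    · refine (concl_prod n t s j k (by omega)).mono ?_
      rw [Nat.mul_add]
      omega
    · refine hlarge _ ?_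
      have h1 : T (s + 2 * k + 1) k ≤ 2 * ((k + 1) * (s + 2 * k).choose k) := by
        have h2 := T_double (s + 2 * k) k
        have h3 := T_le (s + 2 * k) k (by omega)
        omega
      have h2 : T (t + 2 * j) j * T (s + 2 * k + 1) k ≤ (2 * (b + 2)) * D := by
        calc _ ≤ T (t + 2 * j) j * (2 * ((k + 1) * (s + 2 * k).choose k)) :=
              Nat.mul_le_mul_left _ h1
          _ = (2 * (k + 1)) * (T (t + 2 * j) j * (s + 2 * k).choose k) := by ring
          _ ≤ (2 * (b + 2)) * D := Nat.mul_le_mul (by omega) hle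
      calc F.card ≤ (2 * (b + 2)) * D + D := by omega
        _ = C3 b * (n + 1) ^ b := by rw [hD]; unfold C3; ring

theorem mainOdd (c : ℕ) : ∃ n₀ : ℕ, ∀ n t s : ℕ, n₀ ≤ n → t + s + 2 * c + 1 = n →
    ∀ F : Finset (Finset (Fin n)),
      (∀ A ∈ F, ∀ B ∈ F, t ≤ (A ∩ B).card ∧ (A ∪ B).card + s ≤ n) → Concl n t s F.card := by
  rcases Nat.eq_zero_or_pos c with hc | hc
  · subst hc
    refine ⟨0, fun n t s _ hn F hF => ?_⟩
    have h2 : F.card ≤ 2 := by
      by_contra hcon
      push Not at hcon
      obtain ⟨A, hA, B, hB, C, hC, hAB, hAC, hBC⟩ := Finset.two_lt_card.mp hcon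
      have hone : ∀ X ∈ F, ∀ Y ∈ F, X ≠ Y → ∃ x, X ∆ Y = {x} := by
        intro X hX Y hY hXY
        rw [← Finset.card_eq_one]
        have h1 := hF X hX Y hY
        have h2 := card_symm_split X Y
        have h3 : 0 < (X ∆ Y).card := by
          rw [Finset.card_pos, Finset.nonempty_iff_ne_empty]
          intro h; exact hXY (symmDiff_eq_bot.mp h)
        omega
      obtain ⟨x, hx⟩ := hone A hA B hB hAB
      obtain ⟨y, hy⟩ := hone B hB C hC hBC
      obtain ⟨z, hz⟩ := hone A hA C hC hAC
      have h3 : (A ∆ B) ∆ (B ∆ C) = A ∆ C := by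
        rw [symmDiff_assoc, symmDiff_symmDiff_cancel_left]
      rw [hx, hy, hz] at h3
      have h4 := Finset.ext_iff.mp h3
      have e1 := h4 x
      have e2 := h4 y
      have e3 := h4 z
      simp only [Finset.mem_symmDiff, Finset.mem_singleton] at e1 e2 e3
      by_cases hxy : x = y
      · subst hxy; simp at e3
      · have hyx : ¬ y = x := fun h => hxy h.symm
        simp [hxy] at e1
        simp [hyx] at e2
        exact hxy (e1.trans e2.symm)
    have hp := concl_prod n t s 0 0 (by omega)
    simp [T_zero] at hp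
    exact hp.mono h2
  · obtain ⟨b, rfl⟩ : ∃ b, c = b + 1 := ⟨c - 1, by omega⟩
    obtain ⟨C, hC⟩ := sun_bound b ((b + 1 + 2) * (b + 1 + 2) * (3 * (b + 1) + 2) + 1) (b + 3)
    refine ⟨(C + C3 b) * ((b + 1)! * 2 ^ (b + 1)), fun n t s hn0 hn F hF => ?_⟩
    -- everything of lower order is fine
    have hlarge0 : ∀ N, N ≤ (C + C3 b) * (n + 1) ^ b → ∀ L, n + 2 * (b + 1) ≤ 2 * L →
        N ≤ L.choose (b + 1) := by
      intro N hN L hL
      have h3 := choose_big (b + 1) n L hL
      have h4 : 0 < (b + 1)! * 2 ^ (b + 1) := by positivity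
      have h5 : N * ((b + 1)! * 2 ^ (b + 1)) ≤
          L.choose (b + 1) * ((b + 1)! * 2 ^ (b + 1)) := by
        calc _ ≤ ((C + C3 b) * (n + 1) ^ b) * ((b + 1)! * 2 ^ (b + 1)) := Nat.mul_le_mul_right _ hN
          _ = ((C + C3 b) * ((b + 1)! * 2 ^ (b + 1))) * (n + 1) ^ b := by ring
          _ ≤ (n + 1) * (n + 1) ^ b := Nat.mul_le_mul_right _ (by omega)
          _ = (n + 1) ^ (b + 1) := by ring
          _ ≤ _ := h3
      exact Nat.le_of_mul_le_mul_right h5 h4
    have hlarge : ∀ t' s', t' + s' + 2 * (b + 1) + 1 = n → ∀ N, N ≤ (C + C3 b) * (n + 1) ^ b →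
        Concl n t' s' N := by
      intro t' s' hn' N hN
      rcases le_total t' s' with hts | hts
      · exact (concl_s' n t' s' (b + 1) (by omega)).mono (hlarge0 N hN _ (by omega))
      · exact concl_compl ((concl_s' n s' t' (b + 1) (by omega)).mono (hlarge0 N hN _ (by omega)))
    have hC3 : ∀ N, N ≤ C3 b * (n + 1) ^ b → N ≤ (C + C3 b) * (n + 1) ^ b := fun N hN =>
      hN.trans (Nat.mul_le_mul_right _ (Nat.le_add_left _ _))
    rcases F.eq_empty_or_nonempty with rfl | ⟨A0, hA0⟩
    · exact hlarge t s hn _ (by simp)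
    by_cases hsun : HasSun (b + 1) ((b + 1 + 2) * (b + 1 + 2) * (3 * (b + 1) + 2) + 1)
        (F.image (fun A => A ∆ A0))
    · obtain ⟨M, j, hj, h | h⟩ := structOdd (b + 1) t s F hF hn A0 hsun
      · obtain ⟨hM, hB⟩ := h
        exact case1 b t s j (b + 1 - j) (by omega) hn F hF M hM hB
          (fun N hN => hlarge t s hn N (hC3 N hN))
      · obtain ⟨hM, hB⟩ := h
        have hMc : (Mᶜ).card = s + 2 * (b + 1 - j) := by
          rw [Finset.card_compl, Fintype.card_fin]; omega
        have hcard : (F.image compl).card = F.card :=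
          Finset.card_image_of_injective _ compl_injective
        rw [← hcard]
        refine concl_compl ?_
        refine case1 b s t (b + 1 - j) j (by omega) (by omega) (F.image compl)
          (card_compl_fam F hF) Mᶜ hMc ?_ (fun N hN => hlarge s t (by omega) N (hC3 N hN))
        intro A hA
        obtain ⟨B, hB', rfl⟩ := Finset.mem_image.mp hA
        have h1 := hB B hB'
        have e1 : Mᶜ \ Bᶜ = B \ M := by
          ext x; simp only [mem_sdiff, mem_compl]; tauto
        have e2 : Bᶜ \ Mᶜ = M \ B := by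
          ext x; simp only [mem_sdiff, mem_compl]; tauto
        rw [e1, e2]
        exact ⟨h1.2, h1.1⟩
    · have h1 : F.card = (F.image (fun A => A ∆ A0)).card := by
        rw [Finset.card_image_of_injective]
        exact symmDiff_left_injective A0
      have h2 := hC (Fin n) (F.image (fun A => A ∆ A0)) (by
        intro X hX
        obtain ⟨A, hA, rfl⟩ := Finset.mem_image.mp hX
        have h1 := hF A hA A0 hA0
        have h2 := card_symm_split A A0
        omega) hsun
      rw [← h1, Fintype.card_fin] at h2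
      exact hlarge t s hn _ (h2.trans (Nat.mul_le_mul_right _ (Nat.le_add_right _ _)))

/-- fixed codimension, both parities. -/
theorem mainAll (c : ℕ) : ∃ n₀ : ℕ, ∀ n t s : ℕ, n₀ ≤ n → t + s + c = n →
    ∀ F : Finset (Finset (Fin n)),
      (∀ A ∈ F, ∀ B ∈ F, t ≤ (A ∩ B).card ∧ (A ∪ B).card + s ≤ n) → Concl n t s F.card := by
  rcases Nat.even_or_odd' c with ⟨b, hb | hb⟩
  · obtain ⟨n₀, h⟩ := main b
    exact ⟨n₀, fun n t s h0 hn F hF => h n t s h0 (by omega) F hF⟩
  · obtain ⟨n₀, h⟩ := mainOdd b
    exact ⟨n₀, fun n t s h0 hn F hF => h n t s h0 (by omega) F hF⟩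

end Pool.Agent.Helper838.BSW
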