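import Mathlib

/-!
Lattice-ordered groups: convex sub-ℓ-groups, prime subgroups, separation, domination.
(Basic lemmas on convex and prime subgroups adapted from `Pool.Agent.Helper29.LG`.)
-/

set_option autoImplicit false
set_option linter.unusedSectionVars false

namespace Pool.Agent.Helper838.FL

universe u

variable {G : Type u} [Group G] [Lattice G] [MulLeftMono G] [MulRightMono G]

/-- absolute value -/
def av (a : G) : G := a ⊔ a⁻¹

/-- commutator -/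
def cm (a b : G) : G := a⁻¹ * b⁻¹ * a * b

/-- conjugate `g⁻¹ a g` -/
def cj (g a : G) : G := g⁻¹ * a * g

/-- Convex sub-ℓ-groups. -/
structure IsCvx (M : Subgroup G) : Prop where
  sup_one : ∀ a ∈ M, a ⊔ 1 ∈ M
  conv : ∀ a ∈ M, ∀ b, 1 ≤ b → b ≤ a → b ∈ M

/-- Prime convex sub-ℓ-groups. -/
structure IsPrm (Q : Subgroup G) : Prop extends IsCvx Q where
  prime : ∀ a, a ⊔ 1 ∈ Q ∨ a⁻¹ ⊔ 1 ∈ Q

theorem mulLL {a b : G} (h : a ≤ b) (c : G) : c * a ≤ c * b := mul_le_mul' le_rfl h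

theorem mulRR {a b : G} (h : a ≤ b) (c : G) : a * c ≤ b * c := mul_le_mul' h le_rfl

theorem pos_mul_neg (a : G) : (a ⊔ 1) * (a⁻¹ ⊔ 1)⁻¹ = a := by
  have h : a ⊔ 1 = a * (a⁻¹ ⊔ 1) := by
    rw [mul_sup, mul_inv_cancel, mul_one, sup_comm]
  rw [h]; group

theorem inf_pos_neg (a : G) : (a ⊔ 1) ⊓ (a⁻¹ ⊔ 1) = 1 := by
  have h : a ⊔ 1 = a * (a⁻¹ ⊔ 1) := by
    rw [mul_sup, mul_inv_cancel, mul_one, sup_comm]
  have h2 : (a ⊔ 1) ⊓ (a⁻¹ ⊔ 1) = (a ⊓ 1) * (a⁻¹ ⊔ 1) := by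
    rw [inf_mul, ← h, one_mul]
  rw [h2]
  have h3 : a⁻¹ ⊔ 1 = (a ⊓ 1)⁻¹ := by rw [inv_inf, inv_one]
  rw [h3, mul_inv_cancel]

theorem one_le_av (a : G) : 1 ≤ av a := by
  apply pow_two_semiclosed
  have h1 : a * a⁻¹ ≤ av a * av a := mul_le_mul' le_sup_left le_sup_right
  rw [mul_inv_cancel] at h1
  rw [pow_two]; exact h1

theorem le_av (a : G) : a ≤ av a := le_sup_left
theorem inv_le_av (a : G) : a⁻¹ ≤ av a := le_sup_right

theorem av_inv (a : G) : av a⁻¹ = av a := by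
  unfold av; rw [inv_inv, sup_comm]

theorem av_of_one_le {a : G} (h : 1 ≤ a) : av a = a := by
  unfold av
  exact sup_eq_left.mpr ((inv_le_one'.mpr h).trans h)

theorem av_one : av (1 : G) = 1 := av_of_one_le le_rfl

theorem av_av (a : G) : av (av a) = av a := av_of_one_le (one_le_av a)

theorem av_le_iff {a b : G} : av a ≤ b ↔ a ≤ b ∧ a⁻¹ ≤ b := sup_le_iff

theorem av_mul_le (a b : G) : av (a * b) ≤ av a * av b * av a := by
  rw [av_le_iff]
  constructor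
  · calc a * b ≤ av a * av b := mul_le_mul' (le_av a) (le_av b)
      _ = av a * av b * 1 := (mul_one _).symm
      _ ≤ av a * av b * av a := mulLL (one_le_av a) _
  · calc (a * b)⁻¹ = b⁻¹ * a⁻¹ := mul_inv_rev a b
      _ ≤ av b * av a := mul_le_mul' (inv_le_av b) (inv_le_av a)
      _ = 1 * (av b * av a) := (one_mul _).symm
      _ ≤ av a * (av b * av a) := mulRR (one_le_av a) _
      _ = _ := (mul_assoc _ _ _).symm

theorem one_le_mul2 {a b : G} (ha : 1 ≤ a) (hb : 1 ≤ b) : 1 ≤ a * b := by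
  calc (1 : G) = 1 * 1 := (one_mul 1).symm
    _ ≤ a * b := mul_le_mul' ha hb

theorem one_le_pw {y : G} (hy : 1 ≤ y) (n : ℕ) : 1 ≤ y ^ n := by
  induction n with
  | zero => simp
  | succ n ih => rw [pow_succ]; exact one_le_mul2 ih hy

theorem pw_mono {y : G} (hy : 1 ≤ y) {m n : ℕ} (h : m ≤ n) : y ^ m ≤ y ^ n := by
  obtain ⟨k, rfl⟩ := Nat.exists_eq_add_of_le h
  rw [pow_add]
  calc y ^ m = y ^ m * 1 := (mul_one _).symm
    _ ≤ _ := mulLL (one_le_pw hy k) _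

theorem pw_le {y z : G} (hy : y ≤ z) (n : ℕ) : y ^ n ≤ z ^ n := by
  induction n with
  | zero => simp
  | succ n ih => rw [pow_succ, pow_succ]; exact mul_le_mul' ih hy

theorem inf_mul_le {x y z : G} (hx : 1 ≤ x) (hy : 1 ≤ y) (hz : 1 ≤ z) :
    (y * z) ⊓ x ≤ (y ⊓ x) * (z ⊓ x) := by
  rw [mul_inf, inf_mul, inf_mul]
  refine le_inf (le_inf ?_ ?_) (le_inf ?_ ?_)
  · exact inf_le_left
  · exact inf_le_right.trans (le_mul_of_one_le_right' hz)
  · exact inf_le_right.trans (le_mul_of_one_le_left' hy)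
  · exact inf_le_right.trans (le_mul_of_one_le_right' hx)

theorem cj_mul (g a b : G) : cj g (a * b) = cj g a * cj g b := by unfold cj; group
theorem cj_one (g : G) : cj g 1 = 1 := by unfold cj; group
theorem cj_inv (g a : G) : cj g a⁻¹ = (cj g a)⁻¹ := by unfold cj; group
theorem cj_pow (g a : G) (n : ℕ) : cj g (a ^ n) = (cj g a) ^ n := by
  induction n with
  | zero => simp [cj_one]
  | succ n ih => rw [pow_succ, pow_succ, cj_mul, ih]
theorem cj_cj (g h a : G) : cj h (cj g a) = cj (g * h) a := by unfold cj; group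
theorem cj_one' (a : G) : cj 1 a = a := by unfold cj; group
theorem cj_inv_cj (g a : G) : cj g⁻¹ (cj g a) = a := by unfold cj; group
theorem cj_cj_inv (g a : G) : cj g (cj g⁻¹ a) = a := by unfold cj; group
theorem cj_mono (g : G) {a b : G} (h : a ≤ b) : cj g a ≤ cj g b := mulRR (mulLL h _) _
theorem cj_sup (g a b : G) : cj g (a ⊔ b) = cj g a ⊔ cj g b := by
  unfold cj; rw [mul_sup, sup_mul]
theorem one_le_cj (g : G) {a : G} (h : 1 ≤ a) : 1 ≤ cj g a := by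
  have := cj_mono g h
  rwa [cj_one] at this

namespace IsCvx

variable {M : Subgroup G}

theorem mem_of_pos_neg (_hM : IsCvx M) {a : G} (h1 : a ⊔ 1 ∈ M) (h2 : a⁻¹ ⊔ 1 ∈ M) : a ∈ M := by
  have := pos_mul_neg a
  rw [← this]
  exact M.mul_mem h1 (M.inv_mem h2)

theorem neg_mem (hM : IsCvx M) {a : G} (h : a ∈ M) : a⁻¹ ⊔ 1 ∈ M := hM.sup_one _ (M.inv_mem h)

theorem pos_of_le (hM : IsCvx M) {a b : G} (ha : a ∈ M) (h : b ≤ a) : b ⊔ 1 ∈ M :=
  hM.conv _ (hM.sup_one _ ha) _ le_sup_right (sup_le_sup_right h 1)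

theorem sup_mem (hM : IsCvx M) {a b : G} (ha : a ∈ M) (hb : b ∈ M) : a ⊔ b ∈ M := by
  have : a ⊔ b = b * (b⁻¹ * a ⊔ 1) := by rw [mul_sup, mul_inv_cancel_left, mul_one]
  rw [this]
  exact M.mul_mem hb (hM.sup_one _ (M.mul_mem (M.inv_mem hb) ha))

theorem inf_mem (hM : IsCvx M) {a b : G} (ha : a ∈ M) (hb : b ∈ M) : a ⊓ b ∈ M := by
  have : a ⊓ b = (a⁻¹ ⊔ b⁻¹)⁻¹ := by rw [inv_sup, inv_inv, inv_inv]
  rw [this]
  exact M.inv_mem (hM.sup_mem (M.inv_mem ha) (M.inv_mem hb))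

theorem between (hM : IsCvx M) {a b c : G} (ha : a ∈ M) (hc : c ∈ M) (h1 : a ≤ b) (h2 : b ≤ c) :
    b ∈ M := by
  apply hM.mem_of_pos_neg
  · exact hM.pos_of_le hc h2
  · exact hM.pos_of_le (M.inv_mem ha) (inv_le_inv_iff.mpr h1)

/-- if `z ≤ u` and `z⁻¹ ≤ v` with `u, v ∈ M` then `z ∈ M`. -/
theorem of_le_of_inv_le (hM : IsCvx M) {z u v : G} (hu : u ∈ M) (hv : v ∈ M) (h1 : z ≤ u)
    (h2 : z⁻¹ ≤ v) : z ∈ M :=
  hM.mem_of_pos_neg (hM.pos_of_le hu h1) (hM.pos_of_le hv h2)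

theorem av_mem (hM : IsCvx M) {a : G} (ha : a ∈ M) : av a ∈ M := hM.sup_mem ha (M.inv_mem ha)

theorem av_mem_iff (hM : IsCvx M) {a : G} : av a ∈ M ↔ a ∈ M :=
  ⟨fun h => hM.of_le_of_inv_le h h (le_av a) (inv_le_av a), hM.av_mem⟩

theorem of_av_le (hM : IsCvx M) {a b : G} (hb : b ∈ M) (h : av a ≤ b) : a ∈ M :=
  hM.of_le_of_inv_le hb hb ((le_av a).trans h) ((inv_le_av a).trans h)

end IsCvx

namespace IsPrm

variable {Q : Subgroup G}

theorem inf_mem (hQ : IsPrm Q) {a b : G} (h : a ⊓ b ∈ Q) : a ∈ Q ∨ b ∈ Q := by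
  have key : ∀ a b : G, a = (a * b⁻¹ ⊔ 1) * (a ⊓ b) := by
    intro a b
    have : a * b⁻¹ ⊔ 1 = a * (a ⊓ b)⁻¹ := by
      rw [inv_inf, mul_sup, mul_inv_cancel, sup_comm]
    rw [this]; group
  rcases hQ.prime (a * b⁻¹) with h1 | h1
  · left; rw [key a b]; exact Q.mul_mem h1 h
  · right; rw [key b a]
    have : b * a⁻¹ = (a * b⁻¹)⁻¹ := by group
    rw [this, inf_comm]
    exact Q.mul_mem h1 h

end IsPrm

/-- The total preorder of left cosets of `Q`: `a Q ≤ b Q`. -/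
def leQ (Q : Subgroup G) (a b : G) : Prop := b⁻¹ * a ⊔ 1 ∈ Q

section leQ
variable {Q : Subgroup G}

theorem leQ_iff (hQ : IsCvx Q) {a b : G} : leQ Q a b ↔ ∃ q ∈ Q, a ≤ b * q := by
  constructor
  · intro h
    refine ⟨_, h, ?_⟩
    rw [mul_sup, mul_inv_cancel_left]
    exact le_sup_left
  · rintro ⟨q, hq, h⟩
    exact hQ.pos_of_le hq (inv_mul_le_iff_le_mul.mpr h)

theorem leQ_of_le (hQ : IsCvx Q) {a b : G} (h : a ≤ b) : leQ Q a b :=
  (leQ_iff hQ).mpr ⟨1, Q.one_mem, by simpa using h⟩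

theorem leQ_trans (hQ : IsCvx Q) {a b c : G} (h1 : leQ Q a b) (h2 : leQ Q b c) : leQ Q a c := by
  obtain ⟨q, hq, h⟩ := (leQ_iff hQ).mp h1
  obtain ⟨r, hr, h'⟩ := (leQ_iff hQ).mp h2
  refine (leQ_iff hQ).mpr ⟨r * q, Q.mul_mem hr hq, ?_⟩
  calc a ≤ b * q := h
    _ ≤ c * r * q := mulRR h' q
    _ = c * (r * q) := mul_assoc _ _ _

theorem leQ_mul_left (g a b : G) : leQ Q (g * a) (g * b) ↔ leQ Q a b := by
  unfold leQ
  have : (g * b)⁻¹ * (g * a) = b⁻¹ * a := by group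
  rw [this]

theorem leQ_total (hQ : IsPrm Q) (a b : G) : leQ Q a b ∨ leQ Q b a := by
  rcases hQ.prime (b⁻¹ * a) with h | h
  · exact Or.inl h
  · right; unfold leQ
    have : a⁻¹ * b = (b⁻¹ * a)⁻¹ := by group
    rw [this]; exact h

theorem leQ_antisymm (hQ : IsCvx Q) {a b : G} (h1 : leQ Q a b) (h2 : leQ Q b a) : a⁻¹ * b ∈ Q := by
  apply hQ.mem_of_pos_neg h2
  have : (a⁻¹ * b)⁻¹ = b⁻¹ * a := by group
  rw [this]; exact h1

theorem leQ_of_mem (hQ : IsCvx Q) {a b : G} (h : a⁻¹ * b ∈ Q) : leQ Q a b := by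
  unfold leQ
  have : b⁻¹ * a = (a⁻¹ * b)⁻¹ := by group
  rw [this]; exact hQ.neg_mem h

theorem leQ_of_mem' (hQ : IsCvx Q) {a b : G} (h : a⁻¹ * b ∈ Q) : leQ Q b a :=
  hQ.sup_one _ h

/-- if `a Q ≤ b Q` then `(a ⊔ b) Q = b Q` -/
theorem sup_mem_of_leQ {a b : G} (h : leQ Q a b) : b⁻¹ * (a ⊔ b) ∈ Q := by
  rw [mul_sup, inv_mul_cancel]; exact h

end leQ

/-- Separation of a convex subgroup from a meet-closed set by a prime. -/
theorem exists_prime {M : Subgroup G} (hM : IsCvx M) {S : Set G} (hne : S.Nonempty)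
    (hpos : ∀ x ∈ S, 1 ≤ x) (hinf : ∀ x ∈ S, ∀ y ∈ S, x ⊓ y ∈ S) (hdis : ∀ x ∈ S, x ∉ M) :
    ∃ Q : Subgroup G, IsPrm Q ∧ M ≤ Q ∧ ∀ x ∈ S, x ∉ Q := by
  classical
  let T : Set (Set G) := {F | (∀ x ∈ F, 1 ≤ x) ∧ (∀ x ∈ F, ∀ y ∈ F, x ⊓ y ∈ F) ∧ ∀ x ∈ F, x ∉ M}
  have h0 : S ∈ T := ⟨hpos, hinf, hdis⟩
  obtain ⟨F, hSF, hF⟩ := zorn_subset_nonempty T (by
    intro ch hch hchain hne'
    refine ⟨⋃₀ ch, ⟨?_, ?_, ?_⟩, fun s hs => Set.subset_sUnion_of_mem hs⟩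
    · rintro x ⟨s, hs, hx⟩; exact (hch hs).1 x hx
    · rintro x ⟨s, hs, hx⟩ y ⟨t, ht, hy⟩
      rcases hchain.total hs ht with h | h
      · exact ⟨t, ht, (hch ht).2.1 x (h hx) y hy⟩
      · exact ⟨s, hs, (hch hs).2.1 x hx y (h hy)⟩
    · rintro x ⟨s, hs, hx⟩; exact (hch hs).2.2 x hx) S h0
  obtain ⟨hp, hi, hd⟩ := hF.prop
  obtain ⟨s0, hs0⟩ := hne
  have hs0F : s0 ∈ F := hSF hs0
  -- the prime
  let Q : Subgroup G :=
    { carrier := {x | ∃ g ∈ F, av x ⊓ g ∈ M}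
      mul_mem' := by
        rintro x y ⟨g, hg, hx⟩ ⟨k, hk, hy⟩
        refine ⟨g ⊓ k, hi g hg k hk, ?_⟩
        have h1 : 1 ≤ g ⊓ k := hp _ (hi g hg k hk)
        have hx' : av x ⊓ (g ⊓ k) ∈ M :=
          hM.conv _ hx _ (le_inf (one_le_av x) h1) (inf_le_inf_left _ inf_le_left)
        have hy' : av y ⊓ (g ⊓ k) ∈ M :=
          hM.conv _ hy _ (le_inf (one_le_av y) h1) (inf_le_inf_left _ inf_le_right)
        refine hM.conv _ (M.mul_mem (M.mul_mem hx' hy') hx') _ (le_inf (one_le_av _) h1) ?_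
        calc av (x * y) ⊓ (g ⊓ k) ≤ (av x * av y * av x) ⊓ (g ⊓ k) :=
              inf_le_inf_right _ (av_mul_le x y)
          _ ≤ ((av x * av y) ⊓ (g ⊓ k)) * (av x ⊓ (g ⊓ k)) :=
              inf_mul_le h1 (one_le_mul2 (one_le_av x) (one_le_av y)) (one_le_av x)
          _ ≤ _ := mulRR (inf_mul_le h1 (one_le_av x) (one_le_av y)) _
      one_mem' := ⟨s0, hs0F, by
        rw [av_one, inf_eq_left.mpr (hp _ hs0F)]; exact M.one_mem⟩
      inv_mem' := by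
        rintro x ⟨g, hg, hx⟩
        exact ⟨g, hg, by rw [av_inv]; exact hx⟩ }
  have hQmem : ∀ x, x ∈ Q ↔ ∃ g ∈ F, av x ⊓ g ∈ M := fun x => Iff.rfl
  have hmax : ∀ x, 1 ≤ x → x ∉ F → x ∈ Q := by
    intro x hx hxF
    by_contra hxQ
    have hno : ∀ g ∈ F, x ⊓ g ∉ M := by
      intro g hg hm
      exact hxQ ⟨g, hg, by rw [av_of_one_le hx]; exact hm⟩
    let F' : Set G := F ∪ {x} ∪ {y | ∃ g ∈ F, y = g ⊓ x}
    have hF' : F' ∈ T := by
      refine ⟨?_, ?_, ?_⟩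
      · rintro y ((hy | hy) | ⟨g, hg, rfl⟩)
        · exact hp y hy
        · rw [Set.mem_singleton_iff] at hy; rw [hy]; exact hx
        · exact le_inf (hp g hg) hx
      · rintro y ((hy | hy) | ⟨g, hg, rfl⟩) z ((hz | hz) | ⟨h, hh, rfl⟩)
        · exact Or.inl (Or.inl (hi y hy z hz))
        · rw [Set.mem_singleton_iff] at hz; subst hz
          exact Or.inr ⟨y, hy, rfl⟩
        · exact Or.inr ⟨y ⊓ h, hi y hy h hh, by rw [inf_assoc]⟩
        · rw [Set.mem_singleton_iff] at hy; subst hy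
          exact Or.inr ⟨z, hz, inf_comm _ _⟩
        · rw [Set.mem_singleton_iff] at hy hz; subst hy; subst hz
          exact Or.inl (Or.inr (by simp))
        · rw [Set.mem_singleton_iff] at hy; subst hy
          exact Or.inr ⟨h, hh, by rw [inf_comm h y, ← inf_assoc, inf_idem]⟩
        · exact Or.inr ⟨g ⊓ z, hi g hg z hz, by rw [inf_assoc, inf_assoc, inf_comm x z]⟩
        · rw [Set.mem_singleton_iff] at hz; subst hz
          exact Or.inr ⟨g, hg, by rw [inf_assoc, inf_idem]⟩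
        · exact Or.inr ⟨g ⊓ h, hi g hg h hh, by rw [inf_inf_inf_comm, inf_idem]⟩
      · rintro y ((hy | hy) | ⟨g, hg, rfl⟩)
        · exact hd y hy
        · rw [Set.mem_singleton_iff] at hy; rw [hy]
          intro hxM
          exact hno s0 hs0F (hM.conv _ hxM _ (le_inf hx (hp _ hs0F)) inf_le_left)
        · rw [inf_comm]; exact hno g hg
    have hsub : F ⊆ F' := fun y hy => Or.inl (Or.inl hy)
    have := hF.le_of_ge hF' hsub
    exact hxF (this (Or.inl (Or.inr rfl)))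
  have hcvx : IsCvx Q := by
    constructor
    · rintro a ⟨g, hg, ha⟩
      refine ⟨g, hg, hM.conv _ ha _ (le_inf (one_le_av _) (hp _ hg)) (inf_le_inf_right _ ?_)⟩
      rw [av_of_one_le le_sup_right]
      exact sup_le (le_av a) (one_le_av a)
    · rintro a ⟨g, hg, ha⟩ b hb hba
      refine ⟨g, hg, hM.conv _ ha _ (le_inf (one_le_av _) (hp _ hg)) (inf_le_inf_right _ ?_)⟩
      rw [av_of_one_le hb]
      exact hba.trans (le_av a)
  refine ⟨Q, { hcvx with prime := ?_ }, ?_, ?_⟩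
  · intro a
    by_cases h : a ⊔ 1 ∈ F
    · right
      refine ⟨a ⊔ 1, h, ?_⟩
      rw [av_of_one_le le_sup_right, inf_comm, inf_pos_neg]; exact M.one_mem
    · left
      exact hmax _ le_sup_right h
  · intro x hx
    exact ⟨s0, hs0F, hM.conv _ (hM.av_mem hx) _ (le_inf (one_le_av _) (hp _ hs0F)) inf_le_left⟩
  · rintro x hx ⟨g, hg, h⟩
    rw [av_of_one_le (hpos x hx)] at h
    exact hd _ (hi x (hSF hx) g hg) h

theorem exists_prime_one {M : Subgroup G} (hM : IsCvx M) {g : G} (hg : g ∉ M) :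
    ∃ Q : Subgroup G, IsPrm Q ∧ M ≤ Q ∧ g ∉ Q := by
  obtain ⟨Q, hQ, h1, h2⟩ := exists_prime hM (S := {av g}) ⟨_, rfl⟩
    (by rintro x rfl; exact one_le_av g) (by rintro x rfl y rfl; simp)
    (by rintro x rfl; rw [hM.av_mem_iff]; exact hg)
  refine ⟨Q, hQ, h1, ?_⟩
  have := h2 _ rfl
  rwa [hQ.toIsCvx.av_mem_iff] at this

/-- The convex subgroup generated by `H ≥ 1`. -/
def gen (H : G) (hH : 1 ≤ H) : Subgroup G where
  carrier := {g | ∃ m : ℕ, av g ≤ H ^ m}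
  mul_mem' := by
    rintro a b ⟨m, hm⟩ ⟨n, hn⟩
    refine ⟨m + n + m, (av_mul_le a b).trans ?_⟩
    rw [pow_add, pow_add]
    exact mul_le_mul' (mul_le_mul' hm hn) hm
  one_mem' := ⟨0, by rw [av_one, pow_zero]⟩
  inv_mem' := by
    rintro a ⟨m, hm⟩
    exact ⟨m, by rw [av_inv]; exact hm⟩

theorem mem_gen {H : G} {hH : 1 ≤ H} {g : G} : g ∈ gen H hH ↔ ∃ m : ℕ, av g ≤ H ^ m := Iff.rfl

theorem gen_cvx {H : G} (hH : 1 ≤ H) : IsCvx (gen H hH) := by
  constructor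
  · rintro a ⟨m, hm⟩
    refine ⟨m, ?_⟩
    rw [av_of_one_le le_sup_right]
    exact sup_le ((le_av a).trans hm) ((one_le_av a).trans hm)
  · rintro a ⟨m, hm⟩ b hb hba
    refine ⟨m, ?_⟩
    rw [av_of_one_le hb]
    exact (hba.trans (le_av a)).trans hm

/-- Domination: if every prime containing `H` contains `g` then `|g| ≤ H ^ m`. -/
theorem dom_of_primes {H g : G} (hH : 1 ≤ H) (h : ∀ Q : Subgroup G, IsPrm Q → H ∈ Q → g ∈ Q) :
    ∃ m : ℕ, av g ≤ H ^ m := by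
  by_contra hcon
  obtain ⟨Q, hQ, h1, h2⟩ := exists_prime_one (gen_cvx hH) (g := g) hcon
  exact h2 (h Q hQ (h1 ⟨1, by rw [av_of_one_le hH, pow_one]⟩))

/-- Join of a list together with `1`. -/
def jn : List G → G
  | [] => 1
  | a :: l => a ⊔ jn l

theorem one_le_jn (l : List G) : 1 ≤ jn l := by
  induction l with
  | nil => exact le_rfl
  | cons a l ih => exact ih.trans le_sup_right

theorem le_jn {l : List G} {a : G} (h : a ∈ l) : a ≤ jn l := by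
  induction l with
  | nil => simp at h
  | cons b l ih =>
    rcases List.mem_cons.mp h with h | h
    · subst h; exact le_sup_left
    · exact (ih h).trans le_sup_right

theorem jn_attained {Q : Subgroup G} (hQ : IsPrm Q) (l : List G) :
    ∃ y, (y = 1 ∨ y ∈ l) ∧ y⁻¹ * jn l ∈ Q := by
  induction l with
  | nil => exact ⟨1, Or.inl rfl, by simp [jn, Q.one_mem]⟩
  | cons a l ih =>
    obtain ⟨y, hy, hyQ⟩ := ih
    rcases leQ_total hQ a (jn l) with h | h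
    · refine ⟨y, hy.imp_right (List.mem_cons_of_mem a), ?_⟩
      have h1 := sup_mem_of_leQ h
      have : y⁻¹ * jn (a :: l) = (y⁻¹ * jn l) * ((jn l)⁻¹ * (a ⊔ jn l)) := by
        simp only [jn]; group
      rw [this]
      exact Q.mul_mem hyQ h1
    · refine ⟨a, Or.inr (List.mem_cons_self ..), ?_⟩
      have h1 := sup_mem_of_leQ h
      simp only [jn]
      rwa [sup_comm]

theorem jn_mem {M : Subgroup G} (hM : IsCvx M) {l : List G} (h : ∀ a ∈ l, a ∈ M) : jn l ∈ M := by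
  induction l with
  | nil => exact M.one_mem
  | cons a l ih =>
    exact hM.sup_mem (h a (List.mem_cons_self ..)) (ih fun b hb => h b (List.mem_cons_of_mem a hb))

end Pool.Agent.Helper838.FL
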