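import Pool.Agent.Helper838.FL1

/-!
The kernel of the abelianisation of an `n`-generated ℓ-group: every element is dominated by a
power of a join of a bounded number of absolute values of commutators.
-/

set_option autoImplicit false
set_option linter.unusedSectionVars false

namespace Pool.Agent.Helper838.FL

universe u

variable {G : Type u} [Group G] [Lattice G] [MulLeftMono G] [MulRightMono G]

/-- All words of length `j` in the letters `S`. -/
def wds (S : List G) : ℕ → List G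
  | 0 => [1]
  | j + 1 => (wds S j).flatMap (fun w => S.map (fun s => w * s))

theorem mem_wds_zero {S : List G} {w : G} : w ∈ wds S 0 ↔ w = 1 := by
  simp [wds]

theorem mem_wds_succ {S : List G} {j : ℕ} {w : G} :
    w ∈ wds S (j + 1) ↔ ∃ w' ∈ wds S j, ∃ s ∈ S, w' * s = w := by
  simp [wds, List.mem_flatMap]

/-- The components of the element `D`. -/
def comps (S : List G) (c : G) (R : ℕ) : List G :=
  (List.range (R + 1)).flatMap (fun j => (wds S j).map (fun w => (cj w c) ^ (R + 1 - j)))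

theorem mem_comps {S : List G} {c : G} {R : ℕ} {y : G} :
    y ∈ comps S c R ↔ ∃ j ≤ R, ∃ w ∈ wds S j, (cj w c) ^ (R + 1 - j) = y := by
  simp [comps, List.mem_flatMap]

/-- The key domination lemma at a prime. -/
theorem prime_dom {S : List G} {c : G} (hc : 1 ≤ c) (R : ℕ) {Q : Subgroup G} (hQ : IsPrm Q)
    (hcQ : c ∈ Q) (hD : ∀ s ∈ S, cm (jn (comps S c R)) s ∈ Q) :
    ∀ j ≤ R, ∀ w ∈ wds S j, cj w c ∈ Q := by
  set D := jn (comps S c R) with hDdef
  have hDQ : D ∈ Q := by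
    obtain ⟨y, hy, hyQ⟩ := jn_attained hQ (comps S c R)
    rw [← hDdef] at hyQ
    rcases hy with rfl | hy
    · simpa using hyQ
    · obtain ⟨j, hj, w, hw, rfl⟩ := mem_comps.mp hy
      have fin : cj w c ∈ Q → D ∈ Q := by
        intro h
        have h1 : (cj w c) ^ (R + 1 - j) ∈ Q := Q.pow_mem h _
        have := Q.mul_mem h1 hyQ
        rwa [mul_inv_cancel_left] at this
      apply fin
      cases j with
      | zero =>
        rw [mem_wds_zero.mp hw, cj_one']
        exact hcQ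
      | succ j =>
        obtain ⟨w', hw', s, hs, rfl⟩ := mem_wds_succ.mp hw
        -- the component one step closer
        have hy' : (cj w' c) ^ (R + 1 - j) ≤ D :=
          le_jn (mem_comps.mpr ⟨j, by omega, w', hw', rfl⟩)
        have h1 : cj s ((cj w' c) ^ (R + 1 - j)) ≤ cj s D := cj_mono s hy'
        rw [cj_pow, cj_cj] at h1
        have e1 : R + 1 - j = (R + 1 - (j + 1)) + 1 := by omega
        rw [e1, pow_succ] at h1
        have hsD := hD s hs
        have e2 : cj s D = D * cm D s := by unfold cj cm; group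
        have e3 : D = (cj (w' * s) c) ^ (R + 1 - (j + 1)) *
            (((cj (w' * s) c) ^ (R + 1 - (j + 1)))⁻¹ * D) := by group
        rw [e2] at h1
        have h2 : cj (w' * s) c ≤
            (((cj (w' * s) c) ^ (R + 1 - (j + 1)))⁻¹ * D) * cm D s := by
          have := mulLL h1 ((cj (w' * s) c) ^ (R + 1 - (j + 1)))⁻¹
          rw [inv_mul_cancel_left] at this
          calc _ ≤ _ := this
            _ = _ := by group
        exact hQ.conv _ (Q.mul_mem hyQ hsD) _ (one_le_cj _ hc) h2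
  intro j hj w hw
  have h1 : (cj w c) ^ (R + 1 - j) ≤ D := le_jn (mem_comps.mpr ⟨j, hj, w, hw, rfl⟩)
  refine hQ.conv _ hDQ _ (one_le_cj _ hc) (le_trans ?_ h1)
  calc cj w c = (cj w c) ^ 1 := (pow_one _).symm
    _ ≤ _ := pw_mono (one_le_cj _ hc) (by omega)

variable {n : ℕ}

/-- The letters. -/
def lets (x : Fin n → G) : List G := (List.finRange n).flatMap (fun i => [x i, (x i)⁻¹])

theorem mem_lets {x : Fin n → G} {s : G} : s ∈ lets x ↔ ∃ i, s = x i ∨ s = (x i)⁻¹ := by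
  simp [lets, List.mem_flatMap]

/-- The pairs of generators. -/
def prs (x : Fin n → G) : List (G × G) :=
  (List.finRange n).flatMap (fun i => (List.finRange n).map (fun j => (x i, x j)))

theorem mem_prs {x : Fin n → G} {p : G × G} : p ∈ prs x ↔ ∃ i j, p = (x i, x j) := by
  simp only [prs, List.mem_flatMap, List.mem_finRange, List.mem_map, true_and]
  constructor
  · rintro ⟨i, j, h⟩; exact ⟨i, j, h.symm⟩
  · rintro ⟨i, j, h⟩; exact ⟨i, j, h.symm⟩

/-- The join of the absolute values of commutators of a list of pairs. -/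
def jc (l : List (G × G)) : G := jn (l.map (fun p => av (cm p.1 p.2)))

theorem one_le_jc (l : List (G × G)) : 1 ≤ jc l := one_le_jn _

theorem le_jc {l : List (G × G)} {p : G × G} (h : p ∈ l) : av (cm p.1 p.2) ≤ jc l :=
  le_jn (List.mem_map.mpr ⟨p, h, rfl⟩)

/-- The kernel of the abelianisation. -/
def ker (x : Fin n → G) : Subgroup G where
  carrier := {g | ∃ R : ℕ, ∀ Q : Subgroup G, IsPrm Q →
    (∀ j ≤ R, ∀ w ∈ wds (lets x) j, cj w (jc (prs x)) ∈ Q) → g ∈ Q}
  mul_mem' := by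
    rintro a b ⟨R, hR⟩ ⟨R', hR'⟩
    refine ⟨max R R', fun Q hQ h => Q.mul_mem ?_ ?_⟩
    · exact hR Q hQ fun j hj => h j (hj.trans (le_max_left _ _))
    · exact hR' Q hQ fun j hj => h j (hj.trans (le_max_right _ _))
  one_mem' := ⟨0, fun Q _ _ => Q.one_mem⟩
  inv_mem' := by
    rintro a ⟨R, hR⟩
    exact ⟨R, fun Q hQ h => Q.inv_mem (hR Q hQ h)⟩

theorem mem_ker {x : Fin n → G} {g : G} : g ∈ ker x ↔ ∃ R : ℕ, ∀ Q : Subgroup G, IsPrm Q →
    (∀ j ≤ R, ∀ w ∈ wds (lets x) j, cj w (jc (prs x)) ∈ Q) → g ∈ Q := Iff.rfl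

theorem ker_cvx (x : Fin n → G) : IsCvx (ker x) := by
  constructor
  · rintro a ⟨R, hR⟩
    exact ⟨R, fun Q hQ h => hQ.sup_one _ (hR Q hQ h)⟩
  · rintro a ⟨R, hR⟩ b hb hba
    exact ⟨R, fun Q hQ h => hQ.conv _ (hR Q hQ h) _ hb hba⟩

/-- Completeness: elements of the kernel are dominated. -/
theorem ker_dom {x : Fin n → G} {g : G} (hg : g ∈ ker x) : ∃ D : G, ∃ m : ℕ,
    av g ≤ (jc (prs x ++ (lets x).map (fun s => (D, s)))) ^ m := by
  obtain ⟨R, hR⟩ := hg
  refine ⟨jn (comps (lets x) (jc (prs x)) R), ?_⟩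
  apply dom_of_primes (one_le_jc _)
  intro Q hQ hH
  apply hR Q hQ
  apply prime_dom (one_le_jc _) R hQ
  · refine jn_mem hQ.toIsCvx ?_
    intro a ha
    obtain ⟨p, hp, rfl⟩ := List.mem_map.mp ha
    exact hQ.conv _ hH _ (one_le_av _) (le_jc (List.mem_append_left _ hp))
  · intro s hs
    rw [← hQ.toIsCvx.av_mem_iff]
    refine hQ.conv _ hH _ (one_le_av _) ?_
    exact le_jc (p := (jn (comps (lets x) (jc (prs x)) R), s))
      (List.mem_append_right _ (List.mem_map.mpr ⟨s, hs, rfl⟩))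

theorem length_prs (x : Fin n → G) : (prs x).length = n * n := by
  simp [prs, List.length_flatMap]

theorem length_lets (x : Fin n → G) : (lets x).length = n * 2 := by
  simp [lets, List.length_flatMap]

/-- conjugation by a letter preserves the kernel -/
theorem ker_cj_letter {x : Fin n → G} {s : G} (hs : s ∈ lets x) {g : G} (hg : g ∈ ker x) :
    cj s g ∈ ker x := by
  obtain ⟨R, hR⟩ := hg
  refine ⟨R + 1, fun Q hQ h => ?_⟩
  -- the conjugate prime
  let Q' : Subgroup G :=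
    { carrier := {z | cj s z ∈ Q}
      mul_mem' := by
        intro a b ha hb
        change cj s (a * b) ∈ Q
        rw [cj_mul]; exact Q.mul_mem ha hb
      one_mem' := by change cj s 1 ∈ Q; rw [cj_one]; exact Q.one_mem
      inv_mem' := by
        intro a ha
        change cj s a⁻¹ ∈ Q
        rw [cj_inv]; exact Q.inv_mem ha }
  have hQ'mem : ∀ z, z ∈ Q' ↔ cj s z ∈ Q := fun z => Iff.rfl
  have hQ' : IsPrm Q' := by
    refine ⟨⟨?_, ?_⟩, ?_⟩
    · intro a ha
      rw [hQ'mem] at ha ⊢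
      rw [cj_sup, cj_one]
      exact hQ.sup_one _ ha
    · intro a ha b hb hba
      rw [hQ'mem] at ha ⊢
      exact hQ.conv _ ha _ (one_le_cj _ hb) (cj_mono s hba)
    · intro a
      rw [hQ'mem, hQ'mem, cj_sup, cj_sup, cj_one, cj_inv]
      exact hQ.prime _
  exact hR Q' hQ' (fun j hj w hw => by
    rw [hQ'mem, cj_cj]
    exact h (j + 1) (by omega) _ (mem_wds_succ.mpr ⟨w, hw, s, hs, rfl⟩))

/-- Induction principle: the `x i` generate `G` as an ℓ-group. -/
def Gens (x : Fin n → G) : Prop :=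
  ∀ P : G → Prop, (∀ i, P (x i)) → P 1 → (∀ a b, P a → P b → P (a * b)) →
    (∀ a, P a → P a⁻¹) → (∀ a b, P a → P b → P (a ⊔ b)) → ∀ g, P g

theorem cj_sup_left_le (a b m : G) (_hm : 1 ≤ m) : cj (a ⊔ b) m ≤ cj a m ⊔ cj b m := by
  unfold cj
  have e : (a ⊔ b)⁻¹ * m * (a ⊔ b) = (a ⊔ b)⁻¹ * m * a ⊔ (a ⊔ b)⁻¹ * m * b := by
    rw [mul_sup]
  rw [e]
  refine sup_le_sup ?_ ?_
  · exact mulRR (mulRR (inv_le_inv_iff.mpr le_sup_left) m) a
  · exact mulRR (mulRR (inv_le_inv_iff.mpr le_sup_right) m) b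

theorem cj_sup_inv_left_le (a b m : G) (_hm : 1 ≤ m) :
    cj (a ⊔ b)⁻¹ m ≤ cj a⁻¹ m ⊔ cj b⁻¹ m := by
  unfold cj
  simp only [inv_inv]
  have e : (a ⊔ b) * m * (a ⊔ b)⁻¹ = a * m * (a ⊔ b)⁻¹ ⊔ b * m * (a ⊔ b)⁻¹ := by
    rw [sup_mul, sup_mul]
  rw [e]
  refine sup_le_sup ?_ ?_
  · exact mulLL (inv_le_inv_iff.mpr le_sup_left) _
  · exact mulLL (inv_le_inv_iff.mpr le_sup_right) _

theorem ker_cj {x : Fin n → G} (hx : Gens x) (a : G) :
    ∀ g ∈ ker x, cj a g ∈ ker x ∧ cj a⁻¹ g ∈ ker x := by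
  have hM := ker_cvx x
  refine hx (fun a => ∀ g ∈ ker x, cj a g ∈ ker x ∧ cj a⁻¹ g ∈ ker x) ?_ ?_ ?_ ?_ ?_ a
  · intro i g hg
    exact ⟨ker_cj_letter (mem_lets.mpr ⟨i, Or.inl rfl⟩) hg,
      ker_cj_letter (mem_lets.mpr ⟨i, Or.inr rfl⟩) hg⟩
  · intro g hg
    rw [inv_one, cj_one']; exact ⟨hg, hg⟩
  · intro a b ha hb g hg
    rw [mul_inv_rev, ← cj_cj, ← cj_cj]
    exact ⟨(hb _ (ha g hg).1).1, (ha _ (hb g hg).2).2⟩
  · intro a ha g hg
    rw [inv_inv]
    exact ⟨(ha g hg).2, (ha g hg).1⟩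
  · intro a b ha hb
    -- first for positive elements
    have hpos : ∀ g ∈ ker x, 1 ≤ g → cj (a ⊔ b) g ∈ ker x ∧ cj (a ⊔ b)⁻¹ g ∈ ker x := by
      intro g hg h1
      constructor
      · exact hM.conv _ (hM.sup_mem (ha g hg).1 (hb g hg).1) _ (one_le_cj _ h1)
          (cj_sup_left_le a b g h1)
      · exact hM.conv _ (hM.sup_mem (ha g hg).2 (hb g hg).2) _ (one_le_cj _ h1)
          (cj_sup_inv_left_le a b g h1)
    intro g hg
    have h1 := hpos _ (hM.sup_one _ hg) le_sup_right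
    have h2 := hpos _ (hM.neg_mem hg) le_sup_right
    have e := pos_mul_neg g
    rw [← e, cj_mul, cj_mul, cj_inv, cj_inv]
    exact ⟨(ker x).mul_mem h1.1 ((ker x).inv_mem h2.1), (ker x).mul_mem h1.2 ((ker x).inv_mem h2.2)⟩

theorem cm_inv_symm (a b : G) : (cm a b)⁻¹ = cm b a := by unfold cm; group

theorem ker_cm {x : Fin n → G} (hx : Gens x) (a b : G) : cm a b ∈ ker x := by
  have hM := ker_cvx x
  have step : ∀ a, (∀ i, cm a (x i) ∈ ker x) → ∀ b, cm a b ∈ ker x := by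
    intro a h0
    refine hx (fun b => cm a b ∈ ker x) h0 ?_ ?_ ?_ ?_
    · have : cm a 1 = 1 := by unfold cm; group
      rw [this]; exact (ker x).one_mem
    · intro b c hb hc
      have : cm a (b * c) = cm a c * cj c (cm a b) := by unfold cm cj; group
      rw [this]
      exact (ker x).mul_mem hc (ker_cj hx c _ hb).1
    · intro b hb
      have : cm a b⁻¹ = cj b⁻¹ ((cm a b)⁻¹) := by unfold cm cj; group
      rw [this]
      exact (ker_cj hx b _ ((ker x).inv_mem hb)).2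
    · intro b c hb hc
      -- `cm a b = p⁻¹ * b`, `p = a⁻¹ b a`
      have e1 : cm a (b ⊔ c) = ((a⁻¹ * b * a) ⊔ (a⁻¹ * c * a))⁻¹ * (b ⊔ c) := by
        rw [← sup_mul, ← mul_sup]
        unfold cm; group
      have e2 : cm a b = (a⁻¹ * b * a)⁻¹ * b := by unfold cm; group
      have e3 : cm a c = (a⁻¹ * c * a)⁻¹ * c := by unfold cm; group
      refine hM.of_le_of_inv_le (hM.sup_mem hb hc)
        (hM.sup_mem ((ker x).inv_mem hb) ((ker x).inv_mem hc)) ?_ ?_
      · rw [e1, mul_sup, e2, e3]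
        exact sup_le_sup (mulRR (inv_le_inv_iff.mpr le_sup_left) _)
          (mulRR (inv_le_inv_iff.mpr le_sup_right) _)
      · have e4 : (cm a b)⁻¹ = b⁻¹ * (a⁻¹ * b * a) := by unfold cm; group
        have e5 : (cm a c)⁻¹ = c⁻¹ * (a⁻¹ * c * a) := by unfold cm; group
        rw [e1, mul_inv_rev, inv_inv, mul_sup, e4, e5]
        exact sup_le_sup (mulRR (inv_le_inv_iff.mpr le_sup_left) _)
          (mulRR (inv_le_inv_iff.mpr le_sup_right) _)
  apply step
  intro i
  rw [← cm_inv_symm]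
  apply (ker x).inv_mem
  apply step
  intro j
  refine ⟨0, fun Q hQ h => ?_⟩
  have h1 := h 0 le_rfl 1 (mem_wds_zero.mpr rfl)
  rw [cj_one'] at h1
  rw [← hQ.toIsCvx.av_mem_iff]
  exact hQ.conv _ h1 _ (one_le_av _) (le_jc (p := (x i, x j)) (mem_prs.mpr ⟨i, j, rfl⟩))

end Pool.Agent.Helper838.FL
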