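import Pool.Agent.Helper838.FL2

/-!
The ℓ-group of order automorphisms of a chain (adapted from `Pool.Agent.Helper539.LGAut`), the
lexicographic representation, and soundness of the defining formula of the kernel.
-/

set_option autoImplicit false
set_option linter.unusedSectionVars false

namespace Pool.Agent.Helper838.FL

/-- Order automorphisms of a linear order. -/
def Aut (α : Type*) [LinearOrder α] : Type _ := α ≃o α

namespace Aut

variable {α : Type*} [LinearOrder α]

instance : Group (Aut α) := inferInstanceAs (Group (α ≃o α))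

instance : FunLike (Aut α) α α := inferInstanceAs (FunLike (α ≃o α) α α)

theorem ext {f g : Aut α} (h : ∀ x, f x = g x) : f = g := DFunLike.ext f g h

theorem mul_apply (f g : Aut α) (x : α) : (f * g) x = f (g x) := rfl

theorem one_apply (x : α) : (1 : Aut α) x = x := rfl

theorem apply_inv (f : Aut α) (x : α) : f (f⁻¹ x) = x := by
  rw [← mul_apply, mul_inv_cancel, one_apply]

theorem inv_apply (f : Aut α) (x : α) : f⁻¹ (f x) = x := by
  rw [← mul_apply, inv_mul_cancel, one_apply]

theorem le_apply (f : Aut α) {x y : α} : f x ≤ f y ↔ x ≤ y :=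
  OrderIso.le_iff_le (f : α ≃o α)

theorem lt_apply (f : Aut α) {x y : α} : f x < f y ↔ x < y :=
  OrderIso.lt_iff_lt (f : α ≃o α)

theorem inj (f : Aut α) {x y : α} (h : f x = f y) : x = y := by
  rw [← inv_apply f x, h, inv_apply]

instance : PartialOrder (Aut α) :=
  PartialOrder.lift (fun f => (f : α → α)) DFunLike.coe_injective

theorem le_def {f g : Aut α} : f ≤ g ↔ ∀ x, f x ≤ g x := Iff.rfl

theorem le_inv_apply (f : Aut α) {x y : α} : x ≤ f⁻¹ y ↔ f x ≤ y := by
  rw [← f.le_apply, apply_inv]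

theorem inv_apply_le (f : Aut α) {x y : α} : f⁻¹ x ≤ y ↔ x ≤ f y := by
  rw [← f.le_apply, apply_inv]

/-- Pointwise maximum. -/
def sup (f g : Aut α) : Aut α :=
  ({ toFun := fun x => max (f x) (g x)
     invFun := fun y => min (f⁻¹ y) (g⁻¹ y)
     left_inv := by
      intro x
      apply le_antisymm
      · rcases le_total (f x) (g x) with h | h
        · simp only [max_eq_right h, inv_apply]
          exact min_le_right _ _
        · simp only [max_eq_left h, inv_apply]
          exact min_le_left _ _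
      · refine le_min ?_ ?_
        · rw [le_inv_apply]; exact le_max_left _ _
        · rw [le_inv_apply]; exact le_max_right _ _
     right_inv := by
      intro y
      apply le_antisymm
      · refine max_le ?_ ?_
        · rw [← le_inv_apply]; exact min_le_left _ _
        · rw [← le_inv_apply]; exact min_le_right _ _
      · rcases le_total (f⁻¹ y) (g⁻¹ y) with h | h
        · simp only [min_eq_left h, apply_inv]
          exact le_max_left _ _
        · simp only [min_eq_right h, apply_inv]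
          exact le_max_right _ _
     map_rel_iff' := by
      intro x y
      constructor
      · intro h
        by_contra hxy
        push Not at hxy
        exact absurd h (not_le.mpr (max_lt_max (f.lt_apply.mpr hxy) (g.lt_apply.mpr hxy)))
      · intro h
        exact max_le_max (f.le_apply.mpr h) (g.le_apply.mpr h) } : α ≃o α)

/-- Pointwise minimum. -/
def inf (f g : Aut α) : Aut α :=
  ({ toFun := fun x => min (f x) (g x)
     invFun := fun y => max (f⁻¹ y) (g⁻¹ y)
     left_inv := by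
      intro x
      apply le_antisymm
      · refine max_le ?_ ?_
        · rw [inv_apply_le]; exact min_le_left _ _
        · rw [inv_apply_le]; exact min_le_right _ _
      · rcases le_total (f x) (g x) with h | h
        · simp only [min_eq_left h, inv_apply]
          exact le_max_left _ _
        · simp only [min_eq_right h, inv_apply]
          exact le_max_right _ _
     right_inv := by
      intro y
      apply le_antisymm
      · rcases le_total (f⁻¹ y) (g⁻¹ y) with h | h
        · simp only [max_eq_right h, apply_inv]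
          exact min_le_right _ _
        · simp only [max_eq_left h, apply_inv]
          exact min_le_left _ _
      · refine le_min ?_ ?_
        · rw [← inv_apply_le]; exact le_max_left _ _
        · rw [← inv_apply_le]; exact le_max_right _ _
     map_rel_iff' := by
      intro x y
      constructor
      · intro h
        by_contra hxy
        push Not at hxy
        exact absurd h (not_le.mpr (min_lt_min (f.lt_apply.mpr hxy) (g.lt_apply.mpr hxy)))
      · intro h
        exact min_le_min (f.le_apply.mpr h) (g.le_apply.mpr h) } : α ≃o α)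

instance : Lattice (Aut α) where
  sup := Aut.sup
  inf := Aut.inf
  le_sup_left f g x := le_max_left (f x) (g x)
  le_sup_right f g x := le_max_right (f x) (g x)
  sup_le _ _ _ h1 h2 x := max_le (h1 x) (h2 x)
  inf_le_left f g x := min_le_left (f x) (g x)
  inf_le_right f g x := min_le_right (f x) (g x)
  le_inf _ _ _ h1 h2 x := le_min (h1 x) (h2 x)

theorem sup_apply (f g : Aut α) (x : α) : (f ⊔ g) x = max (f x) (g x) := rfl

theorem inf_apply (f g : Aut α) (x : α) : (f ⊓ g) x = min (f x) (g x) := rfl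

instance : MulLeftMono (Aut α) :=
  ⟨fun f _ _ h x => f.le_apply.mpr (h x)⟩

instance : MulRightMono (Aut α) :=
  ⟨fun f _ _ h x => h (f x)⟩

end Aut

/-- The family of joins of `N` absolute values of commutators. -/
def HN (G : Type*) [Group G] [Lattice G] : ℕ → G → Prop
  | 0, h => h = 1
  | N + 1, h => ∃ a b h' : G, HN G N h' ∧ h = av (cm a b) ⊔ h'

/-- The formula defining the kernel of the abelianisation. -/
def KN (G : Type*) [Group G] [Lattice G] (N : ℕ) (g : G) : Prop :=
  ∀ y₁ y₂ : G, ∃ h e : G, HN G N h ∧ av (cm y₁ y₂) ≤ h ∧ e * h = h * e ∧ av g ≤ e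

section Rep

variable {G : Type} [Group G] [Lattice G] [MulLeftMono G] [MulRightMono G] {n : ℕ}

/-- Weak form of the universal property, in `Type`. -/
def Fr (x : Fin n → G) : Prop :=
  ∀ (K : Type) [Group K] [Lattice K] [MulLeftMono K] [MulRightMono K] (f : Fin n → K),
    ∃ φ : G →* K, (∀ a b, φ (a ⊔ b) = φ a ⊔ φ b) ∧ ∀ i, φ (x i) = f i

variable {Ω : Type} [LinearOrder Ω]

/-- The lift of `f : Aut Ω` to the lexicographic product, twisted by `ψ`. -/
def lft (f : Aut Ω) (ψ : Ω → (ℚ ≃o ℚ)) : Aut (Ω ×ₗ ℚ) :=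
  ({ toFun := fun p => toLex (f (ofLex p).1, ψ (ofLex p).1 (ofLex p).2)
     invFun := fun p => toLex (f⁻¹ (ofLex p).1, (ψ (f⁻¹ (ofLex p).1)).symm (ofLex p).2)
     left_inv := by
      intro p
      simp only [ofLex_toLex, Aut.inv_apply, OrderIso.symm_apply_apply]
      rfl
     right_inv := by
      intro p
      simp only [ofLex_toLex, Aut.apply_inv, OrderIso.apply_symm_apply]
      rfl
     map_rel_iff' := by
      intro p q
      simp only [Equiv.coe_fn_mk, Prod.Lex.le_iff, ofLex_toLex, Aut.lt_apply]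
      constructor
      · rintro (h | ⟨h1, h2⟩)
        · exact Or.inl h
        · have h3 := f.inj h1
          refine Or.inr ⟨h3, ?_⟩
          rw [h3] at h2
          exact (OrderIso.le_iff_le _).mp h2
      · rintro (h | ⟨h1, h2⟩)
        · exact Or.inl h
        · refine Or.inr ⟨by rw [h1], ?_⟩
          rw [h1]
          exact (OrderIso.le_iff_le _).mpr h2 } : (Ω ×ₗ ℚ) ≃o (Ω ×ₗ ℚ))

theorem lft_apply (f : Aut Ω) (ψ : Ω → (ℚ ≃o ℚ)) (w : Ω) (q : ℚ) :
    lft f ψ (toLex (w, q)) = toLex (f w, ψ w q) := rfl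

theorem fst_max (p q : Ω ×ₗ ℚ) : (ofLex (max p q)).1 = max (ofLex p).1 (ofLex q).1 := by
  rcases le_total p q with h | h
  · rw [max_eq_right h]
    rcases Prod.Lex.le_iff.mp h with h1 | ⟨h1, _⟩
    · rw [max_eq_right h1.le]
    · rw [h1, max_self]
  · rw [max_eq_left h]
    rcases Prod.Lex.le_iff.mp h with h1 | ⟨h1, _⟩
    · rw [max_eq_left h1.le]
    · rw [h1, max_self]

theorem max_same (a b : Ω) (q : ℚ) :
    max (toLex (a, q) : Ω ×ₗ ℚ) (toLex (b, q)) = toLex (max a b, q) := by
  rcases le_total a b with h | h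
  · rw [max_eq_right h]
    apply max_eq_right
    rcases h.lt_or_eq with h | h
    · exact Prod.Lex.le_iff.mpr (Or.inl h)
    · rw [h]
  · rw [max_eq_left h]
    apply max_eq_left
    rcases h.lt_or_eq with h | h
    · exact Prod.Lex.le_iff.mpr (Or.inl h)
    · rw [h]

/-- Soundness of the formula `KN`. -/
theorem sound {x : Fin n → G} (hfr : Fr x) (hx : Gens x) (hn : 2 ≤ n) {N : ℕ}
    (Φ : G →* Aut Ω) (hsup : ∀ a b, Φ (a ⊔ b) = Φ a ⊔ Φ b) (hcm : ∀ a b, Φ (cm a b) = 1)
    {g : G} (hg : KN G N g) : Φ g = 1 := by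
  classical
  by_contra hne
  have hmono : ∀ a b : G, a ≤ b → Φ a ≤ Φ b := by
    intro a b hab
    rw [← sup_eq_right, ← hsup, sup_eq_right.mpr hab]
  obtain ⟨w₀, hw₀⟩ : ∃ w₀, Φ g w₀ ≠ w₀ := by
    by_contra hcon
    push Not at hcon
    exact hne (Aut.ext hcon)
  let i₁ : Fin n := ⟨0, by omega⟩
  let i₂ : Fin n := ⟨1, by omega⟩
  have hi12 : i₁ ≠ i₂ := by
    intro h
    have := congrArg Fin.val h
    simp [i₁, i₂] at this
  obtain ⟨h, e, hh, hle, hcomm, hge⟩ := hg (x i₁) (x i₂)
  -- `Φ h = 1`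
  have hHN : ∀ (N : ℕ) (h : G), HN G N h → Φ h = 1 := by
    intro N
    induction N with
    | zero => intro h hh; rw [show h = 1 from hh, map_one]
    | succ N ih =>
      rintro h ⟨a, b, h', hh', rfl⟩
      rw [hsup, ih h' hh']
      unfold av
      rw [hsup, hcm, map_inv, hcm, inv_one, sup_idem, sup_idem]
  have hΦh : Φ h = 1 := hHN N h hh
  have hΦe : w₀ < Φ e w₀ := by
    have h1 : Φ (av g) ≤ Φ e := hmono _ _ hge
    have h2 : w₀ < Φ (av g) w₀ := by
      unfold av
      rw [hsup, Aut.sup_apply, map_inv]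
      rcases lt_or_gt_of_ne hw₀ with h3 | h3
      · apply lt_max_of_lt_right
        rw [← (Φ g).lt_apply, Aut.apply_inv]
        exact h3
      · exact lt_max_of_lt_left h3
    exact lt_of_lt_of_le h2 (Aut.le_def.mp h1 w₀)
  -- the orbit of `w₀`
  have horb : StrictMono (fun k : ℕ => Φ (e ^ k) w₀) := by
    apply strictMono_nat_of_lt_succ
    intro k
    rw [pow_succ, map_mul, Aut.mul_apply, Aut.lt_apply]
    exact hΦe
  -- the representations
  choose ρ hρsup hρx using fun ψ : Fin n → Ω → (ℚ ≃o ℚ) =>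
    hfr (Aut (Ω ×ₗ ℚ)) (fun i => lft (Φ (x i)) (ψ i))
  have claim1 : ∀ ψ (g : G), ∀ p, (ofLex (ρ ψ g p)).1 = Φ g (ofLex p).1 := by
    intro ψ
    apply hx
    · intro i p
      rw [hρx]; rfl
    · intro p
      rw [map_one, map_one]; rfl
    · intro a b ha hb p
      rw [map_mul, map_mul, Aut.mul_apply, Aut.mul_apply, ha, hb]
    · intro a ha p
      have h1 := ha (ρ ψ a⁻¹ p)
      rw [← Aut.mul_apply, ← map_mul, mul_inv_cancel, map_one, Aut.one_apply] at h1
      rw [h1, map_inv Φ, Aut.inv_apply]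
    · intro a b ha hb p
      rw [hρsup, hsup, Aut.sup_apply, Aut.sup_apply, fst_max, ha, hb]
  have claim2 : ∀ g : G, ∀ w : Ω, ∃ B : Finset Ω, ∀ ψ : Fin n → Ω → (ℚ ≃o ℚ),
      (∀ i, ∀ b ∈ B, ψ i b = OrderIso.refl ℚ) →
      ∀ q : ℚ, ρ ψ g (toLex (w, q)) = toLex (Φ g w, q) := by
    apply hx
    · intro i w
      refine ⟨{w}, fun ψ hψ q => ?_⟩
      rw [hρx, lft_apply, hψ i w (Finset.mem_singleton_self w)]
      rfl
    · intro w
      refine ⟨∅, fun ψ _ q => ?_⟩
      rw [map_one, map_one]; rfl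
    · intro a b ha hb w
      obtain ⟨B1, h1⟩ := hb w
      obtain ⟨B2, h2⟩ := ha (Φ b w)
      refine ⟨B1 ∪ B2, fun ψ hψ q => ?_⟩
      rw [map_mul, map_mul, Aut.mul_apply, Aut.mul_apply,
        h1 ψ (fun i c hc => hψ i c (Finset.mem_union_left _ hc)),
        h2 ψ (fun i c hc => hψ i c (Finset.mem_union_right _ hc))]
    · intro a ha w
      obtain ⟨B, h1⟩ := ha (Φ a⁻¹ w)
      refine ⟨B, fun ψ hψ q => ?_⟩
      have h2 := h1 ψ hψ q
      rw [map_inv, Aut.apply_inv] at h2
      rw [map_inv, map_inv, ← h2, Aut.inv_apply]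
    · intro a b ha hb w
      obtain ⟨B1, h1⟩ := ha w
      obtain ⟨B2, h2⟩ := hb w
      refine ⟨B1 ∪ B2, fun ψ hψ q => ?_⟩
      rw [hρsup, hsup, Aut.sup_apply, Aut.sup_apply,
        h1 ψ (fun i c hc => hψ i c (Finset.mem_union_left _ hc)),
        h2 ψ (fun i c hc => hψ i c (Finset.mem_union_right _ hc)), max_same]
  obtain ⟨B, hB⟩ := claim2 h w₀
  -- choose `k`
  obtain ⟨k, hk⟩ : ∃ k : ℕ, Φ (e ^ k) w₀ ∉ B ∪ B.image (fun b => (Φ (x i₁))⁻¹ b) ∪ B.image (fun b => (Φ (x i₂))⁻¹ b) := by
    have h1 : (Set.range (fun k : ℕ => Φ (e ^ k) w₀)).Infinite :=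
      Set.infinite_range_of_injective horb.injective
    obtain ⟨y, ⟨k, rfl⟩, hy⟩ := h1.exists_notMem_finset
      (B ∪ B.image (fun b => (Φ (x i₁))⁻¹ b) ∪ B.image (fun b => (Φ (x i₂))⁻¹ b))
    exact ⟨k, hy⟩
  set w := Φ (e ^ k) w₀ with hw
  simp only [Finset.mem_union, Finset.mem_image, not_or, not_exists, not_and] at hk
  obtain ⟨⟨hk0, hk1⟩, hk2⟩ := hk
  have hk1' : Φ (x i₁) w ∉ B := fun hb => hk1 _ hb (Aut.inv_apply _ _)
  have hk2' : Φ (x i₂) w ∉ B := fun hb => hk2 _ hb (Aut.inv_apply _ _)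
  -- the connection
  let β : Fin n → (ℚ ≃o ℚ) := fun i =>
    if i = i₁ then OrderIso.addRight 1 else OrderIso.mulRight₀ 2 (by norm_num)
  let ψ : Fin n → Ω → (ℚ ≃o ℚ) := fun i b => if b ∈ B then OrderIso.refl ℚ else β i
  have hψB : ∀ i, ∀ b ∈ B, ψ i b = OrderIso.refl ℚ := fun i b hb => if_pos hb
  have hψn : ∀ i b, b ∉ B → ψ i b = β i := fun i b hb => if_neg hb
  -- `h` is trivial on the fibre over `w`
  have hfix : ∀ y : Ω ×ₗ ℚ, (ofLex y).1 = w → ρ ψ h y = y := by
    intro y hy
    set z := (ρ ψ (e ^ k))⁻¹ y with hz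
    have hzy : ρ ψ (e ^ k) z = y := by rw [hz, Aut.apply_inv]
    have hz1 : (ofLex z).1 = w₀ := by
      have h1 := claim1 ψ (e ^ k) z
      rw [hzy, hy, hw] at h1
      exact ((Φ (e ^ k)).inj h1).symm
    have hhz : ρ ψ h z = z := by
      have h1 := hB ψ hψB (ofLex z).2
      have h2 : z = toLex (w₀, (ofLex z).2) := by
        rw [← hz1]; rfl
      rw [h2, h1, hΦh, Aut.one_apply]
    have hc : e ^ k * h = h * e ^ k := (Commute.pow_left (show Commute e h from hcomm) k).eq
    rw [← hzy, ← Aut.mul_apply, ← map_mul, ← hc, map_mul, Aut.mul_apply, hhz]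
  -- hence the commutator is
  have hmono' : ∀ a b : G, a ≤ b → ρ ψ a ≤ ρ ψ b := by
    intro a b hab
    rw [← sup_eq_right, ← hρsup, sup_eq_right.mpr hab]
  have hcfix : ρ ψ (cm (x i₁) (x i₂)) (toLex (w, 0)) = toLex (w, 0) := by
    have h1 := Aut.le_def.mp (hmono' _ _ hle) (toLex (w, 0))
    rw [hfix _ rfl] at h1
    unfold av at h1
    rw [hρsup, Aut.sup_apply, max_le_iff, map_inv, Aut.inv_apply_le] at h1
    exact le_antisymm h1.1 h1.2
  have hswap : ρ ψ (x i₁ * x i₂) (toLex (w, 0)) = ρ ψ (x i₂ * x i₁) (toLex (w, 0)) := by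
    have e1 : x i₁ * x i₂ = (x i₂ * x i₁) * cm (x i₁) (x i₂) := by unfold cm; group
    rw [e1, map_mul, Aut.mul_apply, hcfix]
  rw [map_mul, map_mul, Aut.mul_apply, Aut.mul_apply, hρx, hρx, lft_apply, lft_apply, lft_apply,
    lft_apply, hψn _ _ hk0, hψn _ _ hk0, hψn _ _ hk1', hψn _ _ hk2'] at hswap
  have h2 := congrArg (fun p => (ofLex p).2) hswap
  simp only [ofLex_toLex] at h2
  have hb1 : β i₁ = OrderIso.addRight 1 := if_pos rfl
  have hb2 : β i₂ = OrderIso.mulRight₀ 2 (by norm_num) := if_neg (Ne.symm hi12)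
  rw [hb1, hb2] at h2
  simp at h2

end Rep

end Pool.Agent.Helper838.FL
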