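import Pool.Agent.Helper838.FL3

/-!
The formula `KN` defines the kernel of the abelianisation in a free ℓ-group of finite rank `≥ 2`;
the boundary dimension of the quotient is at most the number of generators.
-/

set_option autoImplicit false
set_option linter.unusedSectionVars false

namespace Pool.Agent.Helper838.FL

section Coset

variable {G : Type} [Group G] [Lattice G] [MulLeftMono G] [MulRightMono G] {Q : Subgroup G}

/-- The order on cosets. -/
def coLe (hQ : IsPrm Q) (p q : G ⧸ Q) : Prop :=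
  Quotient.liftOn₂' p q (fun a b => leQ Q a b) (by
    intro a b a' b' ha hb
    rw [QuotientGroup.leftRel_apply] at ha hb
    have hC := hQ.toIsCvx
    apply propext
    constructor
    · intro h
      exact leQ_trans hC (leQ_of_mem' hC ha) (leQ_trans hC h (leQ_of_mem hC hb))
    · intro h
      exact leQ_trans hC (leQ_of_mem hC ha) (leQ_trans hC h (leQ_of_mem' hC hb)))

theorem coLe_mk (hQ : IsPrm Q) (a b : G) :
    coLe hQ (QuotientGroup.mk a) (QuotientGroup.mk b) ↔ leQ Q a b := Iff.rfl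

/-- The linear order on cosets of a prime. -/
noncomputable def coLO (hQ : IsPrm Q) : LinearOrder (G ⧸ Q) :=
  { le := coLe hQ
    le_refl := by
      intro p
      induction p using QuotientGroup.induction_on with
      | H a => exact leQ_of_le hQ.toIsCvx le_rfl
    le_trans := by
      intro p q r
      induction p using QuotientGroup.induction_on with
      | H a =>
      induction q using QuotientGroup.induction_on with
      | H b =>
      induction r using QuotientGroup.induction_on with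
      | H c =>
      exact leQ_trans hQ.toIsCvx
    le_antisymm := by
      intro p q
      induction p using QuotientGroup.induction_on with
      | H a =>
      induction q using QuotientGroup.induction_on with
      | H b =>
      intro h1 h2
      rw [QuotientGroup.eq]
      exact leQ_antisymm hQ.toIsCvx h1 h2
    le_total := by
      intro p q
      induction p using QuotientGroup.induction_on with
      | H a =>
      induction q using QuotientGroup.induction_on with
      | H b =>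
      exact leQ_total hQ a b
    toDecidableLE := Classical.decRel _ }

/-- The action on cosets. -/
noncomputable def coAct (hQ : IsPrm Q) :
    letI := coLO hQ
    G →* Aut (G ⧸ Q) :=
  letI := coLO hQ
  { toFun := fun g =>
      ({ toFun := fun p => g • p
         invFun := fun p => g⁻¹ • p
         left_inv := fun p => by simp
         right_inv := fun p => by simp
         map_rel_iff' := by
          intro p q
          induction p using QuotientGroup.induction_on with
          | H a =>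
          induction q using QuotientGroup.induction_on with
          | H b =>
          exact leQ_mul_left g a b } : (G ⧸ Q) ≃o (G ⧸ Q))
    map_one' := by
      apply Aut.ext
      intro p
      exact one_smul G p
    map_mul' := by
      intro a b
      apply Aut.ext
      intro p
      exact mul_smul a b p }

theorem coAct_sup (hQ : IsPrm Q) (a b : G) :
    letI := coLO hQ
    coAct hQ (a ⊔ b) = coAct hQ a ⊔ coAct hQ b := by
  letI := coLO hQ
  apply Aut.ext
  intro p
  rw [Aut.sup_apply]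
  change (a ⊔ b) • p = max (a • p) (b • p)
  induction p using QuotientGroup.induction_on with
  | H c =>
  change ((QuotientGroup.mk ((a ⊔ b) * c)) : G ⧸ Q) =
    max (QuotientGroup.mk (a * c)) (QuotientGroup.mk (b * c))
  rw [sup_mul]
  rcases leQ_total hQ (a * c) (b * c) with h | h
  · have h1 : ((QuotientGroup.mk (a * c)) : G ⧸ Q) ≤ QuotientGroup.mk (b * c) := h
    rw [max_eq_right h1]
    symm
    rw [QuotientGroup.eq]
    exact sup_mem_of_leQ h
  · have h1 : ((QuotientGroup.mk (b * c)) : G ⧸ Q) ≤ QuotientGroup.mk (a * c) := h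
    rw [max_eq_left h1]
    symm
    rw [QuotientGroup.eq, sup_comm]
    exact sup_mem_of_leQ h

end Coset

section Def

variable {G : Type} [Group G] [Lattice G] [MulLeftMono G] [MulRightMono G] {n : ℕ}

theorem HN_jc (l : List (G × G)) : HN G l.length (jc l) := by
  induction l with
  | nil => rfl
  | cons p l ih => exact ⟨p.1, p.2, jc l, ih, rfl⟩

theorem KN_of_ker {x : Fin n → G} {g : G} (hg : g ∈ ker x) : KN G (n * n + n * 2 + 1) g := by
  intro y₁ y₂
  obtain ⟨D, m, hm⟩ := ker_dom hg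
  set L := prs x ++ (lets x).map (fun s => (D, s)) with hL
  have hlen : ((y₁, y₂) :: L).length = n * n + n * 2 + 1 := by
    rw [List.length_cons, hL, List.length_append, List.length_map, length_prs, length_lets]
  refine ⟨jc ((y₁, y₂) :: L), (jc ((y₁, y₂) :: L)) ^ m, ?_, ?_, ?_, ?_⟩
  · rw [← hlen]; exact HN_jc _
  · exact le_jc (p := (y₁, y₂)) (List.mem_cons_self ..)
  · rw [← pow_succ, ← pow_succ']
  · exact hm.trans (pw_le le_sup_right m)

theorem ker_of_KN {x : Fin n → G} (hfr : Fr x) (hx : Gens x) (hn : 2 ≤ n) {N : ℕ} {g : G}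
    (hg : KN G N g) : g ∈ ker x := by
  by_contra hcon
  obtain ⟨Q, hQ, hle, hgQ⟩ := exists_prime_one (ker_cvx x) hcon
  letI := coLO hQ
  have h1 : coAct hQ g = 1 := by
    refine sound hfr hx hn (coAct hQ) (coAct_sup hQ) ?_ hg
    intro a b
    apply Aut.ext
    intro p
    rw [Aut.one_apply]
    change (cm a b) • p = p
    induction p using QuotientGroup.induction_on with
    | H c =>
    change ((QuotientGroup.mk (cm a b * c)) : G ⧸ Q) = QuotientGroup.mk c
    symm
    rw [QuotientGroup.eq, ← mul_assoc]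
    exact hle (ker_cj hx c _ (ker_cm hx a b)).1
  have h2 : coAct hQ g (QuotientGroup.mk 1) = QuotientGroup.mk 1 := by rw [h1]; rfl
  have h3 : ((QuotientGroup.mk (g * 1)) : G ⧸ Q) = QuotientGroup.mk 1 := h2
  rw [mul_one] at h3
  have h4 := QuotientGroup.eq.mp h3.symm
  rw [inv_one, one_mul] at h4
  exact hgQ h4

theorem KN_iff {x : Fin n → G} (hfr : Fr x) (hx : Gens x) (hn : 2 ≤ n) (g : G) :
    KN G (n * n + n * 2 + 1) g ↔ g ∈ ker x :=
  ⟨ker_of_KN hfr hx hn, KN_of_ker⟩

end Def

section Dim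

/-- The boundary ideal. -/
def bd {G : Type} [Group G] [Lattice G] (g : G) (I : G → Prop) : G → Prop := fun f =>
  ∃ a b : G, I (av a ⊓ av g) ∧ (∀ y, I (av y ⊓ av g) → I (av b ⊓ av y)) ∧ av f ≤ av a * av b

/-- Boundary dimension `< j`. -/
def Dm {G : Type} [Group G] [Lattice G] : ℕ → (G → Prop) → Prop
  | 0, I => ∀ u, I u
  | j + 1, I => ∀ g, Dm j (bd g I)

variable {G : Type} [Group G] [Lattice G] [MulLeftMono G] [MulRightMono G] {n : ℕ}

/-- Polar modulo `I`. -/
def pol (I : Subgroup G) (hI : IsCvx I) (u : G) (hu : 1 ≤ u) : Subgroup G where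
  carrier := {a | av a ⊓ u ∈ I}
  mul_mem' := by
    intro x y hx hy
    refine hI.conv _ (I.mul_mem (I.mul_mem hx hy) hx) _ (le_inf (one_le_av _) hu) ?_
    calc av (x * y) ⊓ u ≤ (av x * av y * av x) ⊓ u := inf_le_inf_right _ (av_mul_le x y)
      _ ≤ ((av x * av y) ⊓ u) * (av x ⊓ u) :=
          inf_mul_le hu (one_le_mul2 (one_le_av x) (one_le_av y)) (one_le_av x)
      _ ≤ _ := mulRR (inf_mul_le hu (one_le_av x) (one_le_av y)) _
  one_mem' := by
    change av 1 ⊓ u ∈ I
    rw [av_one, inf_eq_left.mpr hu]; exact I.one_mem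
  inv_mem' := by
    intro x hx
    change av x⁻¹ ⊓ u ∈ I
    rw [av_inv]; exact hx

theorem mem_pol {I : Subgroup G} {hI : IsCvx I} {u : G} {hu : 1 ≤ u} {a : G} :
    a ∈ pol I hI u hu ↔ av a ⊓ u ∈ I := Iff.rfl

theorem pol_cvx {I : Subgroup G} (hI : IsCvx I) {u : G} (hu : 1 ≤ u) : IsCvx (pol I hI u hu) := by
  constructor
  · intro a ha
    rw [mem_pol] at ha ⊢
    refine hI.conv _ ha _ (le_inf (one_le_av _) hu) (inf_le_inf_right _ ?_)
    rw [av_of_one_le le_sup_right]
    exact sup_le (le_av a) (one_le_av a)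
  · intro a ha b hb hba
    rw [mem_pol] at ha ⊢
    refine hI.conv _ ha _ (le_inf (one_le_av _) hu) (inf_le_inf_right _ ?_)
    rw [av_of_one_le hb]
    exact hba.trans (le_av a)

theorem le_pol {I : Subgroup G} (hI : IsCvx I) {u : G} (hu : 1 ≤ u) : I ≤ pol I hI u hu := by
  intro a ha
  exact hI.conv _ (hI.av_mem ha) _ (le_inf (one_le_av _) hu) inf_le_left

/-- The double polar of `g` modulo `I`. -/
def dpol (I : Subgroup G) (hI : IsCvx I) (g : G) : Subgroup G where
  carrier := {b | ∀ y, av y ⊓ av g ∈ I → av b ⊓ av y ∈ I}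
  mul_mem' := by
    intro a b ha hb y hy
    exact (pol I hI (av y) (one_le_av y)).mul_mem (ha y hy) (hb y hy)
  one_mem' := by
    intro y _
    exact (pol I hI (av y) (one_le_av y)).one_mem
  inv_mem' := by
    intro a ha y hy
    exact (pol I hI (av y) (one_le_av y)).inv_mem (ha y hy)

theorem dpol_cvx {I : Subgroup G} (hI : IsCvx I) (g : G) : IsCvx (dpol I hI g) := by
  constructor
  · intro a ha y hy
    exact (pol_cvx hI (one_le_av y)).sup_one a (ha y hy)
  · intro a ha b hb hba y hy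
    exact (pol_cvx hI (one_le_av y)).conv a (ha y hy) b hb hba

theorem le_dpol {I : Subgroup G} (hI : IsCvx I) (g : G) : I ≤ dpol I hI g := by
  intro a ha y _
  exact le_pol hI (one_le_av y) ha

theorem cj_mem_of_ker_le {x : Fin n → G} (hx : Gens x) {Y : Subgroup G} (hY : ker x ≤ Y) (a : G)
    {y : G} (hy : y ∈ Y) : cj a y ∈ Y := by
  have : cj a y = y * cm y a := by unfold cj cm; group
  rw [this]
  exact Y.mul_mem hy (hY (ker_cm hx y a))

theorem bd_sub {x : Fin n → G} (hx : Gens x) {I : Subgroup G} (hI : IsCvx I) (hk : ker x ≤ I)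
    (g : G) : ∃ J : Subgroup G, IsCvx J ∧ I ≤ J ∧ (∀ f, f ∈ J ↔ bd g (fun u => u ∈ I) f) ∧
      (∀ a, av a ⊓ av g ∈ I → a ∈ J) ∧ g ∈ J := by
  let X := pol I hI (av g) (one_le_av g)
  let Y := dpol I hI g
  have hX : IsCvx X := pol_cvx hI _
  have hY : IsCvx Y := dpol_cvx hI g
  have hIX : I ≤ X := le_pol hI _
  have hIY : I ≤ Y := le_dpol hI g
  have hgY : g ∈ Y := by
    intro y hy
    rw [inf_comm]; exact hy
  let J : Subgroup G :=
    { carrier := {f | ∃ a ∈ X, ∃ b ∈ Y, av f ≤ av a * av b}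
      mul_mem' := by
        rintro f₁ f₂ ⟨a₁, ha₁, b₁, hb₁, h₁⟩ ⟨a₂, ha₂, b₂, hb₂, h₂⟩
        set A₁ := av a₁
        set A₂ := av a₂
        set B₁ := av b₁
        set B₂ := av b₂
        have hA₁ : A₁ ∈ X := hX.av_mem ha₁
        have hA₂ : A₂ ∈ X := hX.av_mem ha₂
        have hB₁ : B₁ ∈ Y := hY.av_mem hb₁
        have hB₂ : B₂ ∈ Y := hY.av_mem hb₂
        have e : (A₁ * B₁) * (A₂ * B₂) * (A₁ * B₁) =
            (A₁ * A₂ * A₁) * (cj A₁ (cj A₂ B₁ * B₂) * B₁) := by
          unfold cj; group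
        refine ⟨A₁ * A₂ * A₁, X.mul_mem (X.mul_mem hA₁ hA₂) hA₁,
          cj A₁ (cj A₂ B₁ * B₂) * B₁, Y.mul_mem (cj_mem_of_ker_le hx (hk.trans hIY) _
            (Y.mul_mem (cj_mem_of_ker_le hx (hk.trans hIY) _ hB₁) hB₂)) hB₁, ?_⟩
        calc av (f₁ * f₂) ≤ av f₁ * av f₂ * av f₁ := av_mul_le _ _
          _ ≤ (A₁ * B₁) * (A₂ * B₂) * (A₁ * B₁) := mul_le_mul' (mul_le_mul' h₁ h₂) h₁
          _ = _ := e
          _ ≤ _ := mul_le_mul' (le_av _) (le_av _)
      one_mem' := ⟨1, X.one_mem, 1, Y.one_mem, by rw [av_one, mul_one]⟩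
      inv_mem' := by
        rintro f ⟨a, ha, b, hb, h⟩
        exact ⟨a, ha, b, hb, by rw [av_inv]; exact h⟩ }
  have hJmem : ∀ f, f ∈ J ↔ ∃ a ∈ X, ∃ b ∈ Y, av f ≤ av a * av b := fun f => Iff.rfl
  have hXJ : ∀ a ∈ X, a ∈ J := fun a ha => ⟨a, ha, 1, Y.one_mem, by rw [av_one, mul_one]⟩
  have hYJ : ∀ b ∈ Y, b ∈ J := fun b hb => ⟨1, X.one_mem, b, hb, by rw [av_one, one_mul]⟩
  refine ⟨J, ⟨?_, ?_⟩, fun a ha => hXJ a (hIX ha), ?_, hXJ, hYJ g hgY⟩
  · rintro f ⟨a, ha, b, hb, h⟩
    refine ⟨a, ha, b, hb, ?_⟩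
    rw [av_of_one_le le_sup_right]
    exact sup_le ((le_av f).trans h) ((one_le_av f).trans h)
  · rintro f ⟨a, ha, b, hb, h⟩ f' hf' hle
    refine ⟨a, ha, b, hb, ?_⟩
    rw [av_of_one_le hf']
    exact (hle.trans (le_av f)).trans h
  · intro f
    constructor
    · rintro ⟨a, ha, b, hb, h⟩; exact ⟨a, b, ha, hb, h⟩
    · rintro ⟨a, b, ha, hb, h⟩; exact ⟨a, ha, b, hb, h⟩

/-- Descending to a smaller prime. -/
theorem descend {I Q : Subgroup G} (hQ : IsPrm Q) (hI : IsCvx I)
    (htop : Q ≠ ⊤) {g : G} (hg : g ∈ Q) (hX : ∀ a, av a ⊓ av g ∈ I → a ∈ Q) :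
    ∃ Q' : Subgroup G, IsPrm Q' ∧ I ≤ Q' ∧ Q' < Q := by
  obtain ⟨z, hz⟩ : ∃ z, z ∉ Q := by
    by_contra hcon
    push Not at hcon
    exact htop ((Subgroup.eq_top_iff' Q).mpr hcon)
  have hz' : av z ∉ Q := by rwa [hQ.toIsCvx.av_mem_iff]
  obtain ⟨Q', hQ', hIQ', hd⟩ := exists_prime hI (S := {y | ∃ u, 1 ≤ u ∧ u ∉ Q ∧ y = av g ⊓ u})
    ⟨_, av z, one_le_av z, hz', rfl⟩
    (by rintro y ⟨u, hu, _, rfl⟩; exact le_inf (one_le_av g) hu)
    (by
      rintro y ⟨u, hu, huQ, rfl⟩ y' ⟨u', hu', huQ', rfl⟩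
      refine ⟨u ⊓ u', le_inf hu hu', ?_, ?_⟩
      · intro h
        rcases hQ.inf_mem h with h | h
        · exact huQ h
        · exact huQ' h
      · rw [inf_inf_inf_comm, inf_idem])
    (by
      rintro y ⟨u, hu, huQ, rfl⟩ hy
      apply huQ
      apply hX
      rw [av_of_one_le hu, inf_comm]; exact hy)
  refine ⟨Q', hQ', hIQ', lt_of_le_of_ne ?_ ?_⟩
  · intro y hy
    by_contra hyQ
    have hyQ' : av y ∉ Q := by rwa [hQ.toIsCvx.av_mem_iff]
    refine hd (av g ⊓ av y) ⟨av y, one_le_av y, hyQ', rfl⟩ ?_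
    exact hQ'.conv _ (hQ'.toIsCvx.av_mem hy) _ (le_inf (one_le_av _) (one_le_av _)) inf_le_right
  · rintro rfl
    refine hd (av g ⊓ av z) ⟨av z, one_le_av z, hz', rfl⟩ ?_
    exact hQ'.conv _ (hQ'.toIsCvx.av_mem hg) _ (le_inf (one_le_av _) (one_le_av _)) inf_le_left

theorem chain_of_not_Dm {x : Fin n → G} (hx : Gens x) (j : ℕ) :
    ∀ I : Subgroup G, IsCvx I → ker x ≤ I → ¬ Dm j (fun u => u ∈ I) →
      ∃ Q : ℕ → Subgroup G, (∀ i ≤ j, IsPrm (Q i)) ∧ (∀ i < j, Q i < Q (i + 1)) ∧ Q j ≠ ⊤ ∧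
        I ≤ Q 0 := by
  induction j with
  | zero =>
    intro I hI hk hD
    have : ∃ u, u ∉ I := by
      by_contra hcon
      push Not at hcon
      exact hD hcon
    obtain ⟨u, hu⟩ := this
    obtain ⟨Q, hQ, h1, h2⟩ := exists_prime_one hI hu
    refine ⟨fun _ => Q, fun i _ => hQ, fun i hi => by omega, ?_, h1⟩
    rintro h
    change Q = ⊤ at h
    apply h2
    rw [h]
    exact Subgroup.mem_top u
  | succ j ih =>
    intro I hI hk hD
    have : ∃ g, ¬ Dm j (bd g (fun u => u ∈ I)) := by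
      by_contra hcon
      push Not at hcon
      exact hD hcon
    obtain ⟨g, hg⟩ := this
    obtain ⟨J, hJ, hIJ, hJm, hXJ, hgJ⟩ := bd_sub hx hI hk g
    have e : bd g (fun u => u ∈ I) = fun u => u ∈ J := by
      funext f
      exact propext (hJm f).symm
    rw [e] at hg
    obtain ⟨Q, hQ, hlt, htop, hJQ⟩ := ih J hJ (hk.trans hIJ) hg
    have h0 : Q 0 ≠ ⊤ := by
      intro h0
      apply htop
      have : ∀ i ≤ j, Q 0 ≤ Q i := by
        intro i
        induction i with
        | zero => intro _; exact le_rfl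
        | succ i ih' => intro hi; exact (ih' (by omega)).trans (hlt i (by omega)).le
      exact top_le_iff.mp (h0 ▸ this j le_rfl)
    obtain ⟨Q', hQ', hIQ', hlt'⟩ := descend (hQ 0 (Nat.zero_le _)) hI h0 (hJQ hgJ)
      (fun a ha => hJQ (hXJ a ha))
    refine ⟨fun i => Nat.casesOn i Q' Q, ?_, ?_, htop, hIQ'⟩
    · intro i hi
      cases i with
      | zero => exact hQ'
      | succ i => exact hQ i (by omega)
    · intro i hi
      cases i with
      | zero => exact hlt'
      | succ i => exact hlt i (by omega)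

/-- Primes are isolated. -/
theorem IsPrm.isolated {Q : Subgroup G} (hQ : IsPrm Q) {a : G} {k : ℕ} (hk : k ≠ 0)
    (h : a ^ k ∈ Q) : a ∈ Q := by
  have hC := hQ.toIsCvx
  have h1k : leQ Q 1 (a ^ k) := leQ_of_mem hC (by simpa using h)
  have hk1 : leQ Q (a ^ k) 1 := leQ_of_mem' hC (by simpa using h)
  have key : leQ Q a 1 ∧ leQ Q 1 a → a ∈ Q := by
    rintro ⟨h1, h2⟩
    have := leQ_antisymm hC h2 h1
    simpa using this
  rcases hQ.prime a with h1 | h1
  · have ha : leQ Q a 1 := by unfold leQ; simpa using h1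
    have hpow : ∀ k : ℕ, k ≠ 0 → leQ Q (a ^ k) a := by
      intro k
      induction k with
      | zero => intro h; exact absurd rfl h
      | succ k ih =>
        intro _
        by_cases hk : k = 0
        · subst hk; simpa using leQ_of_le hC (le_refl a)
        · refine leQ_trans hC ?_ (ih hk)
          have := (leQ_mul_left (Q := Q) (a ^ k) a 1).mpr ha
          rwa [mul_one, ← pow_succ] at this
    exact key ⟨ha, leQ_trans hC h1k (hpow k hk)⟩
  · have ha : leQ Q 1 a := by unfold leQ; simpa using h1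
    have hpow : ∀ k : ℕ, k ≠ 0 → leQ Q a (a ^ k) := by
      intro k
      induction k with
      | zero => intro h; exact absurd rfl h
      | succ k ih =>
        intro _
        by_cases hk : k = 0
        · subst hk; simpa using leQ_of_le hC (le_refl a)
        · refine leQ_trans hC (ih hk) ?_
          have := (leQ_mul_left (Q := Q) (a ^ k) 1 a).mpr ha
          rwa [mul_one, ← pow_succ] at this
    exact key ⟨leQ_trans hC (hpow k hk) hk1, ha⟩

theorem IsPrm.isolated_int {Q : Subgroup G} (hQ : IsPrm Q) {a : G} {k : ℤ} (hk : k ≠ 0)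
    (h : a ^ k ∈ Q) : a ∈ Q := by
  apply hQ.isolated (k := k.natAbs) (by simpa using hk)
  rcases Int.natAbs_eq k with h1 | h1
  · rw [h1, zpow_natCast] at h; exact h
  · rw [h1, zpow_neg, zpow_natCast] at h
    exact (Subgroup.inv_mem_iff Q).mp h

end Dim

end Pool.Agent.Helper838.FL
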