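import Pool.Agent.Helper838.FL4

/-!
The rank bound for chains of primes, and evaluation at integer points.
-/

set_option autoImplicit false
set_option linter.unusedSectionVars false

namespace Pool.Agent.Helper838.FL

section Rank

variable {G : Type} [Group G] [Lattice G] [MulLeftMono G] [MulRightMono G] {n : ℕ}

theorem rank_false {x : Fin n → G} (hx : Gens x) (Q : ℕ → Subgroup G)
    (hQ : ∀ i ≤ n, IsPrm (Q i)) (hlt : ∀ i < n, Q i < Q (i + 1)) (htop : Q n ≠ ⊤)
    (hk : ker x ≤ Q 0) : False := by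
  classical
  haveI hnorm : (Q 0).Normal := ⟨fun y hy g => by
    have h1 := cj_mem_of_ker_le hx hk g⁻¹ hy
    unfold cj at h1
    rwa [inv_inv] at h1⟩
  have hcomm : ∀ a b : G ⧸ Q 0, a * b = b * a := by
    intro a b
    induction a using QuotientGroup.induction_on with
    | H a =>
    induction b using QuotientGroup.induction_on with
    | H b =>
    rw [← QuotientGroup.mk_mul, ← QuotientGroup.mk_mul, QuotientGroup.eq]
    have e : (a * b)⁻¹ * (b * a) = cm b a := by unfold cm; group
    rw [e]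
    exact hk (ker_cm hx b a)
  letI : CommGroup (G ⧸ Q 0) := { (inferInstance : Group (G ⧸ Q 0)) with mul_comm := hcomm }
  let π : G → Additive (G ⧸ Q 0) := fun g => Additive.ofMul (QuotientGroup.mk g)
  have hπmul : ∀ a b, π (a * b) = π a + π b := fun a b => rfl
  have hπinv : ∀ a, π a⁻¹ = - π a := fun a => rfl
  have hπone : π 1 = 0 := rfl
  have hπeq : ∀ a b, π a = π b ↔ a⁻¹ * b ∈ Q 0 := fun a b => QuotientGroup.eq
  have hmono : ∀ i j, i ≤ j → j ≤ n → Q i ≤ Q j := by
    intro i j hij
    induction j with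
    | zero => intro _; rw [Nat.le_zero.mp hij]
    | succ j ih =>
      intro hj
      rcases Nat.le_succ_iff_eq_or_le.mp hij with h | h
      · rw [h]
      · exact (ih h (by omega)).trans (hlt j (by omega)).le
  -- all values are integral combinations
  let L : (Fin n → ℤ) →ₗ[ℤ] Additive (G ⧸ Q 0) := Fintype.linearCombination ℤ (fun j => π (x j))
  have hspan : ∀ g : G, ∃ α : Fin n → ℤ, π g = L α := by
    refine hx (fun g => ∃ α : Fin n → ℤ, π g = L α) ?_ ?_ ?_ ?_ ?_
    · intro i
      refine ⟨Pi.single i 1, ?_⟩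
      simp [L, Fintype.linearCombination_apply_single]
    · exact ⟨0, by rw [map_zero, hπone]⟩
    · rintro a b ⟨α, hα⟩ ⟨β, hβ⟩
      exact ⟨α + β, by rw [map_add, hπmul, hα, hβ]⟩
    · rintro a ⟨α, hα⟩
      exact ⟨-α, by rw [map_neg, hπinv, hα]⟩
    · rintro a b ⟨α, hα⟩ ⟨β, hβ⟩
      rcases leQ_total (hQ 0 (Nat.zero_le _)) a b with h | h
      · refine ⟨β, ?_⟩
        rw [← hβ]
        symm
        rw [hπeq]
        exact sup_mem_of_leQ h
      · refine ⟨α, ?_⟩
        rw [← hα]
        symm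
        rw [hπeq, sup_comm]
        exact sup_mem_of_leQ h
  -- witnesses
  have hz : ∀ i : Fin (n + 1), ∃ z : G, z ∉ Q i ∧ ((i : ℕ) < n → z ∈ Q (i + 1)) := by
    intro i
    by_cases hi : (i : ℕ) < n
    · obtain ⟨z, hz1, hz2⟩ := SetLike.exists_of_lt (hlt i hi)
      exact ⟨z, hz2, fun _ => hz1⟩
    · have hi' : (i : ℕ) = n := by have := i.2; omega
      have : ∃ z, z ∉ Q n := by
        by_contra hcon
        push Not at hcon
        exact htop ((Subgroup.eq_top_iff' _).mpr hcon)
      obtain ⟨z, hz⟩ := this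
      exact ⟨z, by rw [hi']; exact hz, fun h => absurd h hi⟩
  choose z hz1 hz2 using hz
  choose α hα using fun i => hspan (z i)
  have hdep : ¬ LinearIndependent ℤ α := by
    intro hli
    have := hli.fintype_card_le_finrank
    simp at this
  obtain ⟨k, hk0, i1, hi1⟩ := Fintype.not_linearIndependent_iff.mp hdep
  have hsum : ∑ i, k i • π (z i) = 0 := by
    have h1 : L (∑ i, k i • α i) = 0 := by rw [hk0, map_zero]
    rw [map_sum] at h1
    rw [← h1]
    refine Finset.sum_congr rfl fun i _ => ?_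
    rw [map_smul, hα]
  -- largest index
  let S : Finset (Fin (n + 1)) := Finset.univ.filter (fun i => k i ≠ 0)
  have hSne : S.Nonempty := ⟨i1, by simp [S, hi1]⟩
  let i₀ := S.max' hSne
  have hi₀ : k i₀ ≠ 0 := by
    have := S.max'_mem hSne
    exact (Finset.mem_filter.mp this).2
  have hbig : ∀ i, i₀ < i → k i = 0 := by
    intro i hi
    by_contra h
    have : i ≤ i₀ := S.le_max' i (by simp [S, h])
    exact absurd hi (not_lt.mpr this)
  have hi₀n : (i₀ : ℕ) ≤ n := by have := i₀.2; omega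
  -- the subgroup of values of `Q i₀`
  let P : AddSubgroup (Additive (G ⧸ Q 0)) :=
    { carrier := {v | ∃ g ∈ Q i₀, π g = v}
      add_mem' := by
        rintro a b ⟨g, hg, rfl⟩ ⟨h, hh, rfl⟩
        exact ⟨g * h, (Q i₀).mul_mem hg hh, hπmul g h⟩
      zero_mem' := ⟨1, (Q i₀).one_mem, hπone⟩
      neg_mem' := by
        rintro a ⟨g, hg, rfl⟩
        exact ⟨g⁻¹, (Q i₀).inv_mem hg, hπinv g⟩ }
  have hmem : k i₀ • π (z i₀) ∈ P := by
    have h1 : k i₀ • π (z i₀) = -∑ i ∈ Finset.univ.erase i₀, k i • π (z i) := by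
      rw [← Finset.add_sum_erase _ _ (Finset.mem_univ i₀)] at hsum
      exact eq_neg_of_add_eq_zero_left hsum
    rw [h1]
    apply P.neg_mem
    apply P.sum_mem
    intro i hi
    rcases lt_or_ge i₀ i with h | h
    · rw [hbig i h, zero_smul]; exact P.zero_mem
    · have hne : i ≠ i₀ := Finset.ne_of_mem_erase hi
      have hlt' : i < i₀ := lt_of_le_of_ne h hne
      have hlt'' : (i : ℕ) < i₀ := hlt'
      apply P.zsmul_mem
      exact ⟨z i, hmono (i + 1) i₀ hlt'' hi₀n (hz2 i (by omega)), rfl⟩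
  obtain ⟨g, hg, hgz⟩ := hmem
  have hpow : ∀ (a : G) (m : ℤ), π (a ^ m) = m • π a := by
    intro a m
    change Additive.ofMul ((QuotientGroup.mk (a ^ m)) : G ⧸ Q 0) = _
    rw [QuotientGroup.mk_zpow]
    rfl
  rw [← hpow, hπeq] at hgz
  have h1 : (z i₀) ^ (k i₀) ∈ Q i₀ := by
    have := (Q i₀).mul_mem hg (hmono 0 i₀ (Nat.zero_le _) hi₀n hgz)
    rwa [mul_inv_cancel_left] at this
  exact hz1 i₀ ((hQ i₀ hi₀n).isolated_int hi₀ h1)

/-- The boundary dimension of the quotient of an `n`-generated ℓ-group. -/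
theorem Dm_ker {x : Fin n → G} (hx : Gens x) : Dm n (fun u => u ∈ ker x) := by
  by_contra hcon
  obtain ⟨Q, hQ, hlt, htop, hk⟩ := chain_of_not_Dm hx n (ker x) (ker_cvx x) le_rfl hcon
  exact rank_false hx Q hQ hlt htop hk

end Rank

section Eval

variable {G : Type} [Group G] [Lattice G] [MulLeftMono G] [MulRightMono G] {m : ℕ}

/-- Evaluation at integer points. -/
theorem evals {x : Fin m → G} (hfr : Fr x) (hx : Gens x) (hm : 2 ≤ m) (N : ℕ) :
    ∃ f : (Fin m → ℤ) → G → ℤ, (∀ v, f v 1 = 0) ∧ (∀ v a b, f v (a * b) = f v a + f v b) ∧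
      (∀ v a, f v a⁻¹ = - f v a) ∧ (∀ v a b, f v (a ⊔ b) = max (f v a) (f v b)) ∧
      (∀ v i, f v (x i) = v i) ∧ (∀ v g, KN G N g → f v g = 0) := by
  choose Φ hsup hgen using fun v : Fin m → ℤ =>
    hfr (Aut ℤ) (fun i => (OrderIso.addRight (v i) : ℤ ≃o ℤ))
  have htr : ∀ v g, ∀ z : ℤ, Φ v g z = z + Φ v g 0 := by
    intro v
    apply hx
    · intro i z
      rw [hgen]
      change z + v i = z + (0 + v i)
      ring
    · intro z; rw [map_one, Aut.one_apply, Aut.one_apply, add_zero]
    · intro a b ha hb z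
      rw [map_mul, Aut.mul_apply, Aut.mul_apply, ha (Φ v b z), hb z, ha (Φ v b 0)]
      ring
    · intro a ha z
      apply (Φ v a).inj
      have h0 := ha ((Φ v a⁻¹) 0)
      have h1 := ha (z + (Φ v a⁻¹) 0)
      rw [h1]
      rw [map_inv, Aut.apply_inv] at h0 ⊢
      linarith
    · intro a b ha hb z
      rw [hsup, Aut.sup_apply, Aut.sup_apply, ha z, hb z, max_add_add_left]
  have hmul : ∀ v a b, Φ v (a * b) 0 = Φ v a 0 + Φ v b 0 := by
    intro v a b
    rw [map_mul, Aut.mul_apply, htr v a]; ring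
  have hone : ∀ v, Φ v 1 0 = 0 := fun v => by rw [map_one, Aut.one_apply]
  have hinv : ∀ v a, Φ v a⁻¹ 0 = - Φ v a 0 := by
    intro v a
    have := hmul v a a⁻¹
    rw [mul_inv_cancel, hone] at this
    linarith
  refine ⟨fun v g => Φ v g 0, hone, hmul, hinv, ?_, ?_, ?_⟩
  · intro v a b
    change Φ v (a ⊔ b) 0 = _
    rw [hsup, Aut.sup_apply]
  · intro v i
    change Φ v (x i) 0 = _
    rw [hgen]
    change (0 : ℤ) + v i = v i
    ring
  · intro v g hg
    have h1 : Φ v g = 1 := by
      refine sound hfr hx hm (Φ v) (hsup v) ?_ hg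
      intro a b
      apply Aut.ext
      intro z
      rw [htr, Aut.one_apply]
      unfold cm
      rw [hmul, hmul, hmul, hinv, hinv]
      ring
    change Φ v g 0 = 0
    rw [h1, Aut.one_apply]

/-- The family of vectors vanishing before `j`. -/
def Van {m : ℕ} (j : ℕ) (v : Fin m → ℤ) : Prop := ∀ i : Fin m, (i : ℕ) < j → v i = 0

theorem not_Dm {x : Fin m → G} (hx : Gens x) (f : (Fin m → ℤ) → G → ℤ) (f1 : ∀ v, f v 1 = 0)
    (fmul : ∀ v a b, f v (a * b) = f v a + f v b) (finv : ∀ v a, f v a⁻¹ = - f v a)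
    (fsup : ∀ v a b, f v (a ⊔ b) = max (f v a) (f v b)) (fx : ∀ v i, f v (x i) = v i) :
    ∀ (l j : ℕ), j + l < m → ∀ I : G → Prop, I 1 → (∀ u, I u → ∀ v, Van j v → f v u = 0) →
      ¬ Dm l I := by
  have finf : ∀ v a b, f v (a ⊓ b) = min (f v a) (f v b) := by
    intro v a b
    have e : a ⊓ b = (a⁻¹ ⊔ b⁻¹)⁻¹ := by rw [inv_sup, inv_inv, inv_inv]
    rw [e, finv, fsup, finv, finv]
    rcases le_total (f v a) (f v b) with h | h
    · rw [min_eq_left h, max_eq_left (by linarith), neg_neg]
    · rw [min_eq_right h, max_eq_right (by linarith), neg_neg]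
  have fav : ∀ v a, f v (av a) = |f v a| := by
    intro v a
    unfold av
    rw [fsup, finv]; rfl
  have fmono : ∀ v a b, a ≤ b → f v a ≤ f v b := by
    intro v a b hab
    have := fsup v a b
    rw [sup_eq_right.mpr hab] at this
    rw [this]; exact le_max_left _ _
  -- Lipschitz estimate
  have hlip : ∀ v w : Fin m → ℤ, ∀ g : G, ∃ L : ℤ, ∀ k : ℕ,
      |f ((k : ℤ) • v + w) g - k * f v g| ≤ L := by
    intro v w
    apply hx
    · intro i
      refine ⟨|w i|, fun k => ?_⟩
      rw [fx, fx]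
      simp
    · exact ⟨0, fun k => by rw [f1, f1]; simp⟩
    · rintro a b ⟨L, hL⟩ ⟨L', hL'⟩
      refine ⟨L + L', fun k => ?_⟩
      rw [fmul, fmul]
      have := abs_add_le (f ((k : ℤ) • v + w) a - k * f v a) (f ((k : ℤ) • v + w) b - k * f v b)
      have e : f ((k : ℤ) • v + w) a + f ((k : ℤ) • v + w) b - k * (f v a + f v b) =
        (f ((k : ℤ) • v + w) a - k * f v a) + (f ((k : ℤ) • v + w) b - k * f v b) := by ring
      rw [e]
      linarith [hL k, hL' k]
    · rintro a ⟨L, hL⟩
      refine ⟨L, fun k => ?_⟩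
      rw [finv, finv]
      have e : -f ((k : ℤ) • v + w) a - k * -f v a = -(f ((k : ℤ) • v + w) a - k * f v a) := by ring
      rw [e, abs_neg]; exact hL k
    · rintro a b ⟨L, hL⟩ ⟨L', hL'⟩
      refine ⟨max L L', fun k => ?_⟩
      rw [fsup, fsup]
      have e : (k : ℤ) * max (f v a) (f v b) = max (k * f v a) (k * f v b) := by
        rw [mul_max_of_nonneg _ _ (by positivity)]
      rw [e]
      exact (abs_max_sub_max_le_max _ _ _ _).trans (max_le_max (hL k) (hL' k))
  intro l
  induction l with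
  | zero =>
    intro j hj I _ hI hD
    let i : Fin m := ⟨j, by omega⟩
    have h1 := hI (x i) (hD (x i)) (Pi.single i 1) (by
      intro i' hi'
      rw [Pi.single_apply, if_neg]
      rintro rfl
      simp [i] at hi')
    rw [fx] at h1
    simp at h1
  | succ l ih =>
    intro j hj I hI1 hI hD
    let i : Fin m := ⟨j, by omega⟩
    refine ih (j + 1) (by omega) (bd (x i ⊔ 1) I) ?_ ?_ (hD (x i ⊔ 1))
    · refine ⟨1, 1, ?_, ?_, ?_⟩
      · rw [av_one, inf_eq_left.mpr (one_le_av _)]; exact hI1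
      · intro y _
        rw [av_one, inf_eq_left.mpr (one_le_av _)]; exact hI1
      · rw [av_one, mul_one]
    · rintro u ⟨a, b, ha, hb, hu⟩ v hv
      have hvi : v i = 0 := hv i (by simp [i])
      have hvj : Van j v := fun i' hi' => hv i' (by omega)
      -- general limiting argument
      have hlim : ∀ (c : G) (t : ℤ), (∀ k : ℕ, 1 ≤ k →
          f ((k : ℤ) • v + Pi.single i t) c = 0) → f v c = 0 := by
        intro c t hc
        obtain ⟨L, hL⟩ := hlip v (Pi.single i t) c
        by_contra hne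
        have hpos : 1 ≤ |f v c| := Int.one_le_abs hne
        have h1 := hL (L.toNat + 1)
        rw [hc _ (by omega), zero_sub, abs_neg, abs_mul] at h1
        have h2 : |((L.toNat + 1 : ℕ) : ℤ)| = L.toNat + 1 := by
          rw [abs_of_nonneg (by positivity)]; push_cast; ring
        rw [h2] at h1
        have h3 : L ≤ L.toNat := Int.self_le_toNat L
        nlinarith
      have hvan : ∀ (k : ℕ) (t : ℤ), Van j ((k : ℤ) • v + Pi.single i t) := by
        intro k t i' hi'
        have : i' ≠ i := by rintro rfl; simp [i] at hi'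
        simp [Pi.single_apply, this, hvj i' hi']
      have hval : ∀ (k : ℕ) (t : ℤ), ((k : ℤ) • v + Pi.single i t : Fin m → ℤ) i = t := by
        intro k t
        simp [hvi]
      -- `a` vanishes
      have hfa : f v a = 0 := by
        apply hlim a 1
        intro k _
        have h1 := hI _ ha _ (hvan k 1)
        rw [finf, fav, fav, fsup, fx, f1, hval] at h1
        have h2 : |max (1 : ℤ) 0| = 1 := by norm_num
        rw [h2] at h1
        by_contra hne
        have hpos : 1 ≤ |f ((k : ℤ) • v + Pi.single i 1) a| := Int.one_le_abs hne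
        rw [min_eq_right hpos] at h1
        exact absurd h1 one_ne_zero
      -- `b` vanishes
      have hfb : f v b = 0 := by
        apply hlim b (-1)
        intro k _
        have h0 : I (av ((x i)⁻¹ ⊔ 1) ⊓ av (x i ⊔ 1)) := by
          rw [av_of_one_le le_sup_right, av_of_one_le le_sup_right, inf_comm, inf_pos_neg]
          exact hI1
        have h1 := hI _ (hb _ h0) _ (hvan k (-1))
        rw [finf, fav, fav, fsup, finv, fx, f1, hval] at h1
        have h2 : |max (- (-1 : ℤ)) 0| = 1 := by norm_num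
        rw [h2] at h1
        by_contra hne
        have hpos : 1 ≤ |f ((k : ℤ) • v + Pi.single i (-1)) b| := Int.one_le_abs hne
        rw [min_eq_right hpos] at h1
        exact absurd h1 one_ne_zero
      have h3 := fmono v _ _ hu
      rw [fmul, fav, fav, fav, hfa, hfb, abs_zero, add_zero] at h3
      exact abs_nonpos_iff.mp h3

end Eval

end Pool.Agent.Helper838.FL
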