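import Pool.Agent.Helper838.FL5

/-!
First-order definability of the relations used, uniformly in the ℓ-group.
-/

set_option autoImplicit false
set_option linter.unusedSectionVars false

namespace Pool.Agent.Helper838.FL

open FirstOrder

/-- The language of the problem. -/
abbrev Lg : FirstOrder.Language := FirstOrder.Language.mk (fun _ => Fin 3) (fun _ => Empty)

/-- The structure of the problem. -/
@[reducible] def str (G : Type) [Group G] [Lattice G] : Lg.Structure G :=
  { funMap := fun {k} (i : Fin 3) (x : Fin k → G) =>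
      if i = 0 then (List.ofFn x).prod
      else if i = 1 then ((List.ofFn x).prod)⁻¹
      else (List.ofFn x).getD 0 1 ⊔ (List.ofFn x).getD 1 1,
    RelMap := fun {k} (r : Empty) (_ : Fin k → G) => r.elim }

attribute [local instance] str

/-- Bundled ℓ-groups. -/
structure LG where
  T : Type
  [g : Group T]
  [l : Lattice T]
  [ml : MulLeftMono T]
  [mr : MulRightMono T]

attribute [instance] LG.g LG.l LG.ml LG.mr

/-- Uniformly term-definable functions. -/
def TF (F : (G : LG) → (ℕ → G.T) → G.T) : Prop :=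
  ∃ t : Lg.Term ℕ, ∀ (G : LG) (v : ℕ → G.T), t.realize v = F G v

/-- Uniformly first-order relations. -/
def FO (R : (G : LG) → (ℕ → G.T) → Prop) : Prop :=
  ∃ φ : Lg.Formula ℕ, ∀ (G : LG) (v : ℕ → G.T), φ.Realize v ↔ R G v

/-- prepend a value -/
def cns {A : Type} (x : A) (v : ℕ → A) : ℕ → A
  | 0 => x
  | n + 1 => v n

theorem TF.var (i : ℕ) : TF (fun _ v => v i) := ⟨Language.Term.var i, fun _ _ => rfl⟩

theorem TF.one : TF (fun _ _ => 1) := by
  refine ⟨Language.Term.func (l := 0) (0 : Fin 3) Fin.elim0, fun G v => ?_⟩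
  rw [Language.Term.realize_func]
  change (if (0 : Fin 3) = 0 then _ else _) = _
  rw [if_pos rfl]
  simp

theorem TF.mul {F F' : (G : LG) → (ℕ → G.T) → G.T} (h : TF F) (h' : TF F') :
    TF (fun G v => F G v * F' G v) := by
  obtain ⟨t, ht⟩ := h
  obtain ⟨t', ht'⟩ := h'
  refine ⟨Language.Term.func (l := 2) (0 : Fin 3) ![t, t'], fun G v => ?_⟩
  rw [Language.Term.realize_func]
  change (if (0 : Fin 3) = 0 then _ else _) = _
  rw [if_pos rfl]
  simp [ht, ht', List.ofFn_succ]

theorem TF.inv {F : (G : LG) → (ℕ → G.T) → G.T} (h : TF F) :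
    TF (fun G v => (F G v)⁻¹) := by
  obtain ⟨t, ht⟩ := h
  refine ⟨Language.Term.func (l := 1) (1 : Fin 3) ![t], fun G v => ?_⟩
  rw [Language.Term.realize_func]
  change (if (1 : Fin 3) = 0 then _ else (if (1 : Fin 3) = 1 then _ else _)) = _
  rw [if_neg (by decide), if_pos rfl]
  simp [ht, List.ofFn_succ]

theorem TF.sup {F F' : (G : LG) → (ℕ → G.T) → G.T} (h : TF F) (h' : TF F') :
    TF (fun G v => F G v ⊔ F' G v) := by
  obtain ⟨t, ht⟩ := h
  obtain ⟨t', ht'⟩ := h'
  refine ⟨Language.Term.func (l := 2) (2 : Fin 3) ![t, t'], fun G v => ?_⟩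
  rw [Language.Term.realize_func]
  change (if (2 : Fin 3) = 0 then _ else (if (2 : Fin 3) = 1 then _ else _)) = _
  rw [if_neg (by decide), if_neg (by decide)]
  simp [ht, ht', List.ofFn_succ]

theorem TF.congr {F F' : (G : LG) → (ℕ → G.T) → G.T} (h : TF F) (e : ∀ G v, F' G v = F G v) :
    TF F' := by
  obtain ⟨t, ht⟩ := h
  exact ⟨t, fun G v => by rw [e, ht]⟩

theorem TF.inf {F F' : (G : LG) → (ℕ → G.T) → G.T} (h : TF F) (h' : TF F') :
    TF (fun G v => F G v ⊓ F' G v) :=
  (h.inv.sup h'.inv).inv.congr fun G v => by rw [inv_sup, inv_inv, inv_inv]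

theorem TF.av {F : (G : LG) → (ℕ → G.T) → G.T} (h : TF F) : TF (fun G v => av (F G v)) :=
  h.sup h.inv

theorem TF.cm {F F' : (G : LG) → (ℕ → G.T) → G.T} (h : TF F) (h' : TF F') :
    TF (fun G v => cm (F G v) (F' G v)) :=
  ((h.inv.mul h'.inv).mul h).mul h'

theorem FO.congr {R R' : (G : LG) → (ℕ → G.T) → Prop} (h : FO R) (e : ∀ G v, R' G v ↔ R G v) :
    FO R' := by
  obtain ⟨φ, hφ⟩ := h
  exact ⟨φ, fun G v => by rw [e, hφ]⟩

theorem FO.eq {F F' : (G : LG) → (ℕ → G.T) → G.T} (h : TF F) (h' : TF F') :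
    FO (fun G v => F G v = F' G v) := by
  obtain ⟨t, ht⟩ := h
  obtain ⟨t', ht'⟩ := h'
  refine ⟨Language.Term.equal t t', fun G v => ?_⟩
  rw [Language.Formula.realize_equal, ht, ht']

theorem FO.le {F F' : (G : LG) → (ℕ → G.T) → G.T} (h : TF F) (h' : TF F') :
    FO (fun G v => F G v ≤ F' G v) :=
  (FO.eq (h.sup h') h').congr fun _ _ => sup_eq_right.symm

theorem FO.not {R : (G : LG) → (ℕ → G.T) → Prop} (h : FO R) : FO (fun G v => ¬ R G v) := by
  obtain ⟨φ, hφ⟩ := h
  exact ⟨φ.not, fun G v => by rw [Language.Formula.realize_not, hφ]⟩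

theorem FO.imp {R R' : (G : LG) → (ℕ → G.T) → Prop} (h : FO R) (h' : FO R') :
    FO (fun G v => R G v → R' G v) := by
  obtain ⟨φ, hφ⟩ := h
  obtain ⟨φ', hφ'⟩ := h'
  exact ⟨φ.imp φ', fun G v => by rw [Language.Formula.realize_imp, hφ, hφ']⟩

theorem FO.and {R R' : (G : LG) → (ℕ → G.T) → Prop} (h : FO R) (h' : FO R') :
    FO (fun G v => R G v ∧ R' G v) :=
  (h.imp h'.not).not.congr fun G v => by tauto

theorem FO.subst {R : (G : LG) → (ℕ → G.T) → Prop} (h : FO R)
    {F : ℕ → (G : LG) → (ℕ → G.T) → G.T} (hF : ∀ i, TF (F i)) :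
    FO (fun G v => R G (fun i => F i G v)) := by
  obtain ⟨φ, hφ⟩ := h
  choose t ht using hF
  refine ⟨Language.BoundedFormula.subst φ t, fun G v => ?_⟩
  change _ ↔ R G (fun i => F i G v)
  rw [← hφ]
  unfold Language.Formula.Realize
  rw [Language.BoundedFormula.realize_subst]
  simp only [ht]

theorem FO.all {R : (G : LG) → (ℕ → G.T) → Prop} (h : FO R) :
    FO (fun G v => ∀ x : G.T, R G (cns x v)) := by
  obtain ⟨φ, hφ⟩ := h
  let g : ℕ → ℕ ⊕ Unit := fun n => match n with
    | 0 => Sum.inr ()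
    | n + 1 => Sum.inl n
  refine ⟨(Language.Formula.relabel g φ).iAlls Unit, fun G v => ?_⟩
  rw [Language.Formula.realize_iAlls]
  have key : ∀ x : G.T, (fun a => Sum.elim v (fun _ : Unit => x) a) ∘ g = cns x v := by
    intro x
    funext n
    cases n with
    | zero => rfl
    | succ n => rfl
  constructor
  · intro h x
    have h1 := h (fun _ => x)
    rw [Language.Formula.realize_relabel, key, hφ] at h1
    exact h1
  · intro h i
    have h1 := h (i ())
    rw [← hφ, ← key (i ()), ← Language.Formula.realize_relabel] at h1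
    exact h1

theorem FO.ex {R : (G : LG) → (ℕ → G.T) → Prop} (h : FO R) :
    FO (fun G v => ∃ x : G.T, R G (cns x v)) :=
  (h.not.all).not.congr fun G v => by simp only [not_forall, not_not]

theorem FO_HN (N : ℕ) : FO (fun G v => HN G.T N (v 0)) := by
  induction N with
  | zero => exact FO.eq (TF.var 0) TF.one
  | succ N ih =>
    have h1 : FO (fun G v => HN G.T N (v 0) ∧ v 3 = Pool.Agent.Helper838.FL.av
        (Pool.Agent.Helper838.FL.cm (v 2) (v 1)) ⊔ v 0) :=
      ih.and (FO.eq (TF.var 3) ((((TF.var 2).cm (TF.var 1)).av).sup (TF.var 0)))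
    exact h1.ex.ex.ex

theorem FO_KN (N : ℕ) : FO (fun G v => KN G.T N (v 0)) := by
  have h0 : FO (fun G v => HN G.T N (v 1)) :=
    (FO_HN N).subst (F := fun i _ v => v (i + 1)) (fun i => TF.var (i + 1))
  have h1 : FO (fun G v => HN G.T N (v 1) ∧ Pool.Agent.Helper838.FL.av
      (Pool.Agent.Helper838.FL.cm (v 3) (v 2)) ≤ v 1 ∧ v 0 * v 1 = v 1 * v 0 ∧
      Pool.Agent.Helper838.FL.av (v 4) ≤ v 0) :=
    h0.and ((FO.le ((TF.var 3).cm (TF.var 2)).av (TF.var 1)).and
      ((FO.eq ((TF.var 0).mul (TF.var 1)) ((TF.var 1).mul (TF.var 0))).and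
        (FO.le (TF.var 4).av (TF.var 0))))
  exact h1.ex.ex.all.all

/-- Uniformly definable families of predicates with parameters. -/
def FOP (I : (G : LG) → (ℕ → G.T) → (G.T → Prop)) : Prop :=
  FO (fun G w => I G (fun i => w (i + 1)) (w 0))

theorem FOP.app {I : (G : LG) → (ℕ → G.T) → (G.T → Prop)} (h : FOP I)
    {F : (G : LG) → (ℕ → G.T) → G.T} (hF : TF F) (k : ℕ) :
    FO (fun G w => I G (fun i => w (i + k)) (F G w)) := by
  have := FO.subst h (F := fun i => match i with
    | 0 => F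
    | i + 1 => fun _ v => v (i + k)) (by
      intro i
      cases i with
      | zero => exact hF
      | succ i => exact TF.var (i + k))
  exact this

theorem FO_Dm (l : ℕ) : ∀ I : (G : LG) → (ℕ → G.T) → (G.T → Prop), FOP I →
    FO (fun G v => Dm l (I G v)) := by
  induction l with
  | zero => intro I hI; exact FO.all hI
  | succ l ih =>
    intro I hI
    have hI' : FOP (fun G w => bd (w 0) (I G (fun i => w (i + 1)))) := by
      unfold FOP
      -- `y :: b :: a :: f :: g :: v`
      have h1 : FO (fun G w => I G (fun i => w (i + 5)) (Pool.Agent.Helper838.FL.av (w 0) ⊓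
          Pool.Agent.Helper838.FL.av (w 4))) :=
        hI.app ((TF.var 0).av.inf (TF.var 4).av) 5
      have h2 : FO (fun G w => I G (fun i => w (i + 5)) (Pool.Agent.Helper838.FL.av (w 1) ⊓
          Pool.Agent.Helper838.FL.av (w 0))) :=
        hI.app ((TF.var 1).av.inf (TF.var 0).av) 5
      have h3 := (h1.imp h2).all
      -- `b :: a :: f :: g :: v`
      have h4 : FO (fun G w => I G (fun i => w (i + 4)) (Pool.Agent.Helper838.FL.av (w 1) ⊓
          Pool.Agent.Helper838.FL.av (w 3))) :=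
        hI.app ((TF.var 1).av.inf (TF.var 3).av) 4
      have h5 : FO (fun G w => Pool.Agent.Helper838.FL.av (w 2) ≤
          Pool.Agent.Helper838.FL.av (w 1) * Pool.Agent.Helper838.FL.av (w 0)) :=
        FO.le (TF.var 2).av ((TF.var 1).av.mul (TF.var 0).av)
      exact (h4.and (h3.and h5)).ex.ex
    exact FO.all (ih _ hI')

theorem FO_main (N n : ℕ) : FO (fun G _ => Dm n (KN G.T N)) :=
  FO_Dm n (fun G _ => KN G.T N) (FO_KN N)

/-- Transfer along elementary equivalence. -/
theorem FO.transfer {R : (G : LG) → (ℕ → G.T) → Prop} (h : FO R) {G H : LG}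
    (hGH : @Language.ElementarilyEquivalent Lg G.T H.T (str G.T) (str H.T)) :
    R G (fun _ => 1) ↔ R H (fun _ => 1) := by
  obtain ⟨φ, hφ⟩ := h
  let one : Lg.Term Empty := Language.Term.func (l := 0) (0 : Fin 3) Fin.elim0
  have hone : ∀ (G : LG) (v : Empty → G.T), one.realize v = 1 := by
    intro G v
    rw [Language.Term.realize_func]
    change (if (0 : Fin 3) = 0 then _ else _) = _
    rw [if_pos rfl]
    simp
  have hs : ∀ G : LG, G.T ⊨ (Language.BoundedFormula.subst φ (fun _ => one) : Lg.Sentence) ↔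
      R G (fun _ => 1) := by
    intro G
    rw [← hφ]
    unfold Language.Sentence.Realize Language.Formula.Realize
    rw [Language.BoundedFormula.realize_subst]
    simp only [hone]
  rw [← hs G, ← hs H]
  exact Language.elementarilyEquivalent_iff.mp hGH _

end Pool.Agent.Helper838.FL
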