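import Pool.Agent.Helper838.FL6

/-!
Free ℓ-groups of different finite ranks are not elementarily equivalent.
-/

set_option autoImplicit false
set_option linter.unusedSectionVars false

namespace Pool.Agent.Helper838.FL

open FirstOrder

attribute [local instance] str

/-- The universal property of the problem. -/
def Free {G : Type} [Group G] [Lattice G] {n : ℕ} (ι : Fin n → G) : Prop :=
  ∀ (K : Type) [Group K] [Lattice K] [MulLeftMono K] [MulRightMono K] (f : Fin n → K),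
      ∃! φ : G →* K, (∀ a b : G, φ (a ⊔ b) = φ a ⊔ φ b) ∧ (∀ a b : G, φ (a ⊓ b) = φ a ⊓ φ b) ∧
        ∀ i, φ (ι i) = f i

section

variable {G : Type} [Group G] [Lattice G] [MulLeftMono G] [MulRightMono G] {n : ℕ}

theorem Free.fr {x : Fin n → G} (h : Free x) : Fr x := by
  intro K _ _ _ _ f
  obtain ⟨φ, ⟨h1, _, h3⟩, _⟩ := h K f
  exact ⟨φ, h1, h3⟩

theorem Free.gens {x : Fin n → G} (h : Free x) : Gens x := by
  intro P hx h1 hm hi hs
  let S : Subgroup G :=
    { carrier := {g | P g}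
      mul_mem' := fun {a b} ha hb => hm a b ha hb
      one_mem' := h1
      inv_mem' := fun {a} ha => hi a ha }
  have hsup : ∀ ⦃a b : G⦄, a ∈ S → b ∈ S → a ⊔ b ∈ S := fun a b ha hb => hs a b ha hb
  have hinf : ∀ ⦃a b : G⦄, a ∈ S → b ∈ S → a ⊓ b ∈ S := by
    intro a b ha hb
    have e : a ⊓ b = (a⁻¹ ⊔ b⁻¹)⁻¹ := by rw [inv_sup, inv_inv, inv_inv]
    rw [e]
    exact S.inv_mem (hsup (S.inv_mem ha) (S.inv_mem hb))
  let _ : Lattice S := Subtype.lattice hsup hinf
  have _ : MulLeftMono S := ⟨fun a b c hbc => by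
    have h' : (b : G) ≤ c := hbc
    change (a : G) * b ≤ a * c
    exact mulLL h' _⟩
  have _ : MulRightMono S := ⟨fun a b c hbc => by
    have h' : (b : G) ≤ c := hbc
    change (b : G) * a ≤ c * a
    exact mulRR h' _⟩
  obtain ⟨φ, ⟨h2, h3, h4⟩, _⟩ := h S (fun i => ⟨x i, hx i⟩)
  obtain ⟨ψ, _, huniq⟩ := h G x
  have e1 := huniq (MonoidHom.id G) ⟨fun a b => rfl, fun a b => rfl, fun i => rfl⟩
  have e2 := huniq (S.subtype.comp φ) ⟨fun a b => by
      change ((φ (a ⊔ b) : S) : G) = _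
      rw [h2]; rfl, fun a b => by
      change ((φ (a ⊓ b) : S) : G) = _
      rw [h3]; rfl, fun i => by
      change ((φ (x i) : S) : G) = _
      rw [h4]⟩
  intro g
  have e3 : (φ g : G) = g := by
    have := DFunLike.congr_fun (e2.trans e1.symm) g
    exact this
  rw [← e3]
  exact (φ g).2

theorem HN_one (N : ℕ) : HN G N 1 := by
  induction N with
  | zero => rfl
  | succ N ih =>
    refine ⟨1, 1, 1, ih, ?_⟩
    have : cm (1 : G) 1 = 1 := by unfold cm; group
    rw [this, av_one, sup_idem]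

theorem KN_one (N : ℕ) : KN G (N + 1) 1 := by
  intro y₁ y₂
  refine ⟨av (cm y₁ y₂) ⊔ 1, 1, ⟨y₁, y₂, 1, HN_one N, rfl⟩, le_sup_left, ?_, ?_⟩
  · rw [one_mul, mul_one]
  · rw [av_one]

theorem comm_of_gens {x : Fin n → G} (hx : Gens x) (h : ∀ i j, x i * x j = x j * x i) (a b : G) :
    a * b = b * a := by
  have step : ∀ c : G, (∀ i, x i * c = c * x i) → ∀ a, a * c = c * a := by
    intro c hc
    refine hx (fun a => a * c = c * a) hc ?_ ?_ ?_ ?_
    · rw [one_mul, mul_one]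
    · intro a b ha hb
      rw [mul_assoc, hb, ← mul_assoc, ha, mul_assoc]
    · intro a ha
      have : a⁻¹ * (a * c) * a⁻¹ = a⁻¹ * (c * a) * a⁻¹ := by rw [ha]
      calc a⁻¹ * c = a⁻¹ * (c * a) * a⁻¹ := by group
        _ = a⁻¹ * (a * c) * a⁻¹ := this.symm
        _ = c * a⁻¹ := by group
    · intro a b ha hb
      rw [sup_mul, mul_sup, ha, hb]
  exact step b (fun i => (step (x i) (fun j => h j i) b).symm) a

theorem not_comm {x : Fin n → G} (hfr : Fr x) (hn : 2 ≤ n) : ¬ ∀ a b : G, a * b = b * a := by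
  intro hcomm
  let i₁ : Fin n := ⟨0, by omega⟩
  let i₂ : Fin n := ⟨1, by omega⟩
  have hi12 : i₂ ≠ i₁ := by
    intro h
    have := congrArg Fin.val h
    simp [i₁, i₂] at this
  let β : Fin n → Aut ℚ := fun i =>
    if i = i₁ then (OrderIso.addRight 1 : ℚ ≃o ℚ) else (OrderIso.mulRight₀ 2 (by norm_num) : ℚ ≃o ℚ)
  obtain ⟨φ, _, hφ⟩ := hfr (Aut ℚ) β
  have h1 := congrArg φ (hcomm (x i₁) (x i₂))
  rw [map_mul, map_mul, hφ, hφ] at h1
  have hb1 : β i₁ = (OrderIso.addRight 1 : ℚ ≃o ℚ) := if_pos rfl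
  have hb2 : β i₂ = (OrderIso.mulRight₀ 2 (by norm_num) : ℚ ≃o ℚ) := if_neg hi12
  rw [hb1, hb2] at h1
  have h2 := DFunLike.congr_fun h1 (0 : ℚ)
  have h3 : (0 : ℚ) * 2 + 1 = (0 + 1) * 2 := h2
  norm_num at h3

end

theorem main_lt {n m : ℕ} (hn : 0 < n) (hnm : n < m)
    (G : Type) [Group G] [Lattice G] [MulLeftMono G] [MulRightMono G] (x : Fin n → G)
    (hG : Free x)
    (H : Type) [Group H] [Lattice H] [MulLeftMono H] [MulRightMono H] (y : Fin m → H)
    (hH : Free y) :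
    ¬ @Language.ElementarilyEquivalent Lg G H (str G) (str H) := by
  intro hEE
  let 𝒢 : LG := ⟨G⟩
  let ℋ : LG := ⟨H⟩
  by_cases h1 : n = 1
  · -- the case of rank one
    subst h1
    have hFO : FO (fun G _ => ∀ a b : G.T, a * b = b * a) :=
      (FO.eq ((TF.var 1).mul (TF.var 0)) ((TF.var 0).mul (TF.var 1))).all.all
    have h2 := (hFO.transfer (G := 𝒢) (H := ℋ) hEE).mp (by
      intro a b
      refine comm_of_gens hG.gens ?_ a b
      intro i j
      rw [Subsingleton.elim i j])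
    exact not_comm hH.fr (by omega) h2
  · have hn2 : 2 ≤ n := by omega
    have hm2 : 2 ≤ m := by omega
    have h2 := ((FO_main (n * n + n * 2 + 1) n).transfer (G := 𝒢) (H := ℋ) hEE).mp (by
      have e : KN G (n * n + n * 2 + 1) = fun u => u ∈ ker x := by
        funext g
        exact propext (KN_iff hG.fr hG.gens hn2 g)
      change Dm n (KN G (n * n + n * 2 + 1))
      rw [e]
      exact Dm_ker hG.gens)
    obtain ⟨f, f1, fmul, finv, fsup, fx, fK⟩ := evals hH.fr hH.gens hm2 (n * n + n * 2 + 1)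
    refine not_Dm hH.gens f f1 fmul finv fsup fx n 0 (by omega) (KN H (n * n + n * 2 + 1)) ?_ ?_ h2
    · exact KN_one _
    · intro u hu v _
      exact fK v u hu

end Pool.Agent.Helper838.FL
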