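import Mathlib
import Pool.Agent.Helper838.BSWSun

set_option autoImplicit false

namespace Pool.Agent.Helper838.Shadow3

open Finset
open scoped FinsetFamily

variable {n : ℕ}

/-- large intersecting 3-graphs are covered by two points. -/
theorem cover : ∃ C : ℕ, ∀ (n : ℕ) (F : Finset (Finset (Fin n))), (∀ A ∈ F, A.card = 3) →
    (∀ A ∈ F, ∀ B ∈ F, (A ∩ B).Nonempty) → C < F.card →
    ∃ x y : Fin n, x ≠ y ∧ ∀ A ∈ F, x ∈ A ∨ y ∈ A := by
  obtain ⟨C, hC⟩ := BSW.sun_bound 0 4 3
  refine ⟨C, fun n F h3 hint hcard => ?_⟩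
  have hsun : BSW.HasSun (0 + 1) 4 F := by
    by_contra hno
    have h := hC (Fin n) F (fun A hA => by rw [h3 A hA]) hno
    simp at h
    omega
  obtain ⟨K, P, hP1, hP2, hP3, hP4⟩ := hsun
  have hK : ∀ A ∈ F, ¬ Disjoint A K := by
    intro A hA hdis
    have h1 : ∀ i, 1 ≤ (A ∩ P i).card := by
      intro i
      obtain ⟨v, hv⟩ := hint A hA _ (hP4 i)
      rw [Finset.mem_inter, Finset.mem_union] at hv
      rcases hv with ⟨hvA, hvK | hvP⟩
      · exact absurd hvK (Finset.disjoint_left.mp hdis hvA)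
      · exact Finset.card_pos.mpr ⟨v, Finset.mem_inter.mpr ⟨hvA, hvP⟩⟩
    have h2 : ∑ i : Fin 4, (A ∩ P i).card = (univ.biUnion (fun i => A ∩ P i)).card := by
      rw [Finset.card_biUnion]
      intro i _ k _ hik
      exact (hP3 i k hik).mono Finset.inter_subset_right Finset.inter_subset_right
    have h3' : (univ.biUnion (fun i => A ∩ P i)).card ≤ A.card := by
      refine Finset.card_le_card ?_
      intro x hx
      obtain ⟨i, _, hi⟩ := Finset.mem_biUnion.mp hx
      exact Finset.mem_of_mem_inter_left hi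
    have h4 : ∑ i : Fin 4, 1 ≤ ∑ i : Fin 4, (A ∩ P i).card := Finset.sum_le_sum fun i _ => h1 i
    simp at h4
    rw [h3 A hA] at h3'
    omega
  have hA0 := hP4 0
  have hc0 : (K ∪ P 0).card = 3 := h3 _ hA0
  have hK2 : K.card ≤ 2 := by
    rw [Finset.card_union_of_disjoint (hP2 0)] at hc0
    have := hP1 0
    omega
  obtain ⟨K', hK'1, hK'2, hK'3⟩ := Finset.exists_subsuperset_card_eq
    (Finset.subset_union_left : K ⊆ K ∪ P 0) hK2 (by omega)
  obtain ⟨x, y, hxy, rfl⟩ := Finset.card_eq_two.mp hK'3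
  refine ⟨x, y, hxy, fun A hA => ?_⟩
  obtain ⟨v, hvA, hvK⟩ := Finset.not_disjoint_iff.mp (hK A hA)
  have := hK'1 hvK
  rw [Finset.mem_insert, Finset.mem_singleton] at this
  rcases this with rfl | rfl
  · left; exact hvA
  · right; exact hvA

/-- vertex set of a family. -/
def VV (G : Finset (Finset (Fin n))) : Finset (Fin n) := G.biUnion id

lemma mem_VV {G : Finset (Finset (Fin n))} {v : Fin n} : v ∈ VV G ↔ ∃ e ∈ G, v ∈ e := by
  unfold VV; simp

lemma star_eq {e : Finset (Fin n)} {c v : Fin n} (he : e.card = 2) (hc : c ∈ e) (hv : v ∈ e)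
    (hcv : v ≠ c) : e = {c, v} := by
  symm
  refine Finset.eq_of_subset_of_card_le ?_ ?_
  · intro z hz
    rw [Finset.mem_insert, Finset.mem_singleton] at hz
    rcases hz with rfl | rfl <;> assumption
  · rw [he, Finset.card_pair hcv.symm]

lemma star_card (G : Finset (Finset (Fin n))) (c : Fin n) (h2 : ∀ e ∈ G, e.card = 2)
    (hc : ∀ e ∈ G, c ∈ e) (hne : G.Nonempty) : (VV G).card = G.card + 1 := by
  have hcV : c ∈ VV G := by
    obtain ⟨e, he⟩ := hne
    exact mem_VV.mpr ⟨e, he, hc e he⟩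
  have h1 : G = ((VV G).erase c).image (fun v => ({c, v} : Finset (Fin n))) := by
    ext e
    constructor
    · intro he
      have h3 : 1 < e.card := by rw [h2 e he]; norm_num
      obtain ⟨v, hv, hvc⟩ := Finset.exists_mem_ne h3 c
      rw [Finset.mem_image]
      exact ⟨v, Finset.mem_erase.mpr ⟨hvc, mem_VV.mpr ⟨e, he, hv⟩⟩,
        (star_eq (h2 e he) (hc e he) hv hvc).symm⟩
    · intro he
      obtain ⟨v, hv, rfl⟩ := Finset.mem_image.mp he
      obtain ⟨hvc, hvV⟩ := Finset.mem_erase.mp hv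
      obtain ⟨e, he, hve⟩ := mem_VV.mp hvV
      rw [← star_eq (h2 e he) (hc e he) hve hvc]; exact he
  have h3 : (((VV G).erase c).image (fun v => ({c, v} : Finset (Fin n)))).card =
      ((VV G).erase c).card := by
    refine Finset.card_image_of_injOn ?_
    intro v hv w hw hvw
    have hv' := (Finset.mem_erase.mp hv).1
    have hvw' : v ∈ ({c, w} : Finset (Fin n)) := by
      rw [← show ({c, v} : Finset (Fin n)) = {c, w} from hvw]; simp
    rw [Finset.mem_insert, Finset.mem_singleton] at hvw'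
    rcases hvw' with h | h
    · exact absurd h hv'
    · exact h
  rw [← h1, Finset.card_erase_of_mem hcV] at h3
  have : 0 < (VV G).card := Finset.card_pos.mpr ⟨c, hcV⟩
  omega

/-- an intersecting family of at least four 2-sets is a star. -/
lemma star_of_four (D : Finset (Finset (Fin n))) (h2 : ∀ e ∈ D, e.card = 2)
    (hint : ∀ e ∈ D, ∀ f ∈ D, (e ∩ f).Nonempty) (h4 : 4 ≤ D.card) : ∃ c, ∀ e ∈ D, c ∈ e := by
  obtain ⟨e0, he0⟩ := Finset.card_pos.mp (show 0 < D.card by omega)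
  obtain ⟨a, b, hab, he⟩ := Finset.card_eq_two.mp (h2 e0 he0)
  by_contra hcon
  push Not at hcon
  obtain ⟨e1, he1, ha1⟩ := hcon a
  obtain ⟨e2, he2, hb2⟩ := hcon b
  have hb1 : b ∈ e1 := by
    obtain ⟨v, hv⟩ := hint e0 he0 e1 he1
    rw [he, Finset.mem_inter, Finset.mem_insert, Finset.mem_singleton] at hv
    rcases hv with ⟨rfl | rfl, hv⟩
    · exact absurd hv ha1
    · exact hv
  have ha2 : a ∈ e2 := by
    obtain ⟨v, hv⟩ := hint e0 he0 e2 he2
    rw [he, Finset.mem_inter, Finset.mem_insert, Finset.mem_singleton] at hv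
    rcases hv with ⟨rfl | rfl, hv⟩
    · exact hv
    · exact absurd hv hb2
  obtain ⟨p, hp⟩ := hint e1 he1 e2 he2
  obtain ⟨hp1, hp2⟩ := Finset.mem_inter.mp hp
  have hpa : p ≠ a := fun h => ha1 (h ▸ hp1)
  have hpb : p ≠ b := fun h => hb2 (h ▸ hp2)
  have e1eq : e1 = {b, p} := star_eq (h2 e1 he1) hb1 hp1 hpb
  have e2eq : e2 = {a, p} := star_eq (h2 e2 he2) ha2 hp2 hpa
  have hsub : D ⊆ powersetCard 2 ({a, b, p} : Finset (Fin n)) := by
    intro e hD
    rw [Finset.mem_powersetCard]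
    refine ⟨?_, h2 e hD⟩
    have m0 := hint e hD e0 he0
    have m1 := hint e hD e1 he1
    have m2 := hint e hD e2 he2
    rw [he] at m0
    rw [e1eq] at m1
    rw [e2eq] at m2
    have k0 : a ∈ e ∨ b ∈ e := by
      obtain ⟨v, hv⟩ := m0
      rw [Finset.mem_inter, Finset.mem_insert, Finset.mem_singleton] at hv
      rcases hv with ⟨hv, rfl | rfl⟩ <;> tauto
    have k1 : b ∈ e ∨ p ∈ e := by
      obtain ⟨v, hv⟩ := m1
      rw [Finset.mem_inter, Finset.mem_insert, Finset.mem_singleton] at hv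
      rcases hv with ⟨hv, rfl | rfl⟩ <;> tauto
    have k2 : a ∈ e ∨ p ∈ e := by
      obtain ⟨v, hv⟩ := m2
      rw [Finset.mem_inter, Finset.mem_insert, Finset.mem_singleton] at hv
      rcases hv with ⟨hv, rfl | rfl⟩ <;> tauto
    have key : (a ∈ e ∧ b ∈ e) ∨ (a ∈ e ∧ p ∈ e) ∨ (b ∈ e ∧ p ∈ e) := by tauto
    rcases key with ⟨h, h'⟩ | ⟨h, h'⟩ | ⟨h, h'⟩
    · rw [star_eq (h2 e hD) h h' hab.symm]
      intro z; simp only [mem_insert, mem_singleton]; tauto
    · rw [star_eq (h2 e hD) h h' hpa]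
      intro z; simp only [mem_insert, mem_singleton]; tauto
    · rw [star_eq (h2 e hD) h h' hpb]
      intro z; simp only [mem_insert, mem_singleton]; tauto
  have h5 := Finset.card_le_card hsub
  rw [Finset.card_powersetCard] at h5
  have h6 : ({a, b, p} : Finset (Fin n)).card ≤ 3 := Finset.card_le_three
  have h7 : ({a, b, p} : Finset (Fin n)).card.choose 2 ≤ Nat.choose 3 2 :=
    Nat.choose_le_choose 2 h6
  have h8 : Nat.choose 3 2 = 3 := by decide
  omega

end Pool.Agent.Helper838.Shadow3
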