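import Mathlib
import Pool.Agent.Helper838.Shadow3A

set_option autoImplicit false

namespace Pool.Agent.Helper838.Shadow3

open Finset
open scoped FinsetFamily

variable {n : ℕ}

theorem lower (F : Finset (Finset (Fin n))) (h3 : ∀ A ∈ F, A.card = 3)
    (hint : ∀ A ∈ F, ∀ B ∈ F, (A ∩ B).Nonempty) (hbig : 26 ≤ F.card) (x y : Fin n) (hxy : x ≠ y)
    (hcov : ∀ A ∈ F, x ∈ A ∨ y ∈ A) :
    F.card + 3 ≤ (∂ F).card ∨ (F.card % 3 = 1 ∧ F.card + 2 ≤ (∂ F).card) := by
  classical
  set F12 := F.filter (fun A => x ∈ A ∧ y ∈ A) with hF12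
  set F1 := F.filter (fun A => y ∉ A) with hF1
  set F2 := F.filter (fun A => x ∉ A) with hF2
  set Y := univ.filter (fun v : Fin n => v ≠ x ∧ v ≠ y ∧ ({x, y, v} : Finset (Fin n)) ∈ F) with hY
  set G1 := F1.image (fun A => A.erase x) with hG1
  set G2 := F2.image (fun A => A.erase y) with hG2
  have hF1x : ∀ A ∈ F1, A ∈ F ∧ x ∈ A ∧ y ∉ A := by
    intro A hA
    obtain ⟨h1, h2⟩ := Finset.mem_filter.mp hA
    have := hcov A h1
    tauto
  have hF2y : ∀ A ∈ F2, A ∈ F ∧ y ∈ A ∧ x ∉ A := by
    intro A hA
    obtain ⟨h1, h2⟩ := Finset.mem_filter.mp hA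
    have := hcov A h1
    tauto
  have hcardF : F.card = F12.card + F1.card + F2.card := by
    have e1 : F = F12 ∪ (F1 ∪ F2) := by
      ext A
      simp only [hF12, hF1, hF2, mem_union, mem_filter]
      tauto
    have e2 : Disjoint F1 F2 := by
      rw [Finset.disjoint_left]
      intro A hA hA'
      exact (hF2y A hA').2.2 (hF1x A hA).2.1
    have e3 : Disjoint F12 (F1 ∪ F2) := by
      rw [Finset.disjoint_left]
      intro A hA hA'
      have := (Finset.mem_filter.mp hA).2
      rcases Finset.mem_union.mp hA' with h | h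
      · exact (hF1x A h).2.2 this.2
      · exact (hF2y A h).2.2 this.1
    rw [e1, Finset.card_union_of_disjoint e3, Finset.card_union_of_disjoint e2]
    ring
  have hG1card : G1.card = F1.card := by
    refine Finset.card_image_of_injOn ?_
    intro A hA B hB hAB
    simp only at hAB
    rw [← Finset.insert_erase (hF1x A hA).2.1, hAB, Finset.insert_erase (hF1x B hB).2.1]
  have hG2card : G2.card = F2.card := by
    refine Finset.card_image_of_injOn ?_
    intro A hA B hB hAB
    simp only at hAB
    rw [← Finset.insert_erase (hF2y A hA).2.1, hAB, Finset.insert_erase (hF2y B hB).2.1]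
  have hYcard : F12.card ≤ Y.card := by
    have : F12 ⊆ Y.image (fun v => ({x, y, v} : Finset (Fin n))) := by
      intro A hA
      obtain ⟨hAF, hxA, hyA⟩ := Finset.mem_filter.mp hA
      have h4 : ({x, y} : Finset (Fin n)).card < A.card := by
        rw [h3 A hAF, Finset.card_pair hxy]; norm_num
      obtain ⟨v, hvA, hv⟩ := Finset.exists_mem_notMem_of_card_lt_card h4
      rw [Finset.mem_insert, Finset.mem_singleton, not_or] at hv
      have hAe : ({x, y, v} : Finset (Fin n)) = A := by
        refine Finset.eq_of_subset_of_card_le ?_ ?_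
        · intro z hz
          rw [Finset.mem_insert, Finset.mem_insert, Finset.mem_singleton] at hz
          rcases hz with rfl | rfl | rfl <;> assumption
        · rw [h3 A hAF, Finset.card_eq_three.mpr ⟨x, y, v, hxy, Ne.symm hv.1, Ne.symm hv.2, rfl⟩]
      rw [Finset.mem_image]
      refine ⟨v, ?_, hAe⟩
      rw [hY, Finset.mem_filter]
      exact ⟨mem_univ _, hv.1, hv.2, hAe ▸ hAF⟩
    exact (Finset.card_le_card this).trans Finset.card_image_le
  -- properties of G1, G2
  have hG1e : ∀ e ∈ G1, e.card = 2 ∧ x ∉ e ∧ y ∉ e ∧ insert x e ∈ F := by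
    intro e he
    obtain ⟨A, hA, rfl⟩ := Finset.mem_image.mp he
    obtain ⟨h4, h5, h6⟩ := hF1x A hA
    refine ⟨?_, Finset.notMem_erase x A, fun h => h6 (Finset.mem_of_mem_erase h), ?_⟩
    · rw [Finset.card_erase_of_mem h5, h3 A h4]
    · rw [Finset.insert_erase h5]; exact h4
  have hG2e : ∀ e ∈ G2, e.card = 2 ∧ x ∉ e ∧ y ∉ e ∧ insert y e ∈ F := by
    intro e he
    obtain ⟨A, hA, rfl⟩ := Finset.mem_image.mp he
    obtain ⟨h4, h5, h6⟩ := hF2y A hA
    refine ⟨?_, fun h => h6 (Finset.mem_of_mem_erase h), Finset.notMem_erase y A, ?_⟩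
    · rw [Finset.card_erase_of_mem h5, h3 A h4]
    · rw [Finset.insert_erase h5]; exact h4
  have hcross : ∀ e ∈ G1, ∀ f ∈ G2, (e ∩ f).Nonempty := by
    intro e he f hf
    obtain ⟨_, he2, he3, he4⟩ := hG1e e he
    obtain ⟨_, hf2, hf3, hf4⟩ := hG2e f hf
    obtain ⟨v, hv⟩ := hint _ he4 _ hf4
    rw [Finset.mem_inter, Finset.mem_insert, Finset.mem_insert] at hv
    refine ⟨v, Finset.mem_inter.mpr ?_⟩
    rcases hv with ⟨rfl | hv1, rfl | hv2⟩
    · exact absurd rfl hxy
    · exact absurd hv2 hf2
    · exact absurd hv1 he3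
    · exact ⟨hv1, hv2⟩
  set D := G1 ∩ G2 with hD
  have hdcard : (G1 ∪ G2).card + D.card = G1.card + G2.card := Finset.card_union_add_card_inter _ _
  -- pieces of the shadow
  have hYv : ∀ v ∈ Y, v ≠ x ∧ v ≠ y ∧ ({x, y, v} : Finset (Fin n)) ∈ F := by
    intro v hv; exact (Finset.mem_filter.mp hv).2
  have hV1 : ∀ v ∈ Y ∪ VV G1, v ≠ x ∧ v ≠ y ∧ ({x, v} : Finset (Fin n)) ∈ ∂ F := by
    intro v hv
    rcases Finset.mem_union.mp hv with hv | hv
    · obtain ⟨h4, h5, h6⟩ := hYv v hv
      refine ⟨h4, h5, ?_⟩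
      rw [Finset.mem_shadow_iff_insert_mem]
      refine ⟨y, ?_, ?_⟩
      · rw [Finset.mem_insert, Finset.mem_singleton]; rintro (h | h)
        · exact hxy h.symm
        · exact h5 h.symm
      · have : insert y ({x, v} : Finset (Fin n)) = {x, y, v} := by
          ext z; simp only [mem_insert, mem_singleton]; tauto
        rw [this]; exact h6
    · obtain ⟨e, he, hve⟩ := mem_VV.mp hv
      obtain ⟨h4, h5, h6, h7⟩ := hG1e e he
      have hvx : v ≠ x := fun h => h5 (h ▸ hve)
      refine ⟨hvx, fun h => h6 (h ▸ hve), ?_⟩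
      rw [Finset.mem_shadow_iff_exists_mem_card_add_one]
      refine ⟨insert x e, h7, ?_, ?_⟩
      · intro z; simp only [mem_insert, mem_singleton]
        rintro (rfl | rfl)
        · left; rfl
        · right; exact hve
      · rw [Finset.card_insert_of_notMem h5, h4, Finset.card_pair hvx.symm]
  have hV2 : ∀ v ∈ Y ∪ VV G2, v ≠ x ∧ v ≠ y ∧ ({y, v} : Finset (Fin n)) ∈ ∂ F := by
    intro v hv
    rcases Finset.mem_union.mp hv with hv | hv
    · obtain ⟨h4, h5, h6⟩ := hYv v hv
      refine ⟨h4, h5, ?_⟩
      rw [Finset.mem_shadow_iff_insert_mem]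
      refine ⟨x, ?_, ?_⟩
      · rw [Finset.mem_insert, Finset.mem_singleton]; rintro (h | h)
        · exact hxy h
        · exact h4 h.symm
      · exact h6
    · obtain ⟨e, he, hve⟩ := mem_VV.mp hv
      obtain ⟨h4, h5, h6, h7⟩ := hG2e e he
      have hvy : v ≠ y := fun h => h6 (h ▸ hve)
      refine ⟨fun h => h5 (h ▸ hve), hvy, ?_⟩
      rw [Finset.mem_shadow_iff_exists_mem_card_add_one]
      refine ⟨insert y e, h7, ?_, ?_⟩
      · intro z; simp only [mem_insert, mem_singleton]
        rintro (rfl | rfl)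
        · left; rfl
        · right; exact hve
      · rw [Finset.card_insert_of_notMem h6, h4, Finset.card_pair hvy.symm]
  have hGs : ∀ e ∈ G1 ∪ G2, x ∉ e ∧ y ∉ e ∧ e ∈ ∂ F := by
    intro e he
    rcases Finset.mem_union.mp he with he | he
    · obtain ⟨h4, h5, h6, h7⟩ := hG1e e he
      refine ⟨h5, h6, ?_⟩
      rw [Finset.mem_shadow_iff_insert_mem]
      exact ⟨x, h5, h7⟩
    · obtain ⟨h4, h5, h6, h7⟩ := hG2e e he
      refine ⟨h5, h6, ?_⟩
      rw [Finset.mem_shadow_iff_insert_mem]
      exact ⟨y, h6, h7⟩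
  set S0 : Finset (Finset (Fin n)) := if Y = ∅ then ∅ else {{x, y}} with hS0
  set S1 := (Y ∪ VV G1).image (fun v => ({x, v} : Finset (Fin n))) with hS1
  set S2 := (Y ∪ VV G2).image (fun v => ({y, v} : Finset (Fin n))) with hS2
  have hS0m : ∀ e ∈ S0, x ∈ e ∧ y ∈ e ∧ e ∈ ∂ F := by
    intro e he
    by_cases hYe : Y = ∅
    · rw [hS0, if_pos hYe] at he; exact absurd he (Finset.notMem_empty _)
    · rw [hS0, if_neg hYe, Finset.mem_singleton] at he
      subst he
      obtain ⟨v, hv⟩ := Finset.nonempty_iff_ne_empty.mpr hYe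
      obtain ⟨h4, h5, h6⟩ := hYv v hv
      refine ⟨by simp, by simp, ?_⟩
      rw [Finset.mem_shadow_iff_insert_mem]
      refine ⟨v, ?_, ?_⟩
      · rw [Finset.mem_insert, Finset.mem_singleton]; tauto
      · have : insert v ({x, y} : Finset (Fin n)) = {x, y, v} := by
          ext z; simp only [mem_insert, mem_singleton]; tauto
        rw [this]; exact h6
  have hS1m : ∀ e ∈ S1, x ∈ e ∧ y ∉ e ∧ e ∈ ∂ F := by
    intro e he
    obtain ⟨v, hv, rfl⟩ := Finset.mem_image.mp he
    obtain ⟨h4, h5, h6⟩ := hV1 v hv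
    refine ⟨by simp, ?_, h6⟩
    rw [Finset.mem_insert, Finset.mem_singleton]; rintro (h | h)
    · exact hxy h.symm
    · exact h5 h.symm
  have hS2m : ∀ e ∈ S2, x ∉ e ∧ y ∈ e ∧ e ∈ ∂ F := by
    intro e he
    obtain ⟨v, hv, rfl⟩ := Finset.mem_image.mp he
    obtain ⟨h4, h5, h6⟩ := hV2 v hv
    refine ⟨?_, by simp, h6⟩
    rw [Finset.mem_insert, Finset.mem_singleton]; rintro (h | h)
    · exact hxy h
    · exact h4 h.symm
  have hS1c : S1.card = (Y ∪ VV G1).card := by
    refine Finset.card_image_of_injOn ?_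
    intro v hv w hw hvw
    have h4 := (hV1 v hv).1
    have h5 : v ∈ ({x, w} : Finset (Fin n)) := by
      rw [← show ({x, v} : Finset (Fin n)) = {x, w} from hvw]; simp
    rw [Finset.mem_insert, Finset.mem_singleton] at h5
    tauto
  have hS2c : S2.card = (Y ∪ VV G2).card := by
    refine Finset.card_image_of_injOn ?_
    intro v hv w hw hvw
    have h4 := (hV2 v hv).2.1
    have h5 : v ∈ ({y, w} : Finset (Fin n)) := by
      rw [← show ({y, v} : Finset (Fin n)) = {y, w} from hvw]; simp
    rw [Finset.mem_insert, Finset.mem_singleton] at h5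
    tauto
  have hsh : S0.card + (Y ∪ VV G1).card + (Y ∪ VV G2).card + (G1 ∪ G2).card ≤ (∂ F).card := by
    have d1 : Disjoint S0 S1 := by
      rw [Finset.disjoint_left]; intro e h h'; exact (hS1m e h').2.1 (hS0m e h).2.1
    have d2 : Disjoint (S0 ∪ S1) S2 := by
      rw [Finset.disjoint_left]; intro e h h'
      rcases Finset.mem_union.mp h with h | h
      · exact (hS2m e h').1 (hS0m e h).1
      · exact (hS2m e h').1 (hS1m e h).1
    have d3 : Disjoint ((S0 ∪ S1) ∪ S2) (G1 ∪ G2) := by
      rw [Finset.disjoint_left]; intro e h h'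
      rcases Finset.mem_union.mp h with h | h
      · rcases Finset.mem_union.mp h with h | h
        · exact (hGs e h').1 (hS0m e h).1
        · exact (hGs e h').1 (hS1m e h).1
      · exact (hGs e h').2.1 (hS2m e h).2.1
    rw [← hS1c, ← hS2c, ← Finset.card_union_of_disjoint d1, ← Finset.card_union_of_disjoint d2,
      ← Finset.card_union_of_disjoint d3]
    refine Finset.card_le_card ?_
    intro e he
    rcases Finset.mem_union.mp he with h | h
    · rcases Finset.mem_union.mp h with h | h
      · rcases Finset.mem_union.mp h with h | h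
        · exact (hS0m e h).2.2
        · exact (hS1m e h).2.2
      · exact (hS2m e h).2.2
    · exact (hGs e h).2.2
  have hYle1 : Y.card ≤ (Y ∪ VV G1).card := Finset.card_le_card Finset.subset_union_left
  have hYle2 : Y.card ≤ (Y ∪ VV G2).card := Finset.card_le_card Finset.subset_union_left
  have hsubV : ∀ G : Finset (Finset (Fin n)), (∀ e ∈ G, e.card = 2) → (VV G).card ≤ 5 →
      G.card ≤ 10 := by
    intro G hG hV
    have h4 : G ⊆ powersetCard 2 (VV G) := by
      intro e he
      rw [Finset.mem_powersetCard]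
      exact ⟨fun v hv => mem_VV.mpr ⟨e, he, hv⟩, hG e he⟩
    have h5 := Finset.card_le_card h4
    rw [Finset.card_powersetCard] at h5
    have h6 := Nat.choose_le_choose 2 hV
    have h7 : Nat.choose 5 2 = 10 := by decide
    omega
  rcases Nat.lt_or_ge D.card 4 with hDs | hDb
  · -- few common edges
    left
    rcases Nat.lt_or_ge (Y ∪ VV G1).card 6 with h1 | h1
    · rcases Nat.lt_or_ge (Y ∪ VV G2).card 6 with h2 | h2
      · exfalso
        have k1 : (VV G1).card ≤ (Y ∪ VV G1).card := Finset.card_le_card Finset.subset_union_right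
        have k2 : (VV G2).card ≤ (Y ∪ VV G2).card := Finset.card_le_card Finset.subset_union_right
        have k3 := hsubV G1 (fun e he => (hG1e e he).1) (by omega)
        have k4 := hsubV G2 (fun e he => (hG2e e he).1) (by omega)
        omega
      · omega
    · omega
  · -- a star
    have hDint : ∀ e ∈ D, ∀ f ∈ D, (e ∩ f).Nonempty := fun e he f hf =>
      hcross e (Finset.mem_inter.mp he).1 f (Finset.mem_inter.mp hf).2
    have hD2 : ∀ e ∈ D, e.card = 2 := fun e he => (hG1e e (Finset.mem_inter.mp he).1).1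
    obtain ⟨c, hc⟩ := star_of_four D hD2 hDint hDb
    have hstar : ∀ e : Finset (Fin n), e.card = 2 → (∀ d ∈ D, (e ∩ d).Nonempty) → c ∈ e := by
      intro e he hed
      by_contra hce
      have h4 : D ⊆ e.image (fun v => ({c, v} : Finset (Fin n))) := by
        intro d hd
        obtain ⟨v, hv⟩ := hed d hd
        obtain ⟨hve, hvd⟩ := Finset.mem_inter.mp hv
        rw [Finset.mem_image]
        exact ⟨v, hve, (star_eq (hD2 d hd) (hc d hd) hvd (fun h => hce (h ▸ hve))).symm⟩
      have h5 := (Finset.card_le_card h4).trans Finset.card_image_le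
      omega
    have hc1 : ∀ e ∈ G1, c ∈ e := fun e he => hstar e (hG1e e he).1 (fun d hd =>
      hcross e he d (Finset.mem_inter.mp hd).2)
    have hc2 : ∀ e ∈ G2, c ∈ e := fun e he => hstar e (hG2e e he).1 (fun d hd => by
      rw [Finset.inter_comm]; exact hcross d (Finset.mem_inter.mp hd).1 e he)
    have hDne : D.Nonempty := Finset.card_pos.mp (by omega)
    obtain ⟨d0, hd0⟩ := hDne
    have hs1 := star_card G1 c (fun e he => (hG1e e he).1) hc1 ⟨d0, (Finset.mem_inter.mp hd0).1⟩
    have hs2 := star_card G2 c (fun e he => (hG2e e he).1) hc2 ⟨d0, (Finset.mem_inter.mp hd0).2⟩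
    have hsD := star_card D c hD2 hc ⟨d0, hd0⟩
    have hVD : VV G1 ∩ VV G2 = VV D := by
      ext v
      rw [Finset.mem_inter, mem_VV, mem_VV, mem_VV]
      constructor
      · rintro ⟨⟨e, he, hve⟩, ⟨f, hf, hvf⟩⟩
        by_cases hvc : v = c
        · subst hvc; exact ⟨d0, hd0, hc d0 hd0⟩
        · have k1 := star_eq (hG1e e he).1 (hc1 e he) hve hvc
          have k2 := star_eq (hG2e f hf).1 (hc2 f hf) hvf hvc
          refine ⟨e, ?_, hve⟩
          rw [hD, Finset.mem_inter]
          refine ⟨he, ?_⟩
          rw [k1, ← k2]; exact hf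
      · rintro ⟨e, he, hve⟩
        exact ⟨⟨e, (Finset.mem_inter.mp he).1, hve⟩, ⟨e, (Finset.mem_inter.mp he).2, hve⟩⟩
    -- inclusion-exclusion
    have i1 := Finset.card_union_add_card_inter (Y ∪ VV G1) (Y ∪ VV G2)
    have i2 : (Y ∪ VV G1) ∩ (Y ∪ VV G2) = Y ∪ VV D := by
      rw [← hVD]; ext v; simp only [mem_inter, mem_union]; tauto
    have i3 := Finset.card_union_add_card_inter Y (VV D)
    rw [i2] at i1
    set U := (Y ∪ VV G1) ∪ (Y ∪ VV G2) with hU
    have i4 : (Y ∩ VV D).card ≤ U.card := by
      refine Finset.card_le_card ?_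
      intro v hv
      rw [hU, Finset.mem_union, Finset.mem_union]
      exact Or.inl (Or.inl (Finset.mem_inter.mp hv).1)
    by_cases hYe : Y = ∅
    · left
      have i5 : (Y ∩ VV D).card = 0 := by rw [hYe]; simp
      have i6 : (VV G1).card ≤ U.card := by
        refine Finset.card_le_card ?_
        intro v hv
        rw [hU, Finset.mem_union, Finset.mem_union]
        exact Or.inl (Or.inr hv)
      have i7 : D.card ≤ G1.card := Finset.card_le_card Finset.inter_subset_left
      omega
    · have i5 : S0.card = 1 := by rw [hS0, if_neg hYe, Finset.card_singleton]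
      by_cases heq : (Y ∩ VV D).card = U.card
      · right
        have i6 : Y ∩ VV D = U := by
          refine Finset.eq_of_subset_of_card_le ?_ (by omega)
          intro v hv
          rw [hU, Finset.mem_union, Finset.mem_union]
          exact Or.inl (Or.inl (Finset.mem_inter.mp hv).1)
        have i7 : U ⊆ Y := by rw [← i6]; exact Finset.inter_subset_left
        have i8 : U ⊆ VV D := by rw [← i6]; exact Finset.inter_subset_right
        have i9 : VV D ⊆ VV G1 := by rw [← hVD]; exact Finset.inter_subset_left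
        have i10 : VV D ⊆ VV G2 := by rw [← hVD]; exact Finset.inter_subset_right
        have j1 : Y ⊆ U := fun v hv => Finset.mem_union_left _ (Finset.mem_union_left _ hv)
        have j2 : VV G1 ⊆ U := fun v hv => Finset.mem_union_left _ (Finset.mem_union_right _ hv)
        have j3 : VV G2 ⊆ U := fun v hv => Finset.mem_union_right _ (Finset.mem_union_right _ hv)
        have c1 : Y.card = U.card := le_antisymm (Finset.card_le_card j1) (Finset.card_le_card i7)
        have c2 : (VV G1).card = U.card :=
          le_antisymm (Finset.card_le_card j2) (Finset.card_le_card (i8.trans i9))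
        have c3 : (VV G2).card = U.card :=
          le_antisymm (Finset.card_le_card j3) (Finset.card_le_card (i8.trans i10))
        have c4 : Y.card ≤ F12.card := by
          have : Y.image (fun v => ({x, y, v} : Finset (Fin n))) ⊆ F12 := by
            intro A hA
            obtain ⟨v, hv, rfl⟩ := Finset.mem_image.mp hA
            obtain ⟨h4, h5, h6⟩ := hYv v hv
            rw [hF12, Finset.mem_filter]
            exact ⟨h6, by simp, by simp⟩
          refine le_trans (le_of_eq ?_) (Finset.card_le_card this)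
          symm
          refine Finset.card_image_of_injOn ?_
          intro v hv w hw hvw
          obtain ⟨h4, h5, h6⟩ := hYv v hv
          have h7 : v ∈ ({x, y, w} : Finset (Fin n)) := by
            rw [← show ({x, y, v} : Finset (Fin n)) = {x, y, w} from hvw]; simp
          rw [Finset.mem_insert, Finset.mem_insert, Finset.mem_singleton] at h7
          tauto
        constructor
        · omega
        · omega
      · left
        omega

end Pool.Agent.Helper838.Shadow3
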