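import Mathlib
import Pool.Agent.Helper838.Shadow3B

set_option autoImplicit false

namespace Pool.Agent.Helper838.Shadow3

open Finset
open scoped FinsetFamily

/-- the members of the construction. -/
def phi (n k : ℕ) : Finset (Fin n) :=
  univ.filter (fun v => (v.val < 3 ∧ v.val ≠ k % 3) ∨ v.val = 3 + k / 3)

def X1 (n : ℕ) : Finset (Fin n) := univ.filter (fun v => v.val < 3)

def chi (n i : ℕ) : Finset (Fin n) := univ.filter (fun v => v.val < 3 ∧ v.val ≠ i)

def psi (n j : ℕ) : Finset (Fin n) :=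
  univ.filter (fun v => v.val = j % 3 ∨ v.val = 3 + j / 3)

lemma mem_phi {n k : ℕ} {v : Fin n} :
    v ∈ phi n k ↔ (v.val < 3 ∧ v.val ≠ k % 3) ∨ v.val = 3 + k / 3 := by simp [phi]
lemma mem_X1 {n : ℕ} {v : Fin n} : v ∈ X1 n ↔ v.val < 3 := by simp [X1]
lemma mem_chi {n i : ℕ} {v : Fin n} : v ∈ chi n i ↔ v.val < 3 ∧ v.val ≠ i := by simp [chi]
lemma mem_psi {n j : ℕ} {v : Fin n} : v ∈ psi n j ↔ v.val = j % 3 ∨ v.val = 3 + j / 3 := by
  simp [psi]

lemma card_phi (n k : ℕ) (h : 3 + k / 3 < n) : (phi n k).card = 3 := by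
  rw [Finset.card_eq_three]
  refine ⟨⟨(k + 1) % 3, by omega⟩, ⟨(k + 2) % 3, by omega⟩, ⟨3 + k / 3, h⟩, ?_, ?_, ?_, ?_⟩
  · intro h; have := congrArg Fin.val h; simp only at this; omega
  · intro h; have := congrArg Fin.val h; simp only at this; omega
  · intro h; have := congrArg Fin.val h; simp only at this; omega
  · ext v
    rw [mem_phi]
    simp only [mem_insert, mem_singleton, Fin.ext_iff]
    omega

lemma card_X1 (n : ℕ) (h : 3 ≤ n) : (X1 n).card = 3 := by
  rw [Finset.card_eq_three]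
  refine ⟨⟨0, by omega⟩, ⟨1, by omega⟩, ⟨2, by omega⟩, ?_, ?_, ?_, ?_⟩
  · intro h; have := congrArg Fin.val h; simp at this
  · intro h; have := congrArg Fin.val h; simp at this
  · intro h; have := congrArg Fin.val h; simp at this
  · ext v
    rw [mem_X1]
    simp only [mem_insert, mem_singleton, Fin.ext_iff]
    omega

/-- the construction. -/
def FF (n m : ℕ) : Finset (Finset (Fin n)) := insert (X1 n) ((range (m - 1)).image (phi n))

theorem FF_card (n m : ℕ) (hm : 2 ≤ m) (hn : m + 8 ≤ 3 * n) : (FF n m).card = m := by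
  unfold FF
  have hk : ∀ k, k < m - 1 → 3 + k / 3 < n := by intro k hk; omega
  have h1 : X1 n ∉ (range (m - 1)).image (phi n) := by
    intro h
    obtain ⟨k, hk1, hk2⟩ := Finset.mem_image.mp h
    have h2 : (⟨3 + k / 3, hk k (Finset.mem_range.mp hk1)⟩ : Fin n) ∈ X1 n := by
      rw [← hk2, mem_phi]; right; rfl
    rw [mem_X1] at h2
    simp only at h2
    omega
  rw [Finset.card_insert_of_notMem h1, Finset.card_image_of_injOn, Finset.card_range]
  · omega
  · intro k hk1 l hl1 hkl
    have hk1' := hk k (Finset.mem_range.mp hk1)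
    have hl1' := hk l (Finset.mem_range.mp hl1)
    have e1 : (⟨3 + k / 3, hk1'⟩ : Fin n) ∈ phi n l := by
      rw [← show phi n k = phi n l from hkl, mem_phi]; right; rfl
    rw [mem_phi] at e1
    simp only at e1
    have e2 : (⟨l % 3, by omega⟩ : Fin n) ∉ phi n k := by
      rw [show phi n k = phi n l from hkl, mem_phi]
      simp only
      omega
    rw [mem_phi] at e2
    simp only at e2
    omega

theorem FF_three (n m : ℕ) (hm : 2 ≤ m) (hn : m + 8 ≤ 3 * n) : ∀ A ∈ FF n m, A.card = 3 := by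
  intro A hA
  rcases Finset.mem_insert.mp hA with rfl | hA
  · exact card_X1 n (by omega)
  · obtain ⟨k, hk, rfl⟩ := Finset.mem_image.mp hA
    have := Finset.mem_range.mp hk
    exact card_phi n k (by omega)

theorem FF_int (n m : ℕ) (hm : 2 ≤ m) (hn : m + 8 ≤ 3 * n) :
    ∀ A ∈ FF n m, ∀ B ∈ FF n m, (A ∩ B).Nonempty := by
  -- every member contains two of the three points `0, 1, 2`
  have h2 : ∀ A ∈ FF n m, ∃ i : ℕ, ∀ v : Fin n, v.val < 3 → v.val ≠ i → v ∈ A := by
    intro A hA
    rcases Finset.mem_insert.mp hA with rfl | hA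
    · exact ⟨3, fun v hv _ => mem_X1.mpr hv⟩
    · obtain ⟨k, hk, rfl⟩ := Finset.mem_image.mp hA
      exact ⟨k % 3, fun v hv hv2 => mem_phi.mpr (Or.inl ⟨hv, hv2⟩)⟩
  intro A hA B hB
  obtain ⟨i, hi⟩ := h2 A hA
  obtain ⟨j, hj⟩ := h2 B hB
  have h3 : 3 ≤ n := by omega
  have : ∃ w : ℕ, w < 3 ∧ w ≠ i ∧ w ≠ j := by
    by_contra hcon
    push Not at hcon
    have a0 := hcon 0 (by norm_num)
    have a1 := hcon 1 (by norm_num)
    have a2 := hcon 2 (by norm_num)
    omega
  obtain ⟨w, hw, hwi, hwj⟩ := this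
  exact ⟨⟨w, by omega⟩, Finset.mem_inter.mpr ⟨hi _ hw hwi, hj _ hw hwj⟩⟩

theorem FF_shadow (n m : ℕ) (hm : 2 ≤ m) (hn : m + 8 ≤ 3 * n) :
    (∂ (FF n m)).card ≤ if m % 3 = 1 then m + 2 else m + 3 := by
  set N := (m + 1) / 3 with hN
  have hsub : ∂ (FF n m) ⊆ (range 3).image (chi n) ∪
      ((range (3 * N)).filter (fun j => ¬ (m % 3 = 2 ∧ j = 3 * (N - 1)))).image (psi n) := by
    intro t ht
    obtain ⟨A, hA, a, ha, rfl⟩ := Finset.mem_shadow_iff.mp ht
    rw [Finset.mem_union, Finset.mem_image, Finset.mem_image]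
    rcases Finset.mem_insert.mp hA with rfl | hA
    · left
      rw [mem_X1] at ha
      refine ⟨a.val, Finset.mem_range.mpr ha, ?_⟩
      ext v
      have hva : v = a ↔ v.val = a.val := Fin.ext_iff
      rw [mem_chi, Finset.mem_erase, mem_X1]
      simp only [ne_eq, hva]
      omega
    · obtain ⟨k, hk, rfl⟩ := Finset.mem_image.mp hA
      have hk' := Finset.mem_range.mp hk
      rw [mem_phi] at ha
      by_cases ha3 : a.val < 3
      · right
        refine ⟨3 * (k / 3) + (3 - k % 3 - a.val), ?_, ?_⟩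
        · rw [Finset.mem_filter, Finset.mem_range]
          omega
        · ext v
          have hva : v = a ↔ v.val = a.val := Fin.ext_iff
          rw [mem_psi, Finset.mem_erase, mem_phi]
          simp only [ne_eq, hva]
          omega
      · left
        refine ⟨k % 3, Finset.mem_range.mpr (Nat.mod_lt _ (by norm_num)), ?_⟩
        ext v
        have hva : v = a ↔ v.val = a.val := Fin.ext_iff
        rw [mem_chi, Finset.mem_erase, mem_phi]
        simp only [ne_eq, hva]
        omega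
  have h1 := (Finset.card_le_card hsub).trans (Finset.card_union_le _ _)
  have h2 : ((range 3).image (chi n)).card ≤ 3 := by
    refine Finset.card_image_le.trans ?_
    simp
  have h3 : (((range (3 * N)).filter (fun j => ¬ (m % 3 = 2 ∧ j = 3 * (N - 1)))).image
      (psi n)).card ≤ if m % 3 = 2 then 3 * N - 1 else 3 * N := by
    refine Finset.card_image_le.trans ?_
    by_cases h : m % 3 = 2
    · rw [if_pos h]
      have h4 : (range (3 * N)).filter (fun j => ¬ (m % 3 = 2 ∧ j = 3 * (N - 1))) ⊆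
          (range (3 * N)).erase (3 * (N - 1)) := by
        intro j hj
        obtain ⟨h5, h6⟩ := Finset.mem_filter.mp hj
        rw [Finset.mem_erase]
        exact ⟨fun h7 => h6 ⟨h, h7⟩, h5⟩
      refine (Finset.card_le_card h4).trans ?_
      rw [Finset.card_erase_of_mem (Finset.mem_range.mpr (by omega)), Finset.card_range]
    · rw [if_neg h]
      refine (Finset.card_filter_le _ _).trans ?_
      rw [Finset.card_range]
  split_ifs at h3 ⊢ <;> omega

/-- minimum shadow of intersecting 3-graphs with `m` edges, `m` large, `m ≤ 3 n - 8`. -/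
theorem mainSmall : ∃ m₀ : ℕ, ∀ m : ℕ, m₀ ≤ m → ∀ n : ℕ, m + 8 ≤ 3 * n →
    IsLeast {x : ℕ | ∃ F : Finset (Finset (Fin n)), (∀ A ∈ F, A.card = 3) ∧
      (∀ A ∈ F, ∀ B ∈ F, (A ∩ B).Nonempty) ∧ F.card = m ∧ (∂ F).card = x}
      (if m % 3 = 1 then m + 2 else m + 3) := by
  obtain ⟨C, hC⟩ := cover
  refine ⟨C + 26, fun m hm n hn => ?_⟩
  have hlow : ∀ F : Finset (Finset (Fin n)), (∀ A ∈ F, A.card = 3) →
      (∀ A ∈ F, ∀ B ∈ F, (A ∩ B).Nonempty) → F.card = m →
      (if m % 3 = 1 then m + 2 else m + 3) ≤ (∂ F).card := by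
    intro F h3 hint hF
    obtain ⟨x, y, hxy, hcov⟩ := hC n F h3 hint (by omega)
    have := lower F h3 hint (by omega) x y hxy hcov
    rw [hF] at this
    split_ifs <;> omega
  constructor
  · refine ⟨FF n m, FF_three n m (by omega) hn, FF_int n m (by omega) hn,
      FF_card n m (by omega) hn, ?_⟩
    exact le_antisymm (FF_shadow n m (by omega) hn)
      (hlow _ (FF_three n m (by omega) hn) (FF_int n m (by omega) hn) (FF_card n m (by omega) hn))
  · rintro x ⟨F, h3, hint, hF, rfl⟩
    exact hlow F h3 hint hF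

end Pool.Agent.Helper838.Shadow3
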