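import Mathlib
import Pool.Agent.Helper838.Shadow3C

set_option autoImplicit false

namespace Pool.Agent.Helper838.Shadow3

open Finset
open scoped FinsetFamily

variable {n : ℕ}

lemma cross_aux (_V G H : Finset (Finset (Fin n))) (W : Finset (Fin n)) (hW : W.card + 2 = n)
    (hn : 18 ≤ n) (hG : ∀ e ∈ G, e.card = 2 ∧ e ⊆ W) (hH : ∀ e ∈ H, e.card = 2 ∧ e ⊆ W)
    (hc : ∀ e ∈ G, ∀ f ∈ H, (e ∩ f).Nonempty) (hHne : H.Nonempty) (hbig : n ≤ G.card + 2) :
    G.card + H.card + 6 ≤ 2 * n := by
  -- `G` is not a star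
  have hex : ∃ e ∈ G, ∃ f ∈ G, ¬ (e ∩ f).Nonempty := by
    by_contra hcon
    push Not at hcon
    obtain ⟨c, hcs⟩ := star_of_four G (fun e he => (hG e he).1) hcon (by omega)
    obtain ⟨e0, he0⟩ := Finset.card_pos.mp (show 0 < G.card by omega)
    have hcW : c ∈ W := (hG e0 he0).2 (hcs e0 he0)
    have h1 : G ⊆ (W.erase c).image (fun v => ({c, v} : Finset (Fin n))) := by
      intro e he
      have h3 : 1 < e.card := by rw [(hG e he).1]; norm_num
      obtain ⟨v, hv, hvc⟩ := Finset.exists_mem_ne h3 c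
      rw [Finset.mem_image]
      exact ⟨v, Finset.mem_erase.mpr ⟨hvc, (hG e he).2 hv⟩,
        (star_eq (hG e he).1 (hcs e he) hv hvc).symm⟩
    have h2 := (Finset.card_le_card h1).trans Finset.card_image_le
    rw [Finset.card_erase_of_mem hcW] at h2
    omega
  obtain ⟨e, he, f, hf, hef⟩ := hex
  have hH6 : H.card ≤ 6 := by
    have h1 : H ⊆ powersetCard 2 (e ∪ f) := by
      intro g hg
      rw [Finset.mem_powersetCard]
      refine ⟨?_, (hH g hg).1⟩
      obtain ⟨v, hv⟩ := hc e he g hg
      obtain ⟨w, hw⟩ := hc f hf g hg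
      obtain ⟨hv1, hv2⟩ := Finset.mem_inter.mp hv
      obtain ⟨hw1, hw2⟩ := Finset.mem_inter.mp hw
      have hwv : w ≠ v := by
        rintro rfl
        exact hef ⟨w, Finset.mem_inter.mpr ⟨hv1, hw1⟩⟩
      rw [star_eq (hH g hg).1 hv2 hw2 hwv]
      intro z; rw [Finset.mem_insert, Finset.mem_singleton, Finset.mem_union]
      rintro (rfl | rfl)
      · left; exact hv1
      · right; exact hw1
    have h2 := Finset.card_le_card h1
    rw [Finset.card_powersetCard] at h2
    have h3 : (e ∪ f).card ≤ 4 := by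
      have := Finset.card_union_le e f
      have := (hG e he).1
      have := (hG f hf).1
      omega
    have h4 := Nat.choose_le_choose 2 h3
    have h5 : Nat.choose 4 2 = 6 := by decide
    omega
  obtain ⟨g, hg⟩ := hHne
  rcases Nat.lt_or_ge H.card 2 with h1 | h1
  · -- one edge
    obtain ⟨a, b, hab, hgab⟩ := Finset.card_eq_two.mp (hH g hg).1
    have haW : a ∈ W := (hH g hg).2 (by rw [hgab]; simp)
    have hbW : b ∈ W := (hH g hg).2 (by rw [hgab]; simp)
    have h2 : G ⊆ (W.erase a).image (fun v => ({a, v} : Finset (Fin n))) ∪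
        ((W.erase a).erase b).image (fun v => ({b, v} : Finset (Fin n))) := by
      intro e he
      rw [Finset.mem_union, Finset.mem_image, Finset.mem_image]
      have h3 : 1 < e.card := by rw [(hG e he).1]; norm_num
      by_cases hae : a ∈ e
      · left
        obtain ⟨v, hv, hvc⟩ := Finset.exists_mem_ne h3 a
        exact ⟨v, Finset.mem_erase.mpr ⟨hvc, (hG e he).2 hv⟩,
          (star_eq (hG e he).1 hae hv hvc).symm⟩
      · right
        have hbe : b ∈ e := by
          obtain ⟨v, hv⟩ := hc e he g hg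
          rw [hgab, Finset.mem_inter, Finset.mem_insert, Finset.mem_singleton] at hv
          rcases hv with ⟨hv, rfl | rfl⟩
          · exact absurd hv hae
          · exact hv
        obtain ⟨v, hv, hvc⟩ := Finset.exists_mem_ne h3 b
        refine ⟨v, ?_, (star_eq (hG e he).1 hbe hv hvc).symm⟩
        rw [Finset.mem_erase, Finset.mem_erase]
        exact ⟨hvc, fun h => hae (h ▸ hv), (hG e he).2 hv⟩
    have h3 := (Finset.card_le_card h2).trans (Finset.card_union_le _ _)
    have h4 : ((W.erase a).image (fun v => ({a, v} : Finset (Fin n)))).card ≤ W.card - 1 := by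
      refine Finset.card_image_le.trans ?_
      rw [Finset.card_erase_of_mem haW]
    have h5 : (((W.erase a).erase b).image (fun v => ({b, v} : Finset (Fin n)))).card ≤
        W.card - 1 - 1 := by
      refine Finset.card_image_le.trans ?_
      rw [Finset.card_erase_of_mem (Finset.mem_erase.mpr ⟨hab.symm, hbW⟩),
        Finset.card_erase_of_mem haW]
    omega
  · -- two edges
    obtain ⟨g1, hg1, g2, hg2, hne⟩ := Finset.one_lt_card.mp (show 1 < H.card by omega)
    have hint1 : (g1 ∩ g2).card ≤ 1 := by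
      by_contra hcon
      have k1 : g1 ∩ g2 = g1 := Finset.eq_of_subset_of_card_le Finset.inter_subset_left
        (by rw [(hH g1 hg1).1]; omega)
      have k2 : g1 ∩ g2 = g2 := Finset.eq_of_subset_of_card_le Finset.inter_subset_right
        (by rw [(hH g2 hg2).1]; omega)
      exact hne (k1.symm.trans k2)
    have h2 : G ⊆ powersetCard 2 (g1 ∪ g2) ∪
        (g1 ∩ g2).biUnion (fun v => univ.image (fun w : Fin n => ({v, w} : Finset (Fin n)))) := by
      intro e he
      obtain ⟨v, hv⟩ := hc e he g1 hg1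
      obtain ⟨w, hw⟩ := hc e he g2 hg2
      obtain ⟨hv1, hv2⟩ := Finset.mem_inter.mp hv
      obtain ⟨hw1, hw2⟩ := Finset.mem_inter.mp hw
      rw [Finset.mem_union]
      by_cases hwv : w = v
      · right
        subst hwv
        rw [Finset.mem_biUnion]
        refine ⟨w, Finset.mem_inter.mpr ⟨hv2, hw2⟩, ?_⟩
        have h3 : 1 < e.card := by rw [(hG e he).1]; norm_num
        obtain ⟨u, hu, huw⟩ := Finset.exists_mem_ne h3 w
        rw [Finset.mem_image]
        exact ⟨u, mem_univ _, (star_eq (hG e he).1 hw1 hu huw).symm⟩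
      · left
        rw [Finset.mem_powersetCard]
        refine ⟨?_, (hG e he).1⟩
        rw [star_eq (hG e he).1 hv1 hw1 hwv]
        intro z; rw [Finset.mem_insert, Finset.mem_singleton, Finset.mem_union]
        rintro (rfl | rfl)
        · left; exact hv2
        · right; exact hw2
    have h3 := (Finset.card_le_card h2).trans (Finset.card_union_le _ _)
    have h4 : (powersetCard 2 (g1 ∪ g2)).card ≤ 6 := by
      rw [Finset.card_powersetCard]
      have h3 : (g1 ∪ g2).card ≤ 4 := by
        have := Finset.card_union_le g1 g2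
        have := (hH g1 hg1).1
        have := (hH g2 hg2).1
        omega
      have h4 := Nat.choose_le_choose 2 h3
      have h5 : Nat.choose 4 2 = 6 := by decide
      omega
    have h5 : ((g1 ∩ g2).biUnion (fun v => univ.image (fun w : Fin n =>
        ({v, w} : Finset (Fin n))))).card ≤ n := by
      calc _ ≤ ∑ v ∈ g1 ∩ g2, (univ.image (fun w : Fin n => ({v, w} : Finset (Fin n)))).card :=
            Finset.card_biUnion_le
        _ ≤ ∑ v ∈ g1 ∩ g2, n := by
            refine Finset.sum_le_sum fun v _ => Finset.card_image_le.trans ?_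
            simp
        _ = (g1 ∩ g2).card * n := by simp
        _ ≤ 1 * n := Nat.mul_le_mul_right _ hint1
        _ = n := one_mul n
    omega

/-- Hilton–Milner bound for covered non-stars. -/
theorem nonstar_bound (F : Finset (Finset (Fin n))) (hn : 18 ≤ n) (h3 : ∀ A ∈ F, A.card = 3)
    (hint : ∀ A ∈ F, ∀ B ∈ F, (A ∩ B).Nonempty) (x y : Fin n) (hxy : x ≠ y)
    (hcov : ∀ A ∈ F, x ∈ A ∨ y ∈ A) (hx : ∃ A ∈ F, x ∉ A) (hy : ∃ A ∈ F, y ∉ A) :
    F.card + 8 ≤ 3 * n := by
  classical
  set F12 := F.filter (fun A => x ∈ A ∧ y ∈ A) with hF12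
  set F1 := F.filter (fun A => y ∉ A) with hF1
  set F2 := F.filter (fun A => x ∉ A) with hF2
  set G1 := F1.image (fun A => A.erase x) with hG1
  set G2 := F2.image (fun A => A.erase y) with hG2
  have hF1x : ∀ A ∈ F1, A ∈ F ∧ x ∈ A ∧ y ∉ A := by
    intro A hA
    obtain ⟨h1, h2⟩ := Finset.mem_filter.mp hA
    have := hcov A h1
    tauto
  have hF2y : ∀ A ∈ F2, A ∈ F ∧ y ∈ A ∧ x ∉ A := by
    intro A hA
    obtain ⟨h1, h2⟩ := Finset.mem_filter.mp hA
    have := hcov A h1
    tauto
  have hcardF : F.card ≤ F12.card + F1.card + F2.card := by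
    have e1 : F = F12 ∪ (F1 ∪ F2) := by
      ext A
      simp only [hF12, hF1, hF2, mem_union, mem_filter]
      tauto
    have e2 := Finset.card_union_le F12 (F1 ∪ F2)
    have e3 := Finset.card_union_le F1 F2
    rw [← e1] at e2
    omega
  have hG1card : G1.card = F1.card := by
    refine Finset.card_image_of_injOn ?_
    intro A hA B hB hAB
    simp only at hAB
    rw [← Finset.insert_erase (hF1x A hA).2.1, hAB, Finset.insert_erase (hF1x B hB).2.1]
  have hG2card : G2.card = F2.card := by
    refine Finset.card_image_of_injOn ?_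
    intro A hA B hB hAB
    simp only at hAB
    rw [← Finset.insert_erase (hF2y A hA).2.1, hAB, Finset.insert_erase (hF2y B hB).2.1]
  set W := ((univ : Finset (Fin n)).erase x).erase y with hWdef
  have hW : W.card + 2 = n := by
    rw [hWdef, Finset.card_erase_of_mem (Finset.mem_erase.mpr ⟨hxy.symm, mem_univ _⟩),
      Finset.card_erase_of_mem (mem_univ _), Finset.card_univ, Fintype.card_fin]
    omega
  have hF12c : F12.card ≤ W.card := by
    have : F12 ⊆ W.image (fun v => ({x, y, v} : Finset (Fin n))) := by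
      intro A hA
      obtain ⟨hAF, hxA, hyA⟩ := Finset.mem_filter.mp hA
      have h4 : ({x, y} : Finset (Fin n)).card < A.card := by
        rw [h3 A hAF, Finset.card_pair hxy]; norm_num
      obtain ⟨v, hvA, hv⟩ := Finset.exists_mem_notMem_of_card_lt_card h4
      rw [Finset.mem_insert, Finset.mem_singleton, not_or] at hv
      rw [Finset.mem_image]
      refine ⟨v, ?_, ?_⟩
      · rw [hWdef, Finset.mem_erase, Finset.mem_erase]
        exact ⟨hv.2, hv.1, mem_univ _⟩
      · refine Finset.eq_of_subset_of_card_le ?_ ?_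
        · intro z hz
          rw [Finset.mem_insert, Finset.mem_insert, Finset.mem_singleton] at hz
          rcases hz with rfl | rfl | rfl <;> assumption
        · rw [h3 A hAF, Finset.card_eq_three.mpr ⟨x, y, v, hxy, Ne.symm hv.1, Ne.symm hv.2, rfl⟩]
    exact (Finset.card_le_card this).trans Finset.card_image_le
  have hG1e : ∀ e ∈ G1, e.card = 2 ∧ x ∉ e ∧ y ∉ e ∧ insert x e ∈ F := by
    intro e he
    obtain ⟨A, hA, rfl⟩ := Finset.mem_image.mp he
    obtain ⟨h4, h5, h6⟩ := hF1x A hA
    refine ⟨?_, Finset.notMem_erase x A, fun h => h6 (Finset.mem_of_mem_erase h), ?_⟩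
    · rw [Finset.card_erase_of_mem h5, h3 A h4]
    · rw [Finset.insert_erase h5]; exact h4
  have hG2e : ∀ e ∈ G2, e.card = 2 ∧ x ∉ e ∧ y ∉ e ∧ insert y e ∈ F := by
    intro e he
    obtain ⟨A, hA, rfl⟩ := Finset.mem_image.mp he
    obtain ⟨h4, h5, h6⟩ := hF2y A hA
    refine ⟨?_, fun h => h6 (Finset.mem_of_mem_erase h), Finset.notMem_erase y A, ?_⟩
    · rw [Finset.card_erase_of_mem h5, h3 A h4]
    · rw [Finset.insert_erase h5]; exact h4
  have hcross : ∀ e ∈ G1, ∀ f ∈ G2, (e ∩ f).Nonempty := by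
    intro e he f hf
    obtain ⟨_, he2, he3, he4⟩ := hG1e e he
    obtain ⟨_, hf2, hf3, hf4⟩ := hG2e f hf
    obtain ⟨v, hv⟩ := hint _ he4 _ hf4
    rw [Finset.mem_inter, Finset.mem_insert, Finset.mem_insert] at hv
    refine ⟨v, Finset.mem_inter.mpr ?_⟩
    rcases hv with ⟨rfl | hv1, rfl | hv2⟩
    · exact absurd rfl hxy
    · exact absurd hv2 hf2
    · exact absurd hv1 he3
    · exact ⟨hv1, hv2⟩
  have hsubW : ∀ e : Finset (Fin n), x ∉ e → y ∉ e → e ⊆ W := by
    intro e h1 h2 v hv
    rw [hWdef, Finset.mem_erase, Finset.mem_erase]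
    exact ⟨fun h => h2 (h ▸ hv), fun h => h1 (h ▸ hv), mem_univ _⟩
  have hG1W : ∀ e ∈ G1, e.card = 2 ∧ e ⊆ W := fun e he =>
    ⟨(hG1e e he).1, hsubW e (hG1e e he).2.1 (hG1e e he).2.2.1⟩
  have hG2W : ∀ e ∈ G2, e.card = 2 ∧ e ⊆ W := fun e he =>
    ⟨(hG2e e he).1, hsubW e (hG2e e he).2.1 (hG2e e he).2.2.1⟩
  have hne1 : G1.Nonempty := by
    obtain ⟨A, hA, hyA⟩ := hy
    exact ⟨_, Finset.mem_image_of_mem _ (Finset.mem_filter.mpr ⟨hA, hyA⟩)⟩
  have hne2 : G2.Nonempty := by
    obtain ⟨A, hA, hxA⟩ := hx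
    exact ⟨_, Finset.mem_image_of_mem _ (Finset.mem_filter.mpr ⟨hA, hxA⟩)⟩
  have hsum : G1.card + G2.card + 6 ≤ 2 * n := by
    rcases Nat.lt_or_ge (G1.card + 2) n with h1 | h1
    · rcases Nat.lt_or_ge (G2.card + 2) n with h2 | h2
      · omega
      · have := cross_aux ∅ G2 G1 W hW hn hG2W hG1W (fun e he f hf => by
          rw [Finset.inter_comm]; exact hcross f hf e he) hne1 h2
        omega
    · exact cross_aux ∅ G1 G2 W hW hn hG1W hG2W hcross hne2 h1
  omega

/-- stars. -/
theorem star_lower (F : Finset (Finset (Fin n))) (h3 : ∀ A ∈ F, A.card = 3) (x : Fin n)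
    (hx : ∀ A ∈ F, x ∈ A) :
    ∃ w : ℕ, w + 1 ≤ n ∧ F.card ≤ w.choose 2 ∧ F.card + w ≤ (∂ F).card := by
  classical
  set G := F.image (fun A => A.erase x) with hG
  have hGcard : G.card = F.card := by
    refine Finset.card_image_of_injOn ?_
    intro A hA B hB hAB
    simp only at hAB
    rw [← Finset.insert_erase (hx A hA), hAB, Finset.insert_erase (hx B hB)]
  have hGe : ∀ e ∈ G, e.card = 2 ∧ x ∉ e ∧ insert x e ∈ F := by
    intro e he
    obtain ⟨A, hA, rfl⟩ := Finset.mem_image.mp he
    refine ⟨?_, Finset.notMem_erase x A, ?_⟩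
    · rw [Finset.card_erase_of_mem (hx A hA), h3 A hA]
    · rw [Finset.insert_erase (hx A hA)]; exact hA
  have hVx : x ∉ VV G := by
    intro h
    obtain ⟨e, he, hxe⟩ := mem_VV.mp h
    exact (hGe e he).2.1 hxe
  refine ⟨(VV G).card, ?_, ?_, ?_⟩
  · have h1 : (insert x (VV G)).card ≤ n := by simpa using Finset.card_le_univ (insert x (VV G))
    rw [Finset.card_insert_of_notMem hVx] at h1
    exact h1
  · rw [← hGcard, ← Finset.card_powersetCard]
    refine Finset.card_le_card ?_
    intro e he
    rw [Finset.mem_powersetCard]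
    exact ⟨fun v hv => mem_VV.mpr ⟨e, he, hv⟩, (hGe e he).1⟩
  · have hV1 : ∀ v ∈ VV G, v ≠ x ∧ ({x, v} : Finset (Fin n)) ∈ ∂ F := by
      intro v hv
      obtain ⟨e, he, hve⟩ := mem_VV.mp hv
      obtain ⟨h4, h5, h7⟩ := hGe e he
      have hvx : v ≠ x := fun h => h5 (h ▸ hve)
      refine ⟨hvx, ?_⟩
      rw [Finset.mem_shadow_iff_exists_mem_card_add_one]
      refine ⟨insert x e, h7, ?_, ?_⟩
      · intro z; simp only [mem_insert, mem_singleton]
        rintro (rfl | rfl)
        · left; rfl
        · right; exact hve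
      · rw [Finset.card_insert_of_notMem h5, h4, Finset.card_pair hvx.symm]
    set S1 := (VV G).image (fun v => ({x, v} : Finset (Fin n))) with hS1
    have hS1c : S1.card = (VV G).card := by
      refine Finset.card_image_of_injOn ?_
      intro v hv w hw hvw
      have h4 := (hV1 v hv).1
      have h5 : v ∈ ({x, w} : Finset (Fin n)) := by
        rw [← show ({x, v} : Finset (Fin n)) = {x, w} from hvw]; simp
      rw [Finset.mem_insert, Finset.mem_singleton] at h5
      tauto
    have hd : Disjoint G S1 := by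
      rw [Finset.disjoint_left]
      intro e he he'
      obtain ⟨v, _, rfl⟩ := Finset.mem_image.mp he'
      exact (hGe _ he).2.1 (by simp)
    rw [← hGcard, ← hS1c, ← Finset.card_union_of_disjoint hd]
    refine Finset.card_le_card ?_
    intro e he
    rcases Finset.mem_union.mp he with h | h
    · rw [Finset.mem_shadow_iff_insert_mem]
      exact ⟨x, (hGe e h).2.1, (hGe e h).2.2⟩
    · obtain ⟨v, hv, rfl⟩ := Finset.mem_image.mp h
      exact (hV1 v hv).2

theorem star_upper (n m v : ℕ) (hv : v + 1 ≤ n) (hm : m ≤ v.choose 2) :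
    ∃ F : Finset (Finset (Fin n)), (∀ A ∈ F, A.card = 3) ∧
      (∀ A ∈ F, ∀ B ∈ F, (A ∩ B).Nonempty) ∧ F.card = m ∧ (∂ F).card ≤ m + v := by
  classical
  let x : Fin n := ⟨0, by omega⟩
  have h1 : v ≤ ((univ : Finset (Fin n)).erase x).card := by
    rw [Finset.card_erase_of_mem (mem_univ _), Finset.card_univ, Fintype.card_fin]; omega
  obtain ⟨S, hS, hScard⟩ := Finset.exists_subset_card_eq h1
  have hxS : x ∉ S := fun h => Finset.notMem_erase x univ (hS h)
  have h2 : m ≤ (powersetCard 2 S).card := by rw [Finset.card_powersetCard, hScard]; exact hm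
  obtain ⟨G, hG, hGcard⟩ := Finset.exists_subset_card_eq h2
  have hGe : ∀ e ∈ G, e ⊆ S ∧ e.card = 2 ∧ x ∉ e := by
    intro e he
    obtain ⟨h4, h5⟩ := Finset.mem_powersetCard.mp (hG he)
    exact ⟨h4, h5, fun h => hxS (h4 h)⟩
  refine ⟨G.image (insert x), ?_, ?_, ?_, ?_⟩
  · intro A hA
    obtain ⟨e, he, rfl⟩ := Finset.mem_image.mp hA
    rw [Finset.card_insert_of_notMem (hGe e he).2.2, (hGe e he).2.1]
  · intro A hA B hB
    obtain ⟨e, he, rfl⟩ := Finset.mem_image.mp hA
    obtain ⟨f, hf, rfl⟩ := Finset.mem_image.mp hB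
    exact ⟨x, by simp⟩
  · rw [Finset.card_image_of_injOn, hGcard]
    intro e he f hf hef
    rw [← Finset.erase_insert (hGe e he).2.2, show insert x e = insert x f from hef,
      Finset.erase_insert (hGe f hf).2.2]
  · have h3 : ∂ (G.image (insert x)) ⊆ G ∪ S.image (fun w => ({x, w} : Finset (Fin n))) := by
      intro t ht
      obtain ⟨A, hA, a, ha, rfl⟩ := Finset.mem_shadow_iff.mp ht
      obtain ⟨e, he, rfl⟩ := Finset.mem_image.mp hA
      obtain ⟨h4, h5, h6⟩ := hGe e he
      rw [Finset.mem_union]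
      by_cases hax : a = x
      · left
        rw [hax, Finset.erase_insert h6]; exact he
      · right
        have hae : a ∈ e := by
          rcases Finset.mem_insert.mp ha with h | h
          · exact absurd h hax
          · exact h
        obtain ⟨w, hw, hwa⟩ := Finset.exists_mem_ne (show 1 < e.card by omega) a
        rw [Finset.mem_image]
        refine ⟨w, h4 hw, ?_⟩
        have h7 : e = {a, w} := star_eq h5 hae hw hwa
        have hxa : x ≠ a := fun h => hax h.symm
        have hxw : x ≠ w := fun h => h6 (h ▸ hw)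
        rw [h7]
        ext z
        simp only [mem_insert, mem_singleton, mem_erase]
        constructor
        · rintro (rfl | rfl)
          · exact ⟨hxa, Or.inl rfl⟩
          · exact ⟨hwa, Or.inr (Or.inr rfl)⟩
        · rintro ⟨hza, h | h | h⟩
          · left; exact h
          · exact absurd h hza
          · right; exact h
    refine (Finset.card_le_card h3).trans ((Finset.card_union_le _ _).trans ?_)
    have h4 := Finset.card_image_le (s := S) (f := fun w => ({x, w} : Finset (Fin n)))
    omega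

end Pool.Agent.Helper838.Shadow3
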