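import Mathlib
import Pool.Agent.Helper838.Shadow3D

set_option autoImplicit false

namespace Pool.Agent.Helper838.Shadow3

open Finset
open scoped FinsetFamily

theorem big_n (n : ℕ) (F : Finset (Finset (Fin n))) (h3 : ∀ A ∈ F, A.card = 3)
    (hF : 1000 ≤ F.card) : 18 ≤ n := by
  by_contra hcon
  have h1 : F ⊆ powersetCard 3 (univ : Finset (Fin n)) := by
    intro A hA
    rw [Finset.mem_powersetCard]
    exact ⟨Finset.subset_univ _, h3 A hA⟩
  have h2 := Finset.card_le_card h1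
  rw [Finset.card_powersetCard, Finset.card_univ, Fintype.card_fin] at h2
  have h4 := Nat.choose_le_choose 3 (show n ≤ 17 by omega)
  have h5 : Nat.choose 17 3 = 680 := by decide
  omega

theorem mainAll : ∃ m₀ : ℕ, ∀ m : ℕ, m₀ ≤ m → ∀ n : ℕ,
    (m + 8 ≤ 3 * n →
      IsLeast {x : ℕ | ∃ F : Finset (Finset (Fin n)), (∀ A ∈ F, A.card = 3) ∧
        (∀ A ∈ F, ∀ B ∈ F, (A ∩ B).Nonempty) ∧ F.card = m ∧ (∂ F).card = x}
        (if m % 3 = 1 then m + 2 else m + 3)) ∧
    (3 * n < m + 8 → m ≤ (n - 1).choose 2 → ∀ v : ℕ, IsLeast {u : ℕ | m ≤ u.choose 2} v →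
      IsLeast {x : ℕ | ∃ F : Finset (Finset (Fin n)), (∀ A ∈ F, A.card = 3) ∧
        (∀ A ∈ F, ∀ B ∈ F, (A ∩ B).Nonempty) ∧ F.card = m ∧ (∂ F).card = x} (m + v)) ∧
    ((n - 1).choose 2 < m → ¬ ∃ F : Finset (Finset (Fin n)), (∀ A ∈ F, A.card = 3) ∧
        (∀ A ∈ F, ∀ B ∈ F, (A ∩ B).Nonempty) ∧ F.card = m) := by
  obtain ⟨C, hC⟩ := cover
  obtain ⟨m₁, hm₁⟩ := mainSmall
  refine ⟨C + m₁ + 1000, fun m hm n => ⟨fun hn => hm₁ m (by omega) n hn, ?_, ?_⟩⟩
  · intro hn hmn v hv
    have hm0 : 0 < (n - 1).choose 2 := by omega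
    have hvn : v ≤ n - 1 := hv.2 hmn
    have hn1 : 1 ≤ n := by
      by_contra h
      have : n - 1 = 0 := by omega
      rw [this] at hm0
      simp at hm0
    have hlow : ∀ F : Finset (Finset (Fin n)), (∀ A ∈ F, A.card = 3) →
        (∀ A ∈ F, ∀ B ∈ F, (A ∩ B).Nonempty) → F.card = m → m + v ≤ (∂ F).card := by
      intro F h3 hint hF
      have hn18 := big_n n F h3 (by omega)
      obtain ⟨x, y, hxy, hcov⟩ := hC n F h3 hint (by omega)
      have hstar : ∀ z : Fin n, (∀ A ∈ F, z ∈ A) → m + v ≤ (∂ F).card := by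
        intro z hz
        obtain ⟨w, _, hw2, hw3⟩ := star_lower F h3 z hz
        have : v ≤ w := hv.2 (by rw [Set.mem_setOf_eq, ← hF]; exact hw2)
        omega
      by_cases hx : ∀ A ∈ F, x ∈ A
      · exact hstar x hx
      · by_cases hy : ∀ A ∈ F, y ∈ A
        · exact hstar y hy
        · push Not at hx hy
          have := nonstar_bound F hn18 h3 hint x y hxy hcov hx hy
          omega
    obtain ⟨F, h3, hint, hF, hsh⟩ := star_upper n m v (by omega) hv.1
    constructor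
    · exact ⟨F, h3, hint, hF, le_antisymm hsh (hlow F h3 hint hF)⟩
    · rintro x ⟨F, h3, hint, hF, rfl⟩
      exact hlow F h3 hint hF
  · rintro hmn ⟨F, h3, hint, hF⟩
    have hn18 := big_n n F h3 (by omega)
    obtain ⟨x, y, hxy, hcov⟩ := hC n F h3 hint (by omega)
    have hstar : ∀ z : Fin n, (∀ A ∈ F, z ∈ A) → False := by
      intro z hz
      obtain ⟨w, hw1, hw2, _⟩ := star_lower F h3 z hz
      have := Nat.choose_le_choose 2 (show w ≤ n - 1 by omega)
      omega
    by_cases hx : ∀ A ∈ F, x ∈ A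
    · exact hstar x hx
    · by_cases hy : ∀ A ∈ F, y ∈ A
      · exact hstar y hy
      · push Not at hx hy
        have h1 := nonstar_bound F hn18 h3 hint x y hxy hcov hx hy
        have h2 : 3 * n ≤ (n - 1).choose 2 := by
          rw [Nat.choose_two_right, Nat.le_div_iff_mul_le (by norm_num)]
          obtain ⟨d, rfl⟩ : ∃ d, n = 18 + d := ⟨n - 18, by omega⟩
          have e1 : 18 + d - 1 = 17 + d := by omega
          have e2 : 17 + d - 1 = 16 + d := by omega
          rw [e1, e2]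
          nlinarith
        omega

end Pool.Agent.Helper838.Shadow3
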